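import Pool.Agent.T6.H5.PW.Defs

/-!
Module A of project PW: commuting skew operators on a semi-inner product space.
-/

set_option autoImplicit false
open Finset

namespace Pool.Agent.T6.H5.PW

namespace ModA

universe u

/-- mode bound for binomial coefficients -/
lemma mode (m k : ℕ) (hk : k ≤ m) :
    (m : ℝ) ^ m ≤ (m + 1) * ((m.choose k : ℝ) * (k : ℝ) ^ k * ((m - k : ℕ) : ℝ) ^ (m - k)) := by
  have key : ∀ j ∈ range (m + 1), (k : ℝ) ^ j * ((m - k : ℕ) : ℝ) ^ (m - j) * (m.choose j : ℝ) ≤
      (m.choose k : ℝ) * (k : ℝ) ^ k * ((m - k : ℕ) : ℝ) ^ (m - k) := by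
    intro j hj
    have hj' : j ≤ m := by simpa [Nat.lt_succ_iff] using hj
    have h : k ^ j * (m - k) ^ (m - j) * m.choose j ≤ m.choose k * k ^ k * (m - k) ^ (m - k) := by
      have hpos : 0 < (k.factorial * (m - k).factorial) * (j.factorial * (m - j).factorial) := by
        positivity
      apply Nat.le_of_mul_le_mul_left _ hpos
      have e1 : m.choose k * k.factorial * (m - k).factorial = m.factorial :=
        Nat.choose_mul_factorial_mul_factorial hk
      have e2 : m.choose j * j.factorial * (m - j).factorial = m.factorial :=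
        Nat.choose_mul_factorial_mul_factorial hj'
      have l1 : (k.factorial * (m - k).factorial) * (j.factorial * (m - j).factorial) *
          (k ^ j * (m - k) ^ (m - j) * m.choose j) =
          m.factorial * ((k.factorial * k ^ j) * ((m - k).factorial * (m - k) ^ (m - j))) := by
        rw [← e2]; ring
      have l2 : (k.factorial * (m - k).factorial) * (j.factorial * (m - j).factorial) *
          (m.choose k * k ^ k * (m - k) ^ (m - k)) =
          m.factorial * ((j.factorial * k ^ k) * ((m - j).factorial * (m - k) ^ (m - k))) := by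
        rw [← e1]; ring
      rw [l1, l2]
      have gen : ∀ a b : ℕ, a.factorial * a ^ b ≤ b.factorial * a ^ a := by
        intro a b
        rcases le_total a b with hab | hab
        · obtain ⟨c, rfl⟩ := Nat.exists_eq_add_of_le hab
          have h3 : a.factorial * a ^ c ≤ (a + c).factorial :=
            le_trans (Nat.mul_le_mul_left _ (Nat.pow_le_pow_left (Nat.le_succ a) c))
              (Nat.factorial_mul_pow_le_factorial (m := a) (n := c))
          calc a.factorial * a ^ (a + c) = (a.factorial * a ^ c) * a ^ a := by ring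
            _ ≤ (a + c).factorial * a ^ a := Nat.mul_le_mul_right _ h3
        · obtain ⟨c, rfl⟩ := Nat.exists_eq_add_of_le hab
          have h3 : (b + c).factorial ≤ b.factorial * (b + c) ^ c := by
            have : ∀ c' ≤ c, (b + c').factorial ≤ b.factorial * (b + c) ^ c' := by
              intro c'
              induction c' with
              | zero => intro _; simp
              | succ e ihe =>
                intro he
                have := ihe (by omega)
                rw [← add_assoc, Nat.factorial_succ]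
                calc (b + e + 1) * (b + e).factorial ≤
                      (b + c) * (b.factorial * (b + c) ^ e) :=
                      Nat.mul_le_mul (by omega) this
                  _ = b.factorial * (b + c) ^ (e + 1) := by ring
            exact this c le_rfl
          calc (b + c).factorial * (b + c) ^ b ≤ (b.factorial * (b + c) ^ c) * (b + c) ^ b :=
                Nat.mul_le_mul_right _ h3
            _ = b.factorial * (b + c) ^ (b + c) := by ring
      exact Nat.mul_le_mul_left _ (Nat.mul_le_mul (gen k j) (gen (m - k) (m - j)))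
    exact_mod_cast h
  have hsum : (m : ℝ) ^ m = ∑ j ∈ range (m + 1),
      (k : ℝ) ^ j * ((m - k : ℕ) : ℝ) ^ (m - j) * (m.choose j : ℝ) := by
    rw [← add_pow]
    congr 1
    rw [Nat.cast_sub hk]; ring
  rw [hsum]
  refine (sum_le_sum key).trans ?_
  rw [sum_const, card_range, nsmul_eq_mul]
  push_cast
  exact le_refl _

/-- there is a good parameter -/
lemma good (m k : ℕ) (hk : k ≤ m) : ∃ t : ℝ, 0 ≤ t ∧ t ≤ 1 ∧
    (m.choose k : ℝ) ≤ (m + 1) * (((2 * m).choose (2 * k) : ℝ) * (t ^ k * (1 - t) ^ (m - k))) := by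
  rcases Nat.eq_zero_or_pos m with hm | hm
  · subst hm
    have : k = 0 := by omega
    subst this
    exact ⟨0, le_refl _, zero_le_one, by simp⟩
  have hm' : (0 : ℝ) < m := by exact_mod_cast hm
  have hkm : (k : ℝ) ≤ m := by exact_mod_cast hk
  refine ⟨k / m, by positivity, (div_le_one hm').2 hkm, ?_⟩
  have h1 : (1 : ℝ) ≤ (m + 1) * ((m.choose k : ℝ) * (((k : ℝ) / m) ^ k * (1 - (k : ℝ) / m) ^ (m - k))) := by
    have e : (1 - (k : ℝ) / m) = ((m - k : ℕ) : ℝ) / m := by
      rw [Nat.cast_sub hk]; field_simp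
    rw [e, div_pow, div_pow]
    have e2 : (m : ℝ) ^ k * (m : ℝ) ^ (m - k) = (m : ℝ) ^ m := by
      rw [← pow_add]; congr 1; omega
    have e3 : ((k : ℝ) ^ k / (m : ℝ) ^ k * (((m - k : ℕ) : ℝ) ^ (m - k) / (m : ℝ) ^ (m - k))) =
        ((k : ℝ) ^ k * ((m - k : ℕ) : ℝ) ^ (m - k)) / (m : ℝ) ^ m := by
      rw [← e2]; field_simp
    rw [e3, ← mul_div_assoc, ← mul_div_assoc, le_div_iff₀ (by positivity), one_mul]
    have := mode m k hk
    linarith [this, mul_assoc ((m.choose k : ℝ)) ((k : ℝ) ^ k) (((m - k : ℕ) : ℝ) ^ (m - k))]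
  have h2 : (m.choose k : ℝ) * (m.choose k : ℝ) ≤ ((2 * m).choose (2 * k) : ℝ) := by
    have : m.choose k * m.choose k ≤ (2 * m).choose (2 * k) := by
      rw [two_mul m, Nat.add_choose_eq]
      have := Finset.single_le_sum (s := antidiagonal (2 * k))
        (f := fun ij : ℕ × ℕ => m.choose ij.1 * m.choose ij.2) (fun _ _ => Nat.zero_le _)
        (a := (k, k)) (by simp [two_mul])
      simpa using this
    exact_mod_cast this
  set q := ((k : ℝ) / m) ^ k * (1 - (k : ℝ) / m) ^ (m - k) with hq
  have hq0 : 0 ≤ q := by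
    have : 0 ≤ 1 - (k : ℝ) / m := by
      rw [sub_nonneg]; exact (div_le_one hm').2 hkm
    positivity
  have hc : (0 : ℝ) ≤ m.choose k := by positivity
  calc (m.choose k : ℝ) = m.choose k * 1 := by ring
    _ ≤ m.choose k * ((m + 1) * ((m.choose k : ℝ) * q)) := mul_le_mul_of_nonneg_left h1 hc
    _ = (m + 1) * ((m.choose k * m.choose k) * q) := by ring
    _ ≤ (m + 1) * (((2 * m).choose (2 * k) : ℝ) * q) := by gcongr

section
variable {V : Type u} [AddCommGroup V] [Module ℝ V] (B : V →ₗ[ℝ] V →ₗ[ℝ] ℝ)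

def Skew (X : Module.End ℝ V) : Prop := ∀ u v, B (X u) v = -B u (X v)

lemma skew_pow {X : Module.End ℝ V} (hX : Skew B X) (m : ℕ) (u v : V) :
    B ((X ^ m) u) v = (-1) ^ m * B u ((X ^ m) v) := by
  induction m generalizing u v with
  | zero => simp
  | succ m ih =>
    have e1 : (X ^ (m + 1)) u = (X ^ m) (X u) := by rw [pow_succ, Module.End.mul_apply]
    have e2 : (X ^ (m + 1)) v = X ((X ^ m) v) := by rw [pow_succ', Module.End.mul_apply]
    rw [e1, e2, ih, hX]
    ring

lemma skew_sum {ι : Type*} (s : Finset ι) (w : ι → ℝ) (D : ι → Module.End ℝ V)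
    (hD : ∀ i, Skew B (D i)) : Skew B (∑ i ∈ s, w i • D i) := by
  intro u v
  simp only [LinearMap.sum_apply, LinearMap.smul_apply, map_sum, map_smul, smul_eq_mul]
  rw [← sum_neg_distrib]
  refine sum_congr rfl fun i _ => ?_
  rw [hD i u v]; ring

lemma skew_lin {A E : Module.End ℝ V} (hA : Skew B A) (hE : Skew B E) (x y : ℝ) :
    Skew B (x • A + y • E) := by
  intro u v
  simp only [LinearMap.add_apply, LinearMap.smul_apply, map_add, map_smul, smul_eq_mul]
  rw [hA u v, hE u v]; ring

variable (hsym : ∀ u v, B u v = B v u) (hpos : ∀ u, 0 ≤ B u u)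

include hpos in
/-- two commuting skew operators -/
lemma two_dim {A E : Module.End ℝ V} (hc : Commute A E) (hA : Skew B A) (hE : Skew B E)
    (m k : ℕ) (hk : k ≤ m) (v : V) (M : ℝ) (t : ℝ) (ht0 : 0 ≤ t) (ht1 : t ≤ 1)
    (h : ∀ x y : ℝ, x ^ 2 + y ^ 2 ≤ 1 →
      B (((x • A + y • E) ^ m) v) (((x • A + y • E) ^ m) v) ≤ M) :
    ((2 * m).choose (2 * k) : ℝ) * (t ^ k * (1 - t) ^ (m - k)) *
      B ((A ^ k) ((E ^ (m - k)) v)) ((A ^ k) ((E ^ (m - k)) v)) ≤ M := by
  set f : ℕ → ℝ := fun j => (-1) ^ m * B v ((A ^ j) ((E ^ (2 * m - j)) v)) with hf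
  -- expansion
  have exp : ∀ x y : ℝ, B (((x • A + y • E) ^ m) v) (((x • A + y • E) ^ m) v) =
      ∑ j ∈ range (2 * m + 1), ((2 * m).choose j : ℝ) * (x ^ j * y ^ (2 * m - j)) * f j := by
    intro x y
    rw [skew_pow B (skew_lin B hA hE x y), ← Module.End.mul_apply, ← pow_add, ← two_mul]
    have hcc : Commute (x • A) (y • E) := (hc.smul_left x).smul_right y
    rw [hcc.add_pow, LinearMap.sum_apply, map_sum, mul_sum]
    refine sum_congr rfl fun j _ => ?_
    have e : ((x • A) ^ j * (y • E) ^ (2 * m - j) * (((2 * m).choose j : ℕ) : Module.End ℝ V)) =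
        (((2 * m).choose j : ℝ) * (x ^ j * y ^ (2 * m - j))) • (A ^ j * E ^ (2 * m - j)) := by
      rw [smul_pow, smul_pow, smul_mul_smul_comm]
      rw [← (Nat.cast_commute ((2 * m).choose j)
        ((x ^ j * y ^ (2 * m - j)) • (A ^ j * E ^ (2 * m - j)))).eq]
      rw [mul_smul_comm, ← nsmul_eq_mul, ← Nat.cast_smul_eq_nsmul ℝ, smul_smul, mul_comm]
    rw [e, LinearMap.smul_apply, map_smul, smul_eq_mul, Module.End.mul_apply, hf]
    ring
  -- even terms are squares
  have even : ∀ i, i ≤ m → f (2 * i) = B ((A ^ i) ((E ^ (m - i)) v)) ((A ^ i) ((E ^ (m - i)) v)) := by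
    intro i hi
    rw [skew_pow B hA, skew_pow B hE, hf]
    simp only
    have e1 : (A ^ i) ((A ^ i) ((E ^ (m - i)) v)) = (A ^ (2 * i)) ((E ^ (m - i)) v) := by
      rw [← Module.End.mul_apply, ← pow_add, two_mul]
    have e2 : (E ^ (m - i)) ((A ^ (2 * i)) ((E ^ (m - i)) v)) =
        (A ^ (2 * i)) ((E ^ (2 * m - 2 * i)) v) := by
      rw [← Module.End.mul_apply, ← ((hc.pow_pow (2 * i) (m - i)).eq), Module.End.mul_apply,
        ← Module.End.mul_apply (E ^ (m - i)) (E ^ (m - i)), ← pow_add]
      congr 3; omega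
    rw [e1, e2, ← mul_assoc, ← pow_add]
    congr 2; omega
  have hx : √t ^ 2 = t := Real.sq_sqrt ht0
  have hy : √(1 - t) ^ 2 = 1 - t := Real.sq_sqrt (by linarith)
  have h1 := h (√t) (√(1 - t)) (by rw [hx, hy]; linarith)
  have h2 := h (√t) (-√(1 - t)) (by rw [neg_sq, hx, hy]; linarith)
  rw [exp] at h1 h2
  set x := √t with hxd
  set y := √(1 - t) with hyd
  have hx0 : 0 ≤ x := Real.sqrt_nonneg _
  have hy0 : 0 ≤ y := Real.sqrt_nonneg _
  set g : ℕ → ℝ := fun j => ((2 * m).choose j : ℝ) * (x ^ j * y ^ (2 * m - j)) * f j +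
    ((2 * m).choose j : ℝ) * (x ^ j * (-y) ^ (2 * m - j)) * f j with hg
  have hsum : ∑ j ∈ range (2 * m + 1), g j ≤ 2 * M := by
    rw [hg, sum_add_distrib]; linarith
  have hg0 : ∀ j ∈ range (2 * m + 1), 0 ≤ g j := by
    intro j hj
    have hj' : j ≤ 2 * m := by simpa [Nat.lt_succ_iff] using hj
    rcases Nat.even_or_odd j with he | ho
    · obtain ⟨i, hi⟩ := he
      have hi' : j = 2 * i := by omega
      subst hi'
      have hi2 : i ≤ m := by omega
      have hev : Even (2 * m - 2 * i) := ⟨m - i, by omega⟩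
      rw [hg]; simp only
      rw [hev.neg_pow, even i hi2]
      have := hpos ((A ^ i) ((E ^ (m - i)) v))
      positivity
    · have hod : Odd (2 * m - j) := by
        obtain ⟨i, hi⟩ := ho
        exact ⟨m - i - 1, by omega⟩
      rw [hg]; simp only
      rw [hod.neg_pow]
      apply le_of_eq; ring
  have hsingle := single_le_sum hg0 (show 2 * k ∈ range (2 * m + 1) by
    rw [mem_range]; omega)
  have hfin : g (2 * k) ≤ 2 * M := hsingle.trans hsum
  have hev : Even (2 * m - 2 * k) := ⟨m - k, by omega⟩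
  rw [hg] at hfin
  simp only at hfin
  rw [hev.neg_pow, even k hk] at hfin
  have ex : x ^ (2 * k) = t ^ k := by rw [pow_mul, hx]
  have ey : y ^ (2 * m - 2 * k) = (1 - t) ^ (m - k) := by
    rw [← Nat.mul_sub, pow_mul, hy]
  rw [ex, ey] at hfin
  linarith

include hpos in
lemma two_dim' {A E : Module.End ℝ V} (hc : Commute A E) (hA : Skew B A) (hE : Skew B E)
    (m k : ℕ) (hk : k ≤ m) (v : V) (M : ℝ)
    (h : ∀ x y : ℝ, x ^ 2 + y ^ 2 ≤ 1 →
      B (((x • A + y • E) ^ m) v) (((x • A + y • E) ^ m) v) ≤ M) :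
    (m.choose k : ℝ) * B ((A ^ k) ((E ^ (m - k)) v)) ((A ^ k) ((E ^ (m - k)) v)) ≤
      (m + 1) * M := by
  obtain ⟨t, ht0, ht1, ht⟩ := good m k hk
  have h1 := two_dim B hpos hc hA hE m k hk v M t ht0 ht1 h
  have h0 := hpos ((A ^ k) ((E ^ (m - k)) v))
  calc (m.choose k : ℝ) * B ((A ^ k) ((E ^ (m - k)) v)) ((A ^ k) ((E ^ (m - k)) v))
      ≤ ((m + 1) * (((2 * m).choose (2 * k) : ℝ) * (t ^ k * (1 - t) ^ (m - k)))) *
        B ((A ^ k) ((E ^ (m - k)) v)) ((A ^ k) ((E ^ (m - k)) v)) :=
        mul_le_mul_of_nonneg_right ht h0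
    _ = (m + 1) * (((2 * m).choose (2 * k) : ℝ) * (t ^ k * (1 - t) ^ (m - k)) *
        B ((A ^ k) ((E ^ (m - k)) v)) ((A ^ k) ((E ^ (m - k)) v))) := by ring
    _ ≤ (m + 1) * M := by gcongr

include hpos in
/-- moments of `R = -∑ D i ^ 2` -/
lemma moments (d : ℕ) : ∀ (D : Fin d → Module.End ℝ V), (∀ i j, Commute (D i) (D j)) →
    (∀ i, Skew B (D i)) → ∀ (m : ℕ) (v : V) (M : ℝ),
    (∀ w : Fin d → ℝ, ∑ i, w i ^ 2 ≤ 1 →
      B (((∑ i, w i • D i) ^ m) v) (((∑ i, w i • D i) ^ m) v) ≤ M) →
    B v (((-∑ i, D i * D i) ^ m) v) ≤ (m + 1) ^ (2 * d) * M := by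
  induction d with
  | zero =>
    intro D _ _ m v M h
    have h0 := h (fun _ => 0) (by simp)
    simp only [univ_eq_empty, sum_empty, neg_zero, mul_zero, pow_zero, one_mul] at h0 ⊢
    rcases Nat.eq_zero_or_pos m with hm | hm
    · subst hm; simpa using h0
    · rw [zero_pow hm.ne'] at h0 ⊢
      simpa using h0
  | succ d ih =>
    intro D hcomm hskew m v M h
    set E : Module.End ℝ V := D 0 with hE
    set D' : Fin d → Module.End ℝ V := fun i => D i.succ with hD'
    set R' : Module.End ℝ V := -∑ i, D' i * D' i with hR'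
    have hsplit : (-∑ i, D i * D i) = R' + -(E * E) := by
      rw [Fin.sum_univ_succ, hR', neg_add, add_comm]
    have hE' : ∀ i, Commute (D' i) E := fun i => hcomm _ _
    have hRE : Commute R' E := by
      rw [hR']
      apply Commute.neg_left
      exact Commute.sum_left _ _ _ fun i _ => (hE' i).mul_left (hE' i)
    have hRE2 : Commute R' (-(E * E)) := (hRE.mul_right hRE).neg_right
    -- the two dimensional bound
    have hM0 : 0 ≤ M := by
      refine le_trans (hpos _) (h (fun _ => 0) (by simp))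
    have key : ∀ k, k ≤ m → (m.choose k : ℝ) * B v ((R' ^ k) (((-(E * E)) ^ (m - k)) v)) ≤
        (m + 1) ^ (2 * d + 1) * M := by
      intro k hk
      have e1 : B v ((R' ^ k) (((-(E * E)) ^ (m - k)) v)) =
          B ((E ^ (m - k)) v) ((R' ^ k) ((E ^ (m - k)) v)) := by
        rw [skew_pow B (hskew 0)]
        have e2 : ((-(E * E)) ^ (m - k) : Module.End ℝ V) =
            ((-1 : ℝ) ^ (m - k)) • (E ^ (m - k) * E ^ (m - k)) := by
          rw [← neg_one_smul ℝ (E * E), smul_pow, ← pow_add, ← two_mul, pow_mul, sq]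
        rw [e2, LinearMap.smul_apply, map_smul, map_smul, smul_eq_mul, ← hE]
        congr 2
        rw [Module.End.mul_apply, ← Module.End.mul_apply (R' ^ k), ← Module.End.mul_apply (E ^ (m-k)),
          (hRE.pow_pow k (m - k)).eq]
      have hck : (0 : ℝ) < m.choose k := by exact_mod_cast Nat.choose_pos hk
      have h3 := ih D' (fun i j => hcomm _ _) (fun i => hskew _) k ((E ^ (m - k)) v)
        ((m + 1) * M / m.choose k) (by
          intro w' hw'
          rw [le_div_iff₀ hck, mul_comm]
          refine two_dim' B hpos (A := ∑ i, w' i • D' i) (E := E) ?_ ?_ (hskew 0) m k hk v M ?_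
          · exact Commute.sum_left _ _ _ fun i _ => (hE' i).smul_left _
          · exact skew_sum B _ _ _ (fun i => hskew _)
          · intro x y hxy
            have h4 := h (Fin.cons y (fun i => x * w' i)) (by
              rw [Fin.sum_univ_succ]
              simp only [Fin.cons_zero, Fin.cons_succ, mul_pow]
              rw [← mul_sum]
              have : x ^ 2 * ∑ i, w' i ^ 2 ≤ x ^ 2 * 1 :=
                mul_le_mul_of_nonneg_left hw' (sq_nonneg x)
              linarith)
            rw [Fin.sum_univ_succ] at h4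
            simp only [Fin.cons_zero, Fin.cons_succ] at h4
            have e5 : (x • ∑ i, w' i • D' i + y • E) = (y • D 0 + ∑ i : Fin d, (x * w' i) • D i.succ) := by
              rw [smul_sum, add_comm]
              simp only [smul_smul, hD', hE]
            rw [e5]
            exact h4)
      rw [e1]
      calc (m.choose k : ℝ) * B ((E ^ (m - k)) v) ((R' ^ k) ((E ^ (m - k)) v))
          ≤ m.choose k * (((k : ℝ) + 1) ^ (2 * d) * ((m + 1) * M / m.choose k)) :=
            mul_le_mul_of_nonneg_left h3 hck.le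
        _ = ((k : ℝ) + 1) ^ (2 * d) * ((m + 1) * M) := by field_simp
        _ ≤ ((m : ℝ) + 1) ^ (2 * d) * ((m + 1) * M) := by
            gcongr
        _ = (m + 1) ^ (2 * d + 1) * M := by ring
    rw [hsplit, hRE2.add_pow, LinearMap.sum_apply, map_sum]
    calc ∑ k ∈ range (m + 1), B v ((R' ^ k * (-(E * E)) ^ (m - k) *
            ((m.choose k : ℕ) : Module.End ℝ V)) v)
        = ∑ k ∈ range (m + 1), (m.choose k : ℝ) * B v ((R' ^ k) (((-(E * E)) ^ (m - k)) v)) := by
          refine sum_congr rfl fun k _ => ?_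
          rw [← (Nat.cast_commute (m.choose k) (R' ^ k * (-(E * E)) ^ (m - k))).eq,
            ← nsmul_eq_mul, ← Nat.cast_smul_eq_nsmul ℝ, LinearMap.smul_apply, map_smul,
            smul_eq_mul, Module.End.mul_apply]
      _ ≤ ∑ _k ∈ range (m + 1), (m + 1) ^ (2 * d + 1) * M :=
          sum_le_sum fun k hk => key k (by simpa [Nat.lt_succ_iff] using hk)
      _ = (m + 1) ^ (2 * (d + 1)) * M := by
          rw [sum_const, card_range, nsmul_eq_mul]; push_cast; ring

end

end ModA

open ModA

theorem stmtA.{u} : StmtA.{u} := by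
  intro V _ _ B hsym hpos d D hcomm hskew n hn v C hgrow
  have hcomm' : ∀ i j, Commute (D i) (D j) := hcomm
  set R : Module.End ℝ V := -∑ i, D i * D i with hR
  set b : ℕ → ℝ := fun m => B v ((R ^ m) v) with hb
  have hRsym : ∀ u w, B (R u) w = B u (R w) := by
    intro u w
    rw [hR]
    simp only [LinearMap.neg_apply, LinearMap.sum_apply, map_neg, map_sum, Module.End.mul_apply]
    congr 1
    refine sum_congr rfl fun i _ => ?_
    rw [hskew i, hskew i, neg_neg]
  have hRpow : ∀ (m : ℕ) u w, B ((R ^ m) u) w = B u ((R ^ m) w) := by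
    intro m
    induction m with
    | zero => intro u w; simp
    | succ m ih =>
      intro u w
      have e1 : (R ^ (m + 1)) u = (R ^ m) (R u) := by rw [pow_succ, Module.End.mul_apply]
      have e2 : (R ^ (m + 1)) w = R ((R ^ m) w) := by rw [pow_succ', Module.End.mul_apply]
      rw [e1, e2, ih, hRsym]
  have hcs : ∀ u w, (B u w) ^ 2 ≤ B u u * B w w := by
    intro u w
    have h1 : ∀ t : ℝ, 0 ≤ B u u * (t * t) + (2 * B u w) * t + B w w := by
      intro t
      have := hpos (t • u + w)
      simp only [map_add, map_smul, LinearMap.add_apply, LinearMap.smul_apply, smul_eq_mul] at this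
      rw [hsym w u] at this
      nlinarith [this]
    have h2 := discrim_le_zero h1
    rw [discrim] at h2
    nlinarith [h2]
  have hb0 : 0 ≤ b 0 := by simpa [hb] using hpos v
  have hlog : ∀ m, b m ^ 2 ≤ b 0 * b (2 * m) := by
    intro m
    have := hcs v ((R ^ m) v)
    rw [hRpow, ← Module.End.mul_apply, ← pow_add, ← two_mul] at this
    simpa [hb] using this
  have hbig : ∀ m : ℕ, b m ≤ (m + 1) ^ (2 * d) * (C * n ^ (2 * m)) := fun m =>
    moments B hpos d D hcomm' hskew m v _ (fun w hw => hgrow w hw m)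
  have hb1 : b 1 = ∑ i, B (D i v) (D i v) := by
    simp only [hb, hR, pow_one, LinearMap.neg_apply, LinearMap.sum_apply, map_neg, map_sum,
      Module.End.mul_apply]
    rw [← sum_neg_distrib]
    refine sum_congr rfl fun i _ => ?_
    rw [hskew i]
  have hb1' : 0 ≤ b 1 := by
    rw [hb1]; exact sum_nonneg fun i _ => hpos _
  have hit : ∀ k : ℕ, b 0 * b 1 ^ (2 ^ k) ≤ b 0 ^ (2 ^ k) * b (2 ^ k) := by
    intro k
    induction k with
    | zero => simp
    | succ k ih =>
      rcases eq_or_lt_of_le hb0 with h0 | h0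
      · rw [← h0]; simp
      · have h3 : (b 0 * b 1 ^ (2 ^ k)) ^ 2 ≤ (b 0 ^ (2 ^ k) * b (2 ^ k)) ^ 2 :=
          pow_le_pow_left₀ (by positivity) ih 2
        have h4 := hlog (2 ^ k)
        rw [← pow_succ' 2 k] at h4
        have h5 : (b 0 ^ (2 ^ k) * b (2 ^ k)) ^ 2 ≤ (b 0 ^ (2 ^ k)) ^ 2 * (b 0 * b (2 ^ (k + 1))) := by
          rw [mul_pow]; gcongr
        have h6 : b 0 * (b 0 * b 1 ^ (2 ^ (k + 1))) ≤ b 0 * (b 0 ^ (2 ^ (k + 1)) * b (2 ^ (k + 1))) := by
          calc b 0 * (b 0 * b 1 ^ (2 ^ (k + 1))) = (b 0 * b 1 ^ (2 ^ k)) ^ 2 := by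
                rw [pow_succ 2 k, pow_mul]; ring
            _ ≤ _ := h3
            _ ≤ _ := h5
            _ = b 0 * (b 0 ^ (2 ^ (k + 1)) * b (2 ^ (k + 1))) := by
                rw [pow_succ 2 k, pow_mul (b 0)]; ring
        exact le_of_mul_le_mul_left h6 h0
  rw [← hb1]
  have hgoal : b 1 ≤ n ^ 2 * b 0 := by
    by_contra hcon
    push Not at hcon
    have hpos1 : 0 < b 1 := lt_of_le_of_lt (by positivity) hcon
    -- `b 0 > 0`
    have hb0' : 0 < b 0 := by
      rcases eq_or_lt_of_le hb0 with h0 | h0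
      · exfalso
        have := hlog 1
        rw [← h0, zero_mul] at this
        nlinarith
      · exact h0
    set r := b 0 * n ^ 2 / b 1 with hr
    have hr0 : 0 ≤ r := by positivity
    have hr1 : r < 1 := by rw [hr, div_lt_one hpos1]; linarith
    have hineq : ∀ k : ℕ, b 0 ≤ C * (((2 : ℝ) ^ k + 1) ^ (2 * d) * r ^ (2 ^ k)) := by
      intro k
      have h7 := hit k
      have h8 := hbig (2 ^ k)
      have h9 : b 0 * b 1 ^ (2 ^ k) ≤
          b 0 ^ (2 ^ k) * ((((2 ^ k : ℕ) : ℝ) + 1) ^ (2 * d) * (C * n ^ (2 * 2 ^ k))) :=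
        h7.trans (mul_le_mul_of_nonneg_left h8 (by positivity))
      have h10 : b 0 ≤ (b 0 ^ (2 ^ k) * ((((2 ^ k : ℕ) : ℝ) + 1) ^ (2 * d) * (C * n ^ (2 * 2 ^ k)))) /
          b 1 ^ (2 ^ k) := by
        rw [le_div_iff₀ (by positivity)]; exact h9
      refine h10.trans (le_of_eq ?_)
      rw [hr, div_pow, mul_pow, pow_mul n]
      push_cast
      ring
    have hlim : Filter.Tendsto (fun k : ℕ => C * (((2 : ℝ) ^ k + 1) ^ (2 * d) * r ^ (2 ^ k)))
        Filter.atTop (nhds (C * 0)) := by
      apply Filter.Tendsto.const_mul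
      have h11 : Filter.Tendsto (fun m : ℕ => ((m : ℝ) + 1) ^ (2 * d) * r ^ m) Filter.atTop (nhds 0) := by
        rcases eq_or_lt_of_le hr0 with h0 | h0
        · apply tendsto_const_nhds.congr'
          filter_upwards [Filter.eventually_ge_atTop 1] with m hm
          rw [← h0, zero_pow (by omega), mul_zero]
        · have h12 := tendsto_pow_const_mul_const_pow_of_lt_one (2 * d) hr0 hr1
          have h13 := (Filter.tendsto_add_atTop_iff_nat 1).2 h12
          have h14 := h13.const_mul (1 / r)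
          rw [mul_zero] at h14
          refine h14.congr fun m => ?_
          push_cast
          rw [pow_succ r m]
          field_simp
      have h15 := h11.comp (tendsto_pow_atTop_atTop_of_one_lt (r := 2) (by norm_num : 1 < 2))
      refine h15.congr fun k => ?_
      simp [Function.comp]
    rw [mul_zero] at hlim
    have := ge_of_tendsto' hlim hineq
    linarith
  have e0 : b 0 = B v v := by simp [hb]
  rw [e0] at hgoal
  exact hgoal

end Pool.Agent.T6.H5.PW
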