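import Pool.Agent.T6.H5.PW.R0

/-!
Project PW (helper5): Bernstein's inequality for waves in `L^p`.
-/

set_option autoImplicit false
open MeasureTheory Filter Topology Finset
open scoped ContDiff ENNReal

namespace Pool.Agent.T6.H5.PW

open Pool.Agent.Y139.SW

noncomputable section

variable {d : ℕ} {S : Type*} [MeasurableSpace S] {P : Measure S} {τ : E d → S → S}

lemma st_eLp (hτ : ∀ x, MeasurePreserving (τ x) P P) {G : S → E d → ℝ} (h : SF τ G) (y : E d)
    (p : ℝ≥0∞) : eLpNorm (fun s => G s y) p P = eLpNorm (fun s => G s 0) p P := by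
  have e : (fun s => G s y) = (fun s => G s 0) ∘ τ y := by
    funext s
    show G s y = G (τ y s) 0
    rw [h.cov, zero_add]
  rw [e]
  exact eLpNorm_comp_measurePreserving (h.meas 0).aestronglyMeasurable (hτ y)

theorem stmtB1.{u} (hT : StmtT) (hR : StmtR.{u}) {d : ℕ} {S : Type u} [MeasurableSpace S]
    {P : Measure S} {τ : E d → S → S} [IsProbabilityMeasure P]
    (hτ : ∀ x, MeasurePreserving (τ x) P P) {G : S → E d → ℝ} (hG : Wave P τ G) (w : E d)
    (hw : ‖w‖ = 1) (p : ℝ≥0∞) (hp : 1 ≤ p) :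
    eLpNorm (fun s => dd w (G s) 0) p P ≤ eLpNorm (fun s => G s 0) p P := by
  obtain ⟨X, hX⟩ : ∃ X : ℕ → S → ℝ, X = fun K s =>
    ∑ k ∈ range K, cR k * (G s (xR k • w) - G s (-xR k • w)) := ⟨_, rfl⟩
  have W1 := Wave.dd hτ hG w
  have mX : ∀ K, Measurable (X K) := fun K => by
    rw [hX]
    refine Finset.measurable_fun_sum _ fun k _ => ?_
    exact ((hG.sf.meas _).sub (hG.sf.meas _)).const_mul _
  have iX : ∀ y : E d, Integrable (fun s => G s y ^ 2) P := fun y => by
    have h2 : SF τ (fun s y => G s y * G s y) := hG.sf.mul hG.sf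
    have := st_integrable hτ h2 y (hG.l2.congr (ae_of_all _ fun s => sq _))
    exact this.congr (ae_of_all _ fun s => (sq _).symm)
  have mt : ∀ y : E d, MemLp (fun s => G s y) 2 P := fun y =>
    (memLp_two_iff_integrable_sq (hG.sf.meas y).aestronglyMeasurable).2 (iX y)
  have l2X : ∀ K, MemLp (X K) 2 P := fun K => by
    rw [hX]
    have := memLp_finsetSum' (p := 2) (μ := P) (range K)
      (f := fun k s => cR k * (G s (xR k • w) - G s (-xR k • w)))
      fun k _ => ((mt (xR k • w)).sub (mt (-xR k • w))).const_mul (cR k)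
    refine this.ae_eq (ae_of_all _ fun s => ?_)
    simp
  have l2Y : MemLp (fun s => dd w (G s) 0) 2 P :=
    (memLp_two_iff_integrable_sq W1.m0.aestronglyMeasurable).2 W1.l2
  have conv : Tendsto (fun K => eLpNorm (X K - fun s => dd w (G s) 0) 2 P) atTop (𝓝 0) := by
    have h1 := hR hτ hG w hw
    have h2 : ∀ K, eLpNorm (X K - fun s => dd w (G s) 0) 2 P =
        ENNReal.ofReal (√(∫ s, (dd w (G s) 0 -
          ∑ k ∈ range K, cR k * (G s (xR k • w) - G s (-xR k • w))) ^ 2 ∂P)) := by
      intro K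
      have m := (l2X K).sub l2Y
      rw [eLpNorm_eq_lintegral_rpow_enorm_toReal two_ne_zero ENNReal.ofNat_ne_top]
      rw [← ENNReal.ofReal_toReal (a := _ ^ _) ?_]
      · congr 1
        rw [← ENNReal.toReal_rpow, Real.sqrt_eq_rpow]
        have e2 : (2 : ℝ≥0∞).toReal = 2 := by simp
        rw [e2]
        congr 1
        have mi : AEStronglyMeasurable (fun s => (dd w (G s) 0 -
            ∑ k ∈ range K, cR k * (G s (xR k • w) - G s (-xR k • w))) ^ 2) P :=
          ((W1.m0.sub (by
            have := mX K; rw [hX] at this; exact this)).pow_const 2).aestronglyMeasurable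
        have hi := integral_eq_lintegral_of_nonneg_ae (ae_of_all P fun s => sq_nonneg
          (dd w (G s) 0 - ∑ k ∈ range K, cR k * (G s (xR k • w) - G s (-xR k • w)))) mi
        rw [hi]
        congr 1
        refine lintegral_congr fun s => ?_
        rw [hX]
        simp only [Pi.sub_apply]
        rw [← ofReal_norm, ENNReal.ofReal_rpow_of_nonneg (norm_nonneg _) (by norm_num)]
        congr 1
        rw [Real.rpow_two, Real.norm_eq_abs, sq_abs]
        ring
      · have := m.eLpNorm_ne_top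
        rw [eLpNorm_eq_lintegral_rpow_enorm_toReal two_ne_zero ENNReal.ofNat_ne_top] at this
        exact this
    simp only [h2]
    have h3 := (h1.sqrt)
    rw [Real.sqrt_zero] at h3
    have h4 := ENNReal.tendsto_ofReal h3
    simpa using h4
  have tm := tendstoInMeasure_of_tendsto_eLpNorm two_ne_zero
    (fun K => (mX K).aestronglyMeasurable) W1.m0.aestronglyMeasurable conv
  obtain ⟨ns, hns, hae⟩ := tm.exists_seq_tendsto_ae
  refine Lp.eLpNorm_le_of_ae_tendsto (u := atTop) (f := fun i => X (ns i))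
    (Eventually.of_forall fun i => ?_) (fun i => (mX _).aestronglyMeasurable) hae
  -- the bound
  obtain ⟨K, hK⟩ : ∃ K, K = ns i := ⟨_, rfl⟩
  rw [← hK]
  have e : X K = ∑ k ∈ range K, (fun s => cR k * (G s (xR k • w) - G s (-xR k • w))) := by
    rw [hX]; funext s; simp
  rw [e]
  have mk : ∀ k, AEStronglyMeasurable (fun s => cR k * (G s (xR k • w) - G s (-xR k • w))) P :=
    fun k => (((hG.sf.meas _).sub (hG.sf.meas _)).const_mul _).aestronglyMeasurable
  refine (eLpNorm_sum_le (fun k _ => mk k) hp).trans ?_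
  have each : ∀ k, eLpNorm (fun s => cR k * (G s (xR k • w) - G s (-xR k • w))) p P ≤
      ENNReal.ofReal (2 * |cR k|) * eLpNorm (fun s => G s 0) p P := by
    intro k
    have h1 : (fun s => cR k * (G s (xR k • w) - G s (-xR k • w))) =
        cR k • ((fun s => G s (xR k • w)) - fun s => G s (-xR k • w)) := by
      funext s; simp
    rw [h1, eLpNorm_const_smul]
    have h2 := eLpNorm_sub_le (μ := P) (p := p) (hG.sf.meas (xR k • w)).aestronglyMeasurable
      (hG.sf.meas (-xR k • w)).aestronglyMeasurable hp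
    rw [st_eLp hτ hG.sf (xR k • w), st_eLp hτ hG.sf (-xR k • w)] at h2
    calc ‖cR k‖ₑ * eLpNorm ((fun s => G s (xR k • w)) - fun s => G s (-xR k • w)) p P
        ≤ ‖cR k‖ₑ * (eLpNorm (fun s => G s 0) p P + eLpNorm (fun s => G s 0) p P) := by gcongr
      _ = ENNReal.ofReal (2 * |cR k|) * eLpNorm (fun s => G s 0) p P := by
        rw [← two_mul, ← mul_assoc, ENNReal.ofReal_mul (by norm_num), Real.enorm_eq_ofReal_abs]
        congr 1
        rw [mul_comm]
        simp
  refine (Finset.sum_le_sum fun k _ => each k).trans ?_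
  rw [← Finset.sum_mul, ← ENNReal.ofReal_sum_of_nonneg fun k _ => by positivity]
  have hs : ∑ k ∈ range K, 2 * |cR k| ≤ 1 :=
    sum_le_hasSum _ (fun k _ => by positivity) hT.2
  calc ENNReal.ofReal (∑ k ∈ range K, 2 * |cR k|) * eLpNorm (fun s => G s 0) p P
      ≤ ENNReal.ofReal 1 * eLpNorm (fun s => G s 0) p P := by gcongr
    _ = _ := by simp

theorem stmtB.{u} (hT : StmtT) (hR : StmtR.{u}) : StmtB.{u} := by
  intro d S _ P τ _ hτ G hG w hw p hp
  by_cases h0 : w = 0
  · have : (fun s => dd w (G s) 0) = fun _ => (0 : ℝ) := by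
      funext s; unfold dd; rw [h0]; simp
    rw [this]
    have z : eLpNorm (fun _ : S => (0 : ℝ)) p P = 0 := eLpNorm_zero
    rw [z]
    exact zero_le
  · have hn : ‖w‖ ≠ 0 := norm_ne_zero_iff.2 h0
    obtain ⟨v, hv⟩ : ∃ v, v = ‖w‖⁻¹ • w := ⟨_, rfl⟩
    have hv1 : ‖v‖ = 1 := by
      rw [hv, norm_smul, norm_inv, norm_norm, inv_mul_cancel₀ hn]
    have hwv : w = ‖w‖ • v := by
      rw [hv, smul_smul, mul_inv_cancel₀ hn, one_smul]
    have e : (fun s => dd w (G s) 0) = ‖w‖ • fun s => dd v (G s) 0 := by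
      funext s
      show fderiv ℝ (G s) 0 w = ‖w‖ * fderiv ℝ (G s) 0 v
      conv_lhs => rw [hwv]
      rw [map_smul, smul_eq_mul]
    rw [e, eLpNorm_const_smul]
    have h1 := stmtB1 hT hR hτ hG v hv1 p hp
    calc ‖‖w‖‖ₑ * eLpNorm (fun s => dd v (G s) 0) p P
        ≤ 1 * eLpNorm (fun s => G s 0) p P := by
          gcongr
          rw [Real.enorm_eq_ofReal_abs, abs_of_nonneg (norm_nonneg _), ← ENNReal.ofReal_one]
          exact ENNReal.ofReal_le_ofReal hw
      _ = _ := one_mul _

end

end Pool.Agent.T6.H5.PW
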