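import Pool.Agent.T6.H5.PW.Defs

/-!
Project PW (helper5), MP_4fa179_mp, module C: Chebyshev algebra.
-/

set_option autoImplicit false
open MeasureTheory Filter Topology Finset
open scoped ContDiff ENNReal

namespace Pool.Agent.T6.H5.PW

open Pool.Agent.Y139.SW

namespace ModC

open Polynomial Polynomial.Chebyshev

theorem C2 : (2 : ℝ[X]) = Polynomial.C 2 := (map_ofNat Polynomial.C 2).symm

theorem U_two (m : ℕ) :
    U ℝ (2 * m) = U ℝ m ^ 2 - U ℝ (m - 1) ^ 2 ∧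
      U ℝ (2 * m + 1) = U ℝ m * (U ℝ (m + 1) - U ℝ (m - 1)) := by
  induction m with
  | zero => simp
  | succ m ih =>
    obtain ⟨ha, hb⟩ := ih
    have h1 : U ℝ ((m : ℤ) + 1) = 2 * X * U ℝ m - U ℝ (m - 1) := U_add_one ℝ m
    have h2 : U ℝ ((m : ℤ) + 2) = 2 * X * U ℝ (m + 1) - U ℝ m := U_add_two ℝ m
    have h3 : U ℝ (2 * (m : ℤ) + 2) = 2 * X * U ℝ (2 * m + 1) - U ℝ (2 * m) :=
      U_add_two ℝ (2 * m)
    have h4 : U ℝ (2 * (m : ℤ) + 3) = 2 * X * U ℝ (2 * m + 2) - U ℝ (2 * m + 1) := by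
      have := U_add_two ℝ (2 * (m : ℤ) + 1)
      rwa [show 2 * (m : ℤ) + 1 + 2 = 2 * m + 3 by ring,
        show 2 * (m : ℤ) + 1 + 1 = 2 * m + 2 by ring] at this
    have e1 : (2 * ((m + 1 : ℕ) : ℤ)) = 2 * (m : ℤ) + 2 := by push_cast; ring
    have e2 : (2 * ((m + 1 : ℕ) : ℤ)) + 1 = 2 * (m : ℤ) + 3 := by push_cast; ring
    have e3 : (((m + 1 : ℕ) : ℤ)) = (m : ℤ) + 1 := by push_cast; ring
    have e4 : (((m + 1 : ℕ) : ℤ)) - 1 = (m : ℤ) := by push_cast; ring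
    have e5 : (((m + 1 : ℕ) : ℤ)) + 1 = (m : ℤ) + 2 := by push_cast; ring
    have a' : U ℝ (2 * (m : ℤ) + 2) = U ℝ (m + 1) ^ 2 - U ℝ m ^ 2 := by
      rw [h3, ha, hb, h1]; ring
    constructor
    · rw [e1, e4, e3, a']
    · rw [e2, e5, e4, e3, h4, a', hb, h2, h1]; ring

theorem sum_U (m : ℕ) : ∑ k ∈ range m, U ℝ (2 * k) = U ℝ ((m : ℤ) - 1) ^ 2 := by
  induction m with
  | zero => simp
  | succ m ih =>
    rw [Finset.sum_range_succ, ih, (U_two m).1]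
    push_cast
    rw [add_sub_cancel_right]
    ring

/-- the primitive of `(T_m')²` -/
noncomputable def Im (m : ℕ) : ℝ[X] :=
  ∑ k ∈ range m, Polynomial.C ((m : ℝ) ^ 2 / (2 * k + 1)) * T ℝ (2 * k + 1)

theorem Im_deriv (m : ℕ) : derivative (Im m) = derivative (T ℝ m) ^ 2 := by
  have h : ∀ k : ℕ, derivative (Polynomial.C ((m : ℝ) ^ 2 / (2 * k + 1)) * T ℝ (2 * k + 1)) =
      (m : ℝ[X]) ^ 2 * U ℝ (2 * k) := by
    intro k
    rw [derivative_C_mul, T_derivative_eq_U]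
    have hk : (2 * (k : ℝ) + 1) ≠ 0 := by positivity
    have e1 : (((2 * (k : ℤ) + 1 : ℤ)) : ℝ[X]) = Polynomial.C (2 * (k : ℝ) + 1) := by
      push_cast
      rw [C2]
      simp
    rw [e1, ← mul_assoc, ← Polynomial.C_mul, div_mul_cancel₀ _ hk]
    have e2 : Polynomial.C ((m : ℝ) ^ 2) = (m : ℝ[X]) ^ 2 := by simp
    rw [e2]
    congr 2
    ring
  rw [Im, derivative_sum, Finset.sum_congr rfl fun k _ => h k, ← Finset.mul_sum, sum_U,
    T_derivative_eq_U]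
  push_cast
  ring

theorem Im_eval (m : ℕ) : (Im m).eval 0 = 0 := by
  rw [Im, eval_finsetSum]
  refine Finset.sum_eq_zero fun k _ => ?_
  rw [eval_mul, T_eval_zero_of_odd ℝ (n := 2 * (k : ℤ) + 1) ⟨k, rfl⟩, mul_zero]

theorem X_mul_T (k : ℕ) : X * T ℝ (2 * k + 1) =
    Polynomial.C (1 / 2 : ℝ) * (T ℝ (2 * (k + 1 : ℕ)) + T ℝ (2 * k)) := by
  have h := T_add_two ℝ (2 * (k : ℤ))
  have e : (2 * ((k + 1 : ℕ) : ℤ)) = 2 * (k : ℤ) + 2 := by push_cast; ring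
  rw [e, h]
  rw [C2]
  have h2 : Polynomial.C (1 / 2 : ℝ) * Polynomial.C 2 = 1 := by
    rw [← Polynomial.C_mul]; norm_num
  linear_combination (-X * T ℝ (2 * (k : ℤ) + 1)) * h2

theorem T_sq (m : ℕ) : T ℝ m ^ 2 = Polynomial.C (1 / 2 : ℝ) * (T ℝ (2 * m) + 1) := by
  have h := T_mul_T ℝ m m
  rw [sub_self, T_zero, ← two_mul] at h
  rw [← h]
  rw [C2]
  have h2 : Polynomial.C (1 / 2 : ℝ) * Polynomial.C 2 = 1 := by
    rw [← Polynomial.C_mul]; norm_num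
  linear_combination (-T ℝ m ^ 2) * h2

variable (L : ℝ[X] →ₗ[ℝ] ℝ)

theorem L_C (c : ℝ) (p : ℝ[X]) : L (Polynomial.C c * p) = c * L p := by
  rw [← smul_eq_C_mul, map_smul, smul_eq_mul]

theorem L_Im (m : ℕ) : L (X * Im m) = (m : ℝ) ^ 2 / 2 *
    ∑ k ∈ range m, (L (T ℝ (2 * (k + 1 : ℕ))) + L (T ℝ (2 * k))) / (2 * k + 1) := by
  rw [Im, Finset.mul_sum, map_sum, Finset.mul_sum]
  refine Finset.sum_congr rfl fun k _ => ?_
  rw [mul_left_comm, L_C, X_mul_T, L_C, map_add]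
  ring

theorem L_T_sq (m : ℕ) : L (T ℝ m ^ 2) = (L (T ℝ (2 * m)) + L 1) / 2 := by
  rw [T_sq, L_C, map_add]; ring

theorem two_X_pow (N : ℕ) : (2 * X : ℝ[X]) ^ N =
    ∑ i ∈ range (N + 1), (N.choose i : ℝ[X]) * T ℝ ((N : ℤ) - 2 * i) := by
  induction N with
  | zero => simp
  | succ N ih =>
    have h1 : ∀ i : ℕ, 2 * X * T ℝ ((N : ℤ) - 2 * i) =
        T ℝ (((N + 1 : ℕ) : ℤ) - 2 * i) + T ℝ (((N + 1 : ℕ) : ℤ) - 2 * (i + 1 : ℕ)) := by
      intro i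
      have := T_add_one ℝ ((N : ℤ) - 2 * i)
      have e1 : (((N + 1 : ℕ) : ℤ) - 2 * i) = (N : ℤ) - 2 * i + 1 := by push_cast; ring
      have e2 : (((N + 1 : ℕ) : ℤ) - 2 * (i + 1 : ℕ)) = (N : ℤ) - 2 * i - 1 := by
        push_cast; ring
      rw [e1, e2, this]; ring
    rw [pow_succ, ih, Finset.sum_mul]
    have h2 : ∀ i ∈ range (N + 1), (N.choose i : ℝ[X]) * T ℝ ((N : ℤ) - 2 * i) * (2 * X) =
        (N.choose i : ℝ[X]) * T ℝ (((N + 1 : ℕ) : ℤ) - 2 * i) +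
        (N.choose i : ℝ[X]) * T ℝ (((N + 1 : ℕ) : ℤ) - 2 * (i + 1 : ℕ)) := by
      intro i _
      rw [mul_assoc, mul_comm (T ℝ _) (2 * X), h1 i, mul_add]
    rw [Finset.sum_congr rfl h2, Finset.sum_add_distrib]
    rw [Finset.sum_range_succ' (fun i => ((N + 1).choose i : ℝ[X]) *
      T ℝ (((N + 1 : ℕ) : ℤ) - 2 * i)) (N + 1)]
    have h3 : ∀ i ∈ range (N + 1), ((N + 1).choose (i + 1) : ℝ[X]) *
        T ℝ (((N + 1 : ℕ) : ℤ) - 2 * (i + 1 : ℕ)) =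
        (N.choose i : ℝ[X]) * T ℝ (((N + 1 : ℕ) : ℤ) - 2 * (i + 1 : ℕ)) +
        (N.choose (i + 1) : ℝ[X]) * T ℝ (((N + 1 : ℕ) : ℤ) - 2 * (i + 1 : ℕ)) := by
      intro i _
      rw [Nat.choose_succ_succ]; push_cast; ring
    rw [Finset.sum_congr rfl h3, Finset.sum_add_distrib]
    have h4 : ∑ i ∈ range (N + 1), (N.choose i : ℝ[X]) * T ℝ (((N + 1 : ℕ) : ℤ) - 2 * i) =
        ∑ i ∈ range (N + 1), (N.choose (i + 1) : ℝ[X]) *
          T ℝ (((N + 1 : ℕ) : ℤ) - 2 * (i + 1 : ℕ)) +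
        (N.choose 0 : ℝ[X]) * T ℝ (((N + 1 : ℕ) : ℤ) - 2 * (0 : ℕ)) := by
      rw [← Finset.sum_range_succ' (fun i => (N.choose i : ℝ[X]) *
        T ℝ (((N + 1 : ℕ) : ℤ) - 2 * i)) (N + 1), Finset.sum_range_succ _ (N + 1),
        Nat.choose_succ_self]
      simp
    rw [h4]
    simp only [Nat.choose_zero_right]
    ring

/-- `4^m X^(2m) = C(2m,m) + 2 ∑_{j=1}^m C(2m,m-j) T_{2j}` -/
theorem four_X_pow (m : ℕ) : (2 * X : ℝ[X]) ^ (2 * m) =
    (m.centralBinom : ℝ[X]) + ∑ j ∈ range m, 2 * (((2 * m).choose (m - (j + 1)) : ℕ) : ℝ[X]) *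
      T ℝ (2 * (j + 1 : ℕ)) := by
  rw [two_X_pow]
  have hs : 2 * m + 1 = m + (m + 1) := by ring
  rw [hs, Finset.sum_range_add, Finset.sum_range_succ']
  have e0 : ((2 * m).choose (m + 0) : ℝ[X]) * T ℝ (((2 * m : ℕ) : ℤ) - 2 * (m + 0 : ℕ)) =
      (m.centralBinom : ℝ[X]) := by
    have : (((2 * m : ℕ) : ℤ) - 2 * (m + 0 : ℕ)) = 0 := by push_cast; ring
    rw [this, T_zero, mul_one, add_zero]
    rfl
  rw [e0]
  have e1 : ∑ i ∈ range m, ((2 * m).choose i : ℝ[X]) * T ℝ (((2 * m : ℕ) : ℤ) - 2 * i) =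
      ∑ j ∈ range m, (((2 * m).choose (m - (j + 1)) : ℕ) : ℝ[X]) * T ℝ (2 * (j + 1 : ℕ)) := by
    rw [← Finset.sum_range_reflect]
    refine Finset.sum_congr rfl fun j hj => ?_
    rw [Finset.mem_range] at hj
    have h1 : m - 1 - j = m - (j + 1) := by omega
    rw [h1]
    congr 2
    omega
  have e2 : ∑ i ∈ range m, ((2 * m).choose (m + (i + 1)) : ℝ[X]) *
      T ℝ (((2 * m : ℕ) : ℤ) - 2 * (m + (i + 1) : ℕ)) =
      ∑ j ∈ range m, (((2 * m).choose (m - (j + 1)) : ℕ) : ℝ[X]) * T ℝ (2 * (j + 1 : ℕ)) := by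
    refine Finset.sum_congr rfl fun j hj => ?_
    rw [Finset.mem_range] at hj
    have h1 : (2 * m).choose (m + (j + 1)) = (2 * m).choose (m - (j + 1)) := by
      rw [← Nat.choose_symm (by omega : m + (j + 1) ≤ 2 * m)]
      congr 1
      omega
    rw [h1]
    congr 1
    rw [← T_neg]
    congr 1
    push_cast
    ring
  rw [e1, e2, add_comm (∑ _ ∈ _, _) (m.centralBinom : ℝ[X]), ← add_assoc, add_comm _ (m.centralBinom : ℝ[X]), add_assoc, ← Finset.sum_add_distrib]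
  congr 1
  refine Finset.sum_congr rfl fun j _ => ?_
  ring

theorem L_moment (h1 : L 1 = 1) (m : ℕ) : 4 ^ m * L (X ^ (2 * m)) = (m.centralBinom : ℝ) +
    ∑ j ∈ range m, 2 * (((2 * m).choose (m - (j + 1)) : ℕ) : ℝ) * L (T ℝ (2 * (j + 1 : ℕ))) := by
  have h := congrArg L (four_X_pow m)
  have e1 : (2 * X : ℝ[X]) ^ (2 * m) = Polynomial.C (4 ^ m : ℝ) * X ^ (2 * m) := by
    rw [mul_pow, pow_mul]
    have : (2 : ℝ[X]) ^ 2 = Polynomial.C 4 := by
      rw [show (4 : ℝ) = 2 ^ 2 by norm_num, Polynomial.C_pow, C2]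
    rw [this, ← Polynomial.C_pow]
  have e2 : (m.centralBinom : ℝ[X]) = Polynomial.C (m.centralBinom : ℝ) * 1 := by simp
  rw [e1, L_C, map_add, e2, L_C, h1, mul_one, map_sum] at h
  rw [h]
  congr 1
  refine Finset.sum_congr rfl fun j _ => ?_
  have e3 : (2 : ℝ[X]) * (((2 * m).choose (m - (j + 1)) : ℕ) : ℝ[X]) =
    Polynomial.C (2 * (((2 * m).choose (m - (j + 1)) : ℕ) : ℝ)) := by
      rw [Polynomial.C_mul, C2]; simp
  rw [e3, L_C]

end ModC

open Polynomial Polynomial.Chebyshev ModC in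
theorem stmtC : StmtC := by
  intro L n h1 h2 H
  -- `t_1 = 0`
  have ht1 : L (T ℝ (2 * (1 : ℕ))) = 0 := by
    have : T ℝ (2 * ((1 : ℕ) : ℤ)) = Polynomial.C 2 * X ^ 2 - 1 := by
      rw [show (2 * ((1 : ℕ) : ℤ)) = 2 by norm_num, T_two, C2]
    rw [this, map_sub, L_C, h1, h2]; norm_num
  have ht0 : L (T ℝ (2 * (0 : ℕ))) = 1 := by simpa using h1
  have key : ∀ m : ℕ, 1 ≤ m → m ≤ n →
      ∑ k ∈ range m, (L (T ℝ (2 * (k + 1 : ℕ))) + L (T ℝ (2 * k))) / (2 * k + 1) ≤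
        L (T ℝ (2 * m)) + 1 := by
    intro m hm hmn
    have h := H m hm hmn (T ℝ m) (Im m) (by rw [natDegree_T]; simp) (Im_deriv m) (Im_eval m)
    rw [L_Im, L_T_sq, h1] at h
    have hm2 : (0 : ℝ) < (m : ℝ) ^ 2 / 2 := by positivity
    refine le_of_mul_le_mul_left ?_ hm2
    calc _ ≤ _ := h
      _ = _ := by ring
  have hT : ∀ m : ℕ, 1 ≤ m → m ≤ n → 0 ≤ L (T ℝ (2 * m)) := by
    intro m
    induction m using Nat.strong_induction_on with
    | _ m ih =>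
      intro hm hmn
      rcases Nat.lt_or_ge m 2 with h | h
      · have : m = 1 := by omega
        rw [this, ht1]
      · obtain ⟨p, rfl⟩ : ∃ p, m = p + 2 := ⟨m - 2, by omega⟩
        have hk := key (p + 2) hm hmn
        rw [Finset.sum_range_succ, Finset.sum_range_succ'] at hk
        have hz : (L (T ℝ (2 * (0 + 1 : ℕ))) + L (T ℝ (2 * (0 : ℕ)))) / (2 * (0 : ℕ) + 1) =
            (1 : ℝ) := by
          rw [ht0, show (0 + 1 : ℕ) = 1 by rfl, ht1]; simp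
        rw [hz] at hk
        have hs : 0 ≤ ∑ k ∈ range p, (L (T ℝ (2 * (k + 1 + 1 : ℕ))) +
            L (T ℝ (2 * (k + 1 : ℕ)))) / (2 * (k + 1 : ℕ) + 1) := by
          refine Finset.sum_nonneg fun k hk => ?_
          rw [Finset.mem_range] at hk
          have a1 := ih (k + 1 + 1) (by omega) (by omega) (by omega)
          have a2 := ih (k + 1) (by omega) (by omega) (by omega)
          positivity
        have a3 := ih (p + 1) (by omega) (by omega) (by omega)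
        have hp : (0 : ℝ) ≤ p := Nat.cast_nonneg p
        set t := L (T ℝ (2 * (p + 2 : ℕ))) with ht
        have h5 : (t + L (T ℝ (2 * (p + 1 : ℕ)))) / (2 * ((p + 1 : ℕ) : ℝ) + 1) ≤ t := by
          linarith
        have hpos : (0 : ℝ) < 2 * ((p + 1 : ℕ) : ℝ) + 1 := by positivity
        rw [div_le_iff₀ hpos] at h5
        have hc : ((p + 1 : ℕ) : ℝ) = (p : ℝ) + 1 := by push_cast; ring
        rw [hc] at h5
        have h6 : 0 ≤ t * (2 * ((p : ℝ) + 1)) := by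
          nlinarith
        by_contra hneg
        rw [not_le] at hneg
        nlinarith
  have hmom : ∀ m : ℕ, 1 ≤ m → m ≤ n → (m.centralBinom : ℝ) / 4 ^ m ≤ L (X ^ (2 * m)) := by
    intro m hm hmn
    have h := L_moment L h1 m
    have h4 : (0 : ℝ) < 4 ^ m := by positivity
    rw [div_le_iff₀ h4, mul_comm, h]
    have : 0 ≤ ∑ j ∈ range m, 2 * (((2 * m).choose (m - (j + 1)) : ℕ) : ℝ) *
        L (T ℝ (2 * (j + 1 : ℕ))) := by
      refine Finset.sum_nonneg fun j hj => ?_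
      rw [Finset.mem_range] at hj
      have := hT (j + 1) (by omega) (by omega)
      positivity
    linarith
  refine ⟨hT, hmom, ?_⟩
  intro m hm hmn he
  have h := L_moment L h1 m
  have h4 : (0 : ℝ) < 4 ^ m := by positivity
  rw [← he, mul_div_cancel₀ _ h4.ne'] at h
  have hsum : ∑ j ∈ range m, 2 * (((2 * m).choose (m - (j + 1)) : ℕ) : ℝ) *
        L (T ℝ (2 * (j + 1 : ℕ))) = 0 := by linarith
  rw [Finset.sum_eq_zero_iff_of_nonneg] at hsum
  · have h2' := hsum 1 (Finset.mem_range.2 (by omega))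
    have hc : (0 : ℝ) < 2 * (((2 * m).choose (m - (1 + 1)) : ℕ) : ℝ) := by
      have : 0 < (2 * m).choose (m - (1 + 1)) := Nat.choose_pos (by omega)
      positivity
    have ht2 : L (T ℝ (2 * (1 + 1 : ℕ))) = 0 := by
      rcases mul_eq_zero.1 h2' with h | h
      · exact absurd h hc.ne'
      · exact h
    have e : T ℝ (2 * (1 + 1 : ℕ)) = Polynomial.C 8 * X ^ 4 - Polynomial.C 8 * X ^ 2 + 1 := by
      have a1 := T_add_two ℝ 2
      have a2 := T_add_two ℝ 1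
      rw [show (2 : ℤ) + 2 = 4 by norm_num, show (2 : ℤ) + 1 = 3 by norm_num] at a1
      rw [show (1 : ℤ) + 2 = 3 by norm_num, show (1 : ℤ) + 1 = 2 by norm_num] at a2
      rw [show (2 * ((1 + 1 : ℕ) : ℤ)) = 4 by norm_num, a1, a2, T_two, T_one]
      have : Polynomial.C (8 : ℝ) = 8 := map_ofNat Polynomial.C 8
      rw [this]
      ring
    rw [e, map_add, map_sub, L_C, L_C, h1, h2] at ht2
    linarith
  · intro j hj
    rw [Finset.mem_range] at hj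
    have := hT (j + 1) (by omega) (by omega)
    positivity

end Pool.Agent.T6.H5.PW
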