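import Pool.Agent.T6.H5.PW.Defs

/-!
Module F of project PW: assembly for flows.
-/

set_option autoImplicit false
open MeasureTheory Filter Topology Finset
open scoped ContDiff ENNReal

namespace Pool.Agent.T6.H5.PW

open Pool.Agent.Y139.SW

universe u

noncomputable section

namespace ModF

variable {S : Type*} [MeasurableSpace S] {P : Measure S}

lemma int_pow [IsProbabilityMeasure P] {X : S → ℝ} {n : ℕ} (hX : MemLp X ((2 * n : ℕ) : ℝ≥0∞) P)
    {k : ℕ} (hk : k ≤ 2 * n) : Integrable (fun s => X s ^ k) P := by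
  rcases Nat.eq_zero_or_pos k with h0 | h0
  · subst h0; simp
  have h1 : MemLp X ((k : ℕ) : ℝ≥0∞) P := hX.mono_exponent (by exact_mod_cast hk)
  have h2 := h1.integrable_norm_pow h0.ne'
  refine h2.mono' (hX.1.pow k) (ae_of_all _ fun s => ?_)
  rw [norm_pow]

/-- the functional of the moments -/
def Lf (m : ℕ → ℝ) : Polynomial ℝ →ₗ[ℝ] ℝ := Polynomial.lsum (fun k => m k • LinearMap.id)

lemma Lf_eq [IsProbabilityMeasure P] {X : S → ℝ} {n : ℕ} (hX : MemLp X ((2 * n : ℕ) : ℝ≥0∞) P)
    {p : Polynomial ℝ} (hp : p.natDegree ≤ 2 * n) :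
    Lf (fun k => ∫ s, X s ^ k ∂P) p = ∫ s, p.eval (X s) ∂P := by
  have h1 : Lf (fun k => ∫ s, X s ^ k ∂P) p = p.sum (fun k c => (∫ s, X s ^ k ∂P) * c) := rfl
  rw [h1, Polynomial.sum_over_range' p (fun k => by simp) (2 * n + 1) (by omega)]
  have h2 : ∀ s, p.eval (X s) = ∑ k ∈ range (2 * n + 1), p.coeff k * X s ^ k := fun s =>
    Polynomial.eval_eq_sum_range' (by omega) _
  simp only [h2]
  rw [integral_finsetSum _ fun k hk => (int_pow hX (by
    have := mem_range.1 hk; omega)).const_mul _]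
  refine sum_congr rfl fun k _ => ?_
  rw [integral_const_mul, mul_comm]

end ModF

open ModF

/-- module F -/
theorem stmtF (_hV : StmtV.{u}) (hQ : StmtQ.{u}) (hC : StmtC) (hK : StmtK.{u}) (hO : StmtO) : StmtF.{u} := by
  intro d S _ P τ _ hτ G n hn hL hsig
  obtain ⟨sig, hsd⟩ : ∃ sig : ℝ, sig = ∫ s, G s 0 ^ 2 ∂P := ⟨_, rfl⟩
  rw [← hsd] at hsig
  simp only [← hsd]
  obtain ⟨a, had⟩ : ∃ a : ℝ, a = √(2 * sig) := ⟨_, rfl⟩
  rw [← had]
  have ha : 0 < a := by rw [had]; positivity
  have ha2 : a ^ 2 = 2 * sig := by rw [had]; exact Real.sq_sqrt (by positivity)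
  obtain ⟨X, hXd⟩ : ∃ X : S → ℝ, X = fun s => G s 0 / a := ⟨_, rfl⟩
  have mono : ∀ m, m ≤ n → LW P τ m G := fun m hm =>
    ⟨hL.1, hL.2.mono_exponent (by exact_mod_cast Nat.mul_le_mul_left 2 hm)⟩
  have hX : MemLp X ((2 * n : ℕ) : ℝ≥0∞) P := by
    have h1 := hL.2.const_mul (1 / a)
    have e : X = fun s => (1 / a) * G s 0 := by
      rw [hXd]; funext s; ring
    rw [e]; exact h1
  set L := Lf (fun k => ∫ s, X s ^ k ∂P) with hLd
  have hLe : ∀ p : Polynomial ℝ, p.natDegree ≤ 2 * n → L p = ∫ s, p.eval (X s) ∂P :=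
    fun p hp => Lf_eq hX hp
  have hXG : ∀ (m : ℕ) , ∫ s, X s ^ m ∂P = (∫ s, G s 0 ^ m ∂P) / a ^ m := by
    intro m
    rw [← integral_div]
    congr 1; funext s
    rw [hXd]; simp only; rw [div_pow]
  have c1 : L 1 = 1 := by
    rw [hLe 1 (by simp)]
    simp
  have c2 : L (Polynomial.X ^ 2) = 1 / 2 := by
    rw [hLe _ (by rw [Polynomial.natDegree_X_pow]; omega)]
    simp only [Polynomial.eval_pow, Polynomial.eval_X]
    rw [hXG, ← hsd, ha2]
    field_simp
  have c3 : ∀ m : ℕ, 1 ≤ m → m ≤ n → ∀ Q I : Polynomial ℝ, Q.natDegree ≤ m →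
      Polynomial.derivative I = Polynomial.derivative Q ^ 2 → I.eval 0 = 0 →
      L (Polynomial.X * I) ≤ (m : ℝ) ^ 2 * L (Q ^ 2) := by
    intro m hm hmn Q I hQm hI hI0
    -- degree of `I`
    have dI : I.natDegree + 1 ≤ 2 * m := by
      have h1 : (Polynomial.derivative I).natDegree ≤ 2 * (m - 1) := by
        rw [hI]
        refine (Polynomial.natDegree_pow_le).trans ?_
        have := Polynomial.natDegree_derivative_le Q
        have : (Polynomial.derivative Q).natDegree ≤ m - 1 := this.trans (Nat.sub_le_sub_right hQm 1)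
        exact Nat.mul_le_mul_left 2 this
      by_contra hc
      push Not at hc
      have hI' : I.natDegree ≠ 0 := by omega
      have h2 : (Polynomial.derivative I).coeff (I.natDegree - 1) ≠ 0 := by
        rw [Polynomial.coeff_derivative]
        have e : I.natDegree - 1 + 1 = I.natDegree := by omega
        rw [e]
        refine mul_ne_zero ?_ ?_
        · intro h0
          have : I = 0 := Polynomial.leadingCoeff_eq_zero.1 h0
          rw [this] at hI'
          simp at hI'
        · positivity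
      have h3 := Polynomial.le_natDegree_of_ne_zero h2
      omega
    obtain ⟨l, hl⟩ : ∃ l : Polynomial ℝ, l = Polynomial.C (1 / a) * Polynomial.X := ⟨_, rfl⟩
    have dl : l.natDegree ≤ 1 := by
      rw [hl]
      exact (Polynomial.natDegree_C_mul_le _ _).trans Polynomial.natDegree_X_le
    have el : ∀ x, l.eval x = x / a := fun x => by
      rw [hl]; simp only [Polynomial.eval_mul, Polynomial.eval_C, Polynomial.eval_X]; ring
    have dl' : Polynomial.derivative l = Polynomial.C (1 / a) := by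
      rw [hl, Polynomial.derivative_C_mul, Polynomial.derivative_X, mul_one]
    have q1 : (Q.comp l).natDegree ≤ m := by
      refine Polynomial.natDegree_comp_le.trans ?_
      calc Q.natDegree * l.natDegree ≤ m * 1 := Nat.mul_le_mul hQm dl
        _ = m := mul_one m
    have q2 : Polynomial.derivative (Polynomial.C (1 / a) * I.comp l) =
        Polynomial.derivative (Q.comp l) ^ 2 := by
      rw [Polynomial.derivative_C_mul, Polynomial.derivative_comp, Polynomial.derivative_comp, dl',
        hI, Polynomial.pow_comp]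
      ring
    have q3 : (Polynomial.C (1 / a) * I.comp l).eval 0 = 0 := by
      rw [Polynomial.eval_mul, Polynomial.eval_comp, el, zero_div, hI0, mul_zero]
    have h := hQ hτ m hm (mono m hmn) (Q.comp l) (Polynomial.C (1 / a) * I.comp l) q1 q2 q3
    have e1 : L (Polynomial.X * I) = ∫ s, G s 0 * (Polynomial.C (1 / a) * I.comp l).eval (G s 0) ∂P := by
      rw [hLe _ (by
        refine Polynomial.natDegree_mul_le.trans ?_
        have := Polynomial.natDegree_X_le (R := ℝ)
        omega)]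
      congr 1; funext s
      simp only [Polynomial.eval_mul, Polynomial.eval_comp, Polynomial.eval_C, Polynomial.eval_X, el,
        hXd]
      ring
    have e2 : L (Q ^ 2) = ∫ s, ((Q.comp l).eval (G s 0)) ^ 2 ∂P := by
      rw [hLe _ (by
        refine Polynomial.natDegree_pow_le.trans ?_
        exact Nat.mul_le_mul_left 2 (hQm.trans hmn))]
      congr 1; funext s
      simp only [Polynomial.eval_pow, Polynomial.eval_comp, el, hXd]
    rw [e1, e2]
    exact h
  obtain ⟨r1, r2, r3⟩ := hC L n c1 c2 c3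
  have LX : ∀ m, m ≤ 2 * n → L (Polynomial.X ^ m) = (∫ s, G s 0 ^ m ∂P) / a ^ m := by
    intro m hm
    rw [hLe _ (by rw [Polynomial.natDegree_X_pow]; exact hm)]
    simp only [Polynomial.eval_pow, Polynomial.eval_X]
    exact hXG m
  have key : ∀ x : ℝ, (n.centralBinom : ℝ) / 4 ^ n ≤ x / a ^ (2 * n) ↔
      (n.centralBinom : ℝ) / 2 ^ n * sig ^ n ≤ x := by
    intro x
    rw [pow_mul, ha2, mul_pow, le_div_iff₀ (by positivity)]
    have : (n.centralBinom : ℝ) / 4 ^ n * (2 ^ n * sig ^ n) =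
        (n.centralBinom : ℝ) / 2 ^ n * sig ^ n := by
      rw [show (4 : ℝ) = 2 * 2 by norm_num, mul_pow]
      field_simp
    rw [this]
  have key2 : ∀ x : ℝ, (n.centralBinom : ℝ) / 2 ^ n * sig ^ n = x →
      (n.centralBinom : ℝ) / 4 ^ n = x / a ^ (2 * n) := by
    intro x hx
    rw [pow_mul, ha2, mul_pow, eq_div_iff (by positivity), ← hx]
    rw [show (4 : ℝ) = 2 * 2 by norm_num, mul_pow]
    field_simp
  refine ⟨?_, ?_, ?_⟩
  · have h := r1 n hn le_rfl
    rw [hLe _ (by rw [Polynomial.Chebyshev.natDegree_T]; omega)] at h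
    rw [hXd] at h
    exact h
  · have h := r2 n hn le_rfl
    rw [LX _ le_rfl] at h
    exact (key _).1 h
  · intro hn2 heq
    have h := r3 n hn2 le_rfl (by
      rw [LX _ le_rfl]
      exact key2 _ heq)
    rw [LX _ (by omega)] at h
    have h4 : ∫ s, G s 0 ^ 4 ∂P = 3 / 2 * (∫ s, G s 0 ^ 2 ∂P) ^ 2 := by
      rw [← hsd]
      have e4 : a ^ 4 = (2 * sig) ^ 2 := by rw [← ha2]; ring
      rw [e4, div_eq_iff (by positivity)] at h
      rw [h]; ring
    have hk := hK hτ (mono 2 hn2) h4
    filter_upwards [hk] with s hs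
    rw [← hsd] at hs
    exact hO (G s) (hL.1.sf.smooth s) (hL.1.eq s) a ha (fun y => by rw [hs y, ha2])

end

end Pool.Agent.T6.H5.PW
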