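import Pool.Agent.T6.H5.PW.Defs

/-!
Project PW (helper5), module K (written by helper98): the equality case of fourth moments.
-/

set_option autoImplicit false
open MeasureTheory Filter Topology Finset
open scoped ContDiff ENNReal

namespace Pool.Agent.T6.H5.PW

open Pool.Agent.Y139.SW

noncomputable section

universe u

namespace ModK

variable {d : ℕ} {S : Type u} [MeasurableSpace S] {P : Measure S} {τ : E d → S → S}

lemma D_sub {f g : E d → ℝ} (hf : ContDiff ℝ ∞ f) (hg : ContDiff ℝ ∞ g) (i : Fin d) (y : E d) :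
    D i (fun w => f w - g w) y = D i f y - D i g y := by
  unfold D
  rw [fderiv_fun_sub (sdiff hf y) (sdiff hg y)]
  rfl

lemma D_add {f g : E d → ℝ} (hf : ContDiff ℝ ∞ f) (hg : ContDiff ℝ ∞ g) (i : Fin d) (y : E d) :
    D i (fun w => f w + g w) y = D i f y + D i g y := by
  unfold D
  rw [fderiv_fun_add (sdiff hf y) (sdiff hg y)]
  rfl

lemma D_cmul {f : E d → ℝ} (hf : ContDiff ℝ ∞ f) (c : ℝ) (i : Fin d) (y : E d) :
    D i (fun w => c * f w) y = c * D i f y := by
  unfold D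
  rw [fderiv_const_mul (sdiff hf y)]
  rfl

lemma D_const (c : ℝ) (i : Fin d) (y : E d) : D i (fun _ => c) y = 0 := by
  unfold D
  simp

lemma mul4 {a b : S → ℝ} (ma : Measurable a) (mb : Measurable b)
    (ia : Integrable (fun s => a s ^ 4) P) (ib : Integrable (fun s => b s ^ 4) P) :
    Integrable (fun s => (a s * b s) ^ 2) P := by
  refine Integrable.mono' (ia.add ib) ((ma.mul mb).pow_const 2).aestronglyMeasurable
    (ae_of_all _ fun s => ?_)
  show ‖(a s * b s) ^ 2‖ ≤ a s ^ 4 + b s ^ 4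
  rw [Real.norm_eq_abs, abs_of_nonneg (sq_nonneg _)]
  nlinarith [sq_nonneg (a s ^ 2 - b s ^ 2), sq_nonneg (a s ^ 2), sq_nonneg (b s ^ 2)]

lemma mem4 {a : S → ℝ} (h : MemLp a ((2 * 2 : ℕ) : ℝ≥0∞) P) : Integrable (fun s => a s ^ 4) P := by
  have := h.integrable_norm_pow (by norm_num)
  refine this.congr (ae_of_all _ fun s => ?_)
  show ‖a s‖ ^ (2 * 2) = a s ^ 4
  rw [Real.norm_eq_abs, show (2 * 2 : ℕ) = 4 from rfl]
  exact Even.pow_abs (by decide) _

end ModK

open ModK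

theorem stmtK (hV : StmtV.{u}) (hG : StmtG.{u}) (hB : StmtB.{u}) : StmtK.{u} := by
  intro d S _ P τ _ hτ G hLW hE
  obtain ⟨W, M⟩ := hLW
  obtain ⟨σ, hσ⟩ : ∃ σ : ℝ, σ = ∫ s, G s 0 ^ 2 ∂P := ⟨_, rfl⟩
  rw [← hσ] at hE ⊢
  have hw : ∀ i : Fin d, ‖(EuclideanSpace.single i (1 : ℝ) : E d)‖ ≤ 1 := by
    intro i; simp
  have h14 : (1 : ℝ≥0∞) ≤ ((2 * 2 : ℕ) : ℝ≥0∞) := by norm_num
  -- fourth moments
  have W1 := fun i => W.der hτ i
  have W2 := fun i => (W1 i).der hτ i
  have M1 : ∀ i, MemLp (fun s => D i (G s) 0) ((2 * 2 : ℕ) : ℝ≥0∞) P := by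
    intro i
    refine ⟨(W1 i).m0.aestronglyMeasurable, ?_⟩
    exact lt_of_le_of_lt (hB hτ W _ (hw i) _ h14) M.2
  have M2 : ∀ i, MemLp (fun s => D i (D i (G s)) 0) ((2 * 2 : ℕ) : ℝ≥0∞) P := by
    intro i
    refine ⟨(W2 i).m0.aestronglyMeasurable, ?_⟩
    exact lt_of_le_of_lt (hB hτ (W1 i) _ (hw i) _ h14) (M1 i).2
  have I0 := mem4 M
  have I1 := fun i => mem4 (M1 i)
  have I2 := fun i => mem4 (M2 i)
  have m0 : Measurable fun s => G s 0 := W.m0
  have m1 : ∀ i, Measurable fun s => D i (G s) 0 := fun i => (W1 i).m0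
  have m2 : ∀ i, Measurable fun s => D i (D i (G s)) 0 := fun i => (W2 i).m0
  -- members of V2
  obtain ⟨K, hK⟩ : ∃ K : S → E d → ℝ, K = fun s y => G s y * G s y - σ := ⟨_, rfl⟩
  have hone : (fun (_ : S) (_ : E d) => (1 : ℝ)) ∈ Vn P τ 2 := by
    refine Submodule.subset_span ⟨0, fun i => i.elim0, by norm_num, fun i => i.elim0, ?_⟩
    funext s y; simp
  have hsq : (fun (s : S) (y : E d) => G s y * G s y) ∈ Vn P τ 2 := by
    refine Submodule.subset_span ⟨2, fun _ => G, le_rfl, fun _ => ⟨W, M⟩, ?_⟩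
    funext s y; simp; ring
  have hKV : K ∈ Vn P τ 2 := by
    have := (Vn P τ 2).sub_mem hsq ((Vn P τ 2).smul_mem σ hone)
    convert this using 1
    rw [hK]; funext s y
    simp
  have sfV : ∀ L ∈ Vn P τ 2, SF τ L := fun L hL => (hV hτ 2 (by norm_num) L hL).1
  have l2V : ∀ L ∈ Vn P τ 2, Integrable (fun s => L s 0 ^ 2) P :=
    fun L hL => (hV hτ 2 (by norm_num) L hL).2.1
  have DV : ∀ L ∈ Vn P τ 2, ∀ i, (fun s => D i (L s)) ∈ Vn P τ 2 :=
    fun L hL i => (hV hτ 2 (by norm_num) L hL).2.2.1 (EuclideanSpace.single i 1)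
  have prV : ∀ L ∈ Vn P τ 2, ∀ L' ∈ Vn P τ 2, Integrable (fun s => L s 0 * L' s 0) P :=
    fun L hL L' hL' => mul_l2 ((sfV L hL).meas 0) ((sfV L' hL').meas 0) (l2V L hL) (l2V L' hL')
  -- derivatives of K
  have DK : ∀ s i y, D i (K s) y = 2 * (G s y * D i (G s) y) := by
    intro s i y
    have e : K s = fun y => G s y * G s y - σ := by rw [hK]
    rw [e, D_sub ((W.sf.smooth s).mul (W.sf.smooth s)) contDiff_const, D_mul (W.sf.smooth s)
      (W.sf.smooth s), D_const]
    ring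
  have DDK : ∀ s i y, D i (D i (K s)) y =
      2 * (D i (G s) y ^ 2 + G s y * D i (D i (G s)) y) := by
    intro s i y
    have e : D i (K s) = fun y => 2 * (G s y * D i (G s) y) := funext (DK s i)
    rw [e, D_cmul ((W.sf.smooth s).mul ((W1 i).sf.smooth s)), D_mul (W.sf.smooth s)
      ((W1 i).sf.smooth s)]
    ring
  -- the identity E G^4 = 3 E G^2 |grad G|^2
  have id4 : ∫ s, G s 0 ^ 4 ∂P = 3 * ∑ i, ∫ s, (G s 0 * D i (G s) 0) ^ 2 ∂P := by
    have i1 : ∀ i, Integrable (fun s => (G s 0 * D i (G s) 0) ^ 2) P := fun i =>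
      mul4 m0 (m1 i) I0 (I1 i)
    have i2 : ∀ i, Integrable (fun s => G s 0 * G s 0 * (G s 0 * D i (D i (G s)) 0)) P := fun i =>
      mul_l2 (m0.mul m0) (m0.mul (m2 i)) (mul4 m0 m0 I0 I0) (mul4 m0 (m2 i) I0 (I2 i))
    have k : ∀ i, 3 * ∫ s, (G s 0 * D i (G s) 0) ^ 2 ∂P =
        -∫ s, G s 0 * G s 0 * (G s 0 * D i (D i (G s)) 0) ∂P := by
      intro i
      have sf : SF τ (fun s y => G s y * G s y * (G s y * D i (G s) y)) :=
        (W.sf.mul W.sf).mul (W.sf.mul (W1 i).sf)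
      have e1 : ∀ s, D i (fun y => G s y * G s y * (G s y * D i (G s) y)) 0 =
          3 * (G s 0 * D i (G s) 0) ^ 2 + G s 0 * G s 0 * (G s 0 * D i (D i (G s)) 0) := by
        intro s
        have a := W.sf.smooth s
        have b := (W1 i).sf.smooth s
        rw [D_mul (a.mul a) (a.mul b), D_mul a a, D_mul a b]
        ring
      have h := div0 hτ sf i (mul_l2 (m0.mul m0) (m0.mul (m1 i)) (mul4 m0 m0 I0 I0)
        (mul4 m0 (m1 i) I0 (I1 i))) (by
          simp only [e1]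
          exact ((i1 i).const_mul 3).add (i2 i))
      simp only [e1] at h
      rw [integral_add ((i1 i).const_mul 3) (i2 i), integral_const_mul] at h
      linarith
    rw [Finset.mul_sum]
    simp only [k]
    rw [Finset.sum_neg_distrib, ← integral_finsetSum _ fun i _ => i2 i, ← integral_neg]
    congr 1; funext s
    have := W.eq s 0
    unfold Lap at this
    rw [← Finset.mul_sum, ← Finset.mul_sum, this]; ring
  -- the quadratic form
  have qf : ∀ L ∈ Vn P τ 2, ∑ i, ∫ s, D i (L s) 0 ^ 2 ∂P ≤ 4 * ∫ s, L s 0 ^ 2 ∂P := by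
    intro L hL
    have := hG hτ 2 (by norm_num) L hL
    norm_num at this
    exact this
  have i4 : Integrable (fun s => G s 0 ^ 4) P := I0
  have qK : ∑ i, ∫ s, D i (K s) 0 ^ 2 ∂P = 4 * ∫ s, K s 0 ^ 2 ∂P := by
    have e1 : ∀ i, ∫ s, D i (K s) 0 ^ 2 ∂P = 4 * ∫ s, (G s 0 * D i (G s) 0) ^ 2 ∂P := by
      intro i
      rw [← integral_const_mul]
      congr 1; funext s
      rw [DK]; ring
    have e2 : ∫ s, K s 0 ^ 2 ∂P = (∫ s, G s 0 ^ 4 ∂P) - σ ^ 2 := by
      have : ∀ s, K s 0 ^ 2 = G s 0 ^ 4 - (2 * σ * G s 0 ^ 2 - σ ^ 2) := by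
        intro s; rw [hK]; ring
      simp only [this]
      have j1 : Integrable (fun s => 2 * σ * G s 0 ^ 2) P := W.l2.const_mul _
      have j2 : Integrable (fun s => 2 * σ * G s 0 ^ 2 - σ ^ 2) P := j1.sub (integrable_const _)
      rw [integral_sub i4 j2, integral_sub j1 (integrable_const _), integral_const_mul, ← hσ]
      simp
      ring
    rw [e2]
    simp only [e1]
    rw [← Finset.mul_sum]
    linarith
  -- polarisation
  have pol : ∀ L ∈ Vn P τ 2, 4 * ∫ s, K s 0 * L s 0 ∂P =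
      ∑ i, ∫ s, D i (K s) 0 * D i (L s) 0 ∂P := by
    intro L hL
    obtain ⟨b, hb⟩ : ∃ b : ℝ, b = 4 * ∫ s, K s 0 * L s 0 ∂P -
      ∑ i, ∫ s, D i (K s) 0 * D i (L s) 0 ∂P := ⟨_, rfl⟩
    obtain ⟨c, hc⟩ : ∃ c : ℝ, c = 4 * ∫ s, L s 0 ^ 2 ∂P - ∑ i, ∫ s, D i (L s) 0 ^ 2 ∂P :=
      ⟨_, rfl⟩
    have key : ∀ t : ℝ, 0 ≤ 2 * t * b + t ^ 2 * c := by
      intro t
      have hm : (fun s y => K s y + t * L s y) ∈ Vn P τ 2 := by
        exact (Vn P τ 2).add_mem hKV ((Vn P τ 2).smul_mem t hL)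
      have q := qf _ hm
      have e1 : ∀ i, ∫ s, D i (fun y => K s y + t * L s y) 0 ^ 2 ∂P =
          (∫ s, D i (K s) 0 ^ 2 ∂P) + (2 * t * (∫ s, D i (K s) 0 * D i (L s) 0 ∂P) +
            t ^ 2 * ∫ s, D i (L s) 0 ^ 2 ∂P) := by
        intro i
        have e : ∀ s, D i (fun y => K s y + t * L s y) 0 ^ 2 =
            D i (K s) 0 ^ 2 + (2 * t * (D i (K s) 0 * D i (L s) 0) + t ^ 2 * D i (L s) 0 ^ 2) := by
          intro s
          have a := (sfV K hKV).smooth s
          have b := (sfV L hL).smooth s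
          rw [D_add a (contDiff_const.mul b), D_cmul b]
          ring
        simp only [e]
        have j1 := l2V _ (DV K hKV i)
        have j2 := (prV _ (DV K hKV i) _ (DV L hL i)).const_mul (2 * t)
        have j3 := (l2V _ (DV L hL i)).const_mul (t ^ 2)
        have j4 : Integrable (fun s => 2 * t * (D i (K s) 0 * D i (L s) 0) +
          t ^ 2 * D i (L s) 0 ^ 2) P := j2.add j3
        rw [integral_add j1 j4, integral_add j2 j3, integral_const_mul,
          integral_const_mul]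
      have e2 : ∫ s, (K s 0 + t * L s 0) ^ 2 ∂P =
          (∫ s, K s 0 ^ 2 ∂P) + (2 * t * (∫ s, K s 0 * L s 0 ∂P) + t ^ 2 * ∫ s, L s 0 ^ 2 ∂P) := by
        have e : ∀ s, (K s 0 + t * L s 0) ^ 2 =
            K s 0 ^ 2 + (2 * t * (K s 0 * L s 0) + t ^ 2 * L s 0 ^ 2) := by
          intro s; ring
        simp only [e]
        have j1 := l2V _ hKV
        have j2 := (prV _ hKV _ hL).const_mul (2 * t)
        have j3 := (l2V _ hL).const_mul (t ^ 2)
        have j4 : Integrable (fun s => 2 * t * (K s 0 * L s 0) + t ^ 2 * L s 0 ^ 2) P :=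
          j2.add j3
        rw [integral_add j1 j4, integral_add j2 j3, integral_const_mul,
          integral_const_mul]
      simp only [e1] at q
      rw [e2, Finset.sum_add_distrib, Finset.sum_add_distrib, ← Finset.mul_sum,
        ← Finset.mul_sum, qK] at q
      rw [hb, hc]
      linarith
    have hb0 : b = 0 := by
      by_contra hne
      have hc0 : 0 ≤ c := by
        have := qf L hL
        linarith
      have h1 := key (-b / (c + 1))
      have hc1 : 0 < c + 1 := by linarith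
      have : 2 * (-b / (c + 1)) * b + (-b / (c + 1)) ^ 2 * c =
          -(b ^ 2 * (c + 2)) / (c + 1) ^ 2 := by
        field_simp; ring
      rw [this] at h1
      have h2 : 0 < b ^ 2 * (c + 2) / (c + 1) ^ 2 := by positivity
      have h3 : -(b ^ 2 * (c + 2)) / (c + 1) ^ 2 = -(b ^ 2 * (c + 2) / (c + 1) ^ 2) := by ring
      linarith
    linarith
  -- the field 4K + Lap K
  obtain ⟨U, hU⟩ : ∃ U : S → E d → ℝ, U = fun s y => 4 * K s y + ∑ i, D i (D i (K s)) y :=
    ⟨_, rfl⟩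
  have hUV : U ∈ Vn P τ 2 := by
    have h1 := (Vn P τ 2).smul_mem (4 : ℝ) hKV
    have h2 : (∑ i, fun (s : S) => D i (D i (K s))) ∈ Vn P τ 2 :=
      Submodule.sum_mem _ fun i _ => DV _ (DV K hKV i) i
    have := (Vn P τ 2).add_mem h1 h2
    convert this using 1
    rw [hU]; funext s y
    simp [Finset.sum_apply]
  have ibp' : ∀ i, ∫ s, D i (K s) 0 * D i (U s) 0 ∂P = -∫ s, D i (D i (K s)) 0 * U s 0 ∂P := by
    intro i
    have sf : SF τ (fun s y => D i (K s) y * U s y) := (sfV _ (DV K hKV i)).mul (sfV _ hUV)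
    have e1 : ∀ s, D i (fun y => D i (K s) y * U s y) 0 =
        D i (D i (K s)) 0 * U s 0 + D i (K s) 0 * D i (U s) 0 := by
      intro s
      rw [D_mul ((sfV _ (DV K hKV i)).smooth s) ((sfV _ hUV).smooth s)]
    have j1 := prV _ (DV _ (DV K hKV i) i) _ hUV
    have j2 := prV _ (DV K hKV i) _ (DV U hUV i)
    have h := div0 hτ sf i (prV _ (DV K hKV i) _ hUV) (by
      simp only [e1]
      exact j1.add j2)
    simp only [e1] at h
    rw [integral_add j1 j2] at h
    linarith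
  have z : ∫ s, U s 0 ^ 2 ∂P = 0 := by
    have h1 := pol U hUV
    simp only [ibp'] at h1
    have j1 := fun i => prV _ (DV _ (DV K hKV i) i) _ hUV
    have j0 := (prV _ hKV _ hUV).const_mul 4
    rw [Finset.sum_neg_distrib, ← integral_finsetSum _ fun i _ => j1 i, ← integral_const_mul] at h1
    have h2 : ∫ s, U s 0 ^ 2 ∂P = (∫ s, 4 * (K s 0 * U s 0) ∂P) +
        ∫ s, ∑ i, D i (D i (K s)) 0 * U s 0 ∂P := by
      rw [← integral_add j0 (integrable_finsetSum _ fun i _ => j1 i)]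
      congr 1; funext s
      rw [← Finset.sum_mul, hU]
      ring
    rw [h2, h1]; ring
  have Uval : ∀ s y, U s y = 2 * (∑ i, D i (G s) y ^ 2 + G s y ^ 2 - 2 * σ) := by
    intro s y
    have := W.eq s y
    unfold Lap at this
    rw [hU]
    simp only [DDK]
    rw [← Finset.mul_sum, Finset.sum_add_distrib, ← Finset.mul_sum, this, hK]
    ring
  have U0 : ∀ᵐ s ∂P, U s 0 = 0 := by
    have h1 := (integral_eq_zero_iff_of_nonneg (fun s => sq_nonneg (U s 0)) (l2V _ hUV)).1 z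
    filter_upwards [h1] with s hs
    have hs' : U s 0 ^ 2 = 0 := hs
    exact pow_eq_zero_iff (two_ne_zero) |>.1 hs'
  have sU := sfV U hUV
  have Uy : ∀ y, ∀ᵐ s ∂P, U s y = 0 := by
    intro y
    have h1 := (hτ y).quasiMeasurePreserving.ae U0
    filter_upwards [h1] with s hs
    rw [sU.cov, zero_add] at hs
    exact hs
  obtain ⟨D0, hD0c, hD0⟩ := TopologicalSpace.exists_countable_dense (E d)
  have hall : ∀ᵐ s ∂P, ∀ y ∈ D0, U s y = 0 := (ae_ball_iff hD0c).2 fun y _ => Uy y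
  filter_upwards [hall] with s hs y
  have hc : Continuous (U s) := (sU.smooth s).continuous
  have h0 : U s = fun _ => 0 := by
    refine Continuous.ext_on hD0 hc continuous_const ?_
    intro y hy; exact hs y hy
  have h1 : U s y = 0 := by rw [h0]
  rw [Uval] at h1
  linarith

end

end Pool.Agent.T6.H5.PW
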