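import Pool.Agent.T6.H5.PW.Defs

/-!
Project PW (helper5), module O (helper11): solutions of `Δf + f = 0` with `|∇f|² + f²` constant
are plane waves.
-/

set_option autoImplicit false
open MeasureTheory Filter Topology Finset
open scoped ContDiff ENNReal

namespace Pool.Agent.T6.H5.PW

open Pool.Agent.Y139.SW

namespace ModO

variable {d : ℕ}

theorem D_add {f g : E d → ℝ} (hf : ContDiff ℝ ∞ f) (hg : ContDiff ℝ ∞ g) (i : Fin d) (y : E d) :
    D i (fun w => f w + g w) y = D i f y + D i g y := by
  unfold D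
  rw [fderiv_fun_add (sdiff hf y) (sdiff hg y)]
  simp

theorem D_neg (f : E d → ℝ) (i : Fin d) (y : E d) :
    D i (fun w => -f w) y = -D i f y := by
  unfold D
  rw [fderiv_fun_neg]
  simp

theorem D_const (c : ℝ) (i : Fin d) (y : E d) : D i (fun _ : E d => c) y = 0 := by
  unfold D
  simp

theorem fderiv_eq_sum (f : E d → ℝ) (y v : E d) : fderiv ℝ f y v = ∑ i, v i * D i f y := by
  have h : v = ∑ i, v i • EuclideanSpace.single i (1 : ℝ) := by
    have := (EuclideanSpace.basisFun (Fin d) ℝ).sum_repr v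
    simpa using this.symm
  conv_lhs => rw [h]
  rw [map_sum]
  refine sum_congr rfl fun i _ => ?_
  rw [map_smul, smul_eq_mul]
  rfl

section

variable {f : E d → ℝ} (hf : ContDiff ℝ ∞ f) (hL : ∀ y, Lap f y = -f y) {a : ℝ} (ha : 0 < a)
  (hN : ∀ y, ∑ i, D i f y ^ 2 + f y ^ 2 = a ^ 2)

include hf hN in
theorem s1 (j : Fin d) (y : E d) : ∑ i, D i f y * D j (D i f) y = -(f y * D j f y) := by
  have e : (fun w => (∑ i, D i f w * D i f w) + f w * f w) = fun _ => a ^ 2 := by
    funext w
    rw [← hN w]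
    simp only [sq]
  have h := congrArg (fun F => D j F y) e
  simp only [D_const] at h
  have hs : ∀ i : Fin d, ContDiff ℝ ∞ (fun w => D i f w * D i f w) :=
    fun i => (D_sm hf i).mul (D_sm hf i)
  rw [D_add (ContDiff.sum fun i _ => hs i) (hf.mul hf), D_sum univ hs, D_mul hf hf] at h
  have h2 : ∀ i : Fin d, D j (fun w => D i f w * D i f w) y = 2 * (D i f y * D j (D i f) y) := by
    intro i
    rw [D_mul (D_sm hf i) (D_sm hf i)]; ring
  simp only [h2] at h
  rw [← mul_sum] at h
  linarith

include hf hL hN in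
theorem s2 (y : E d) : ∑ j, ∑ i, D j (D i f) y ^ 2 = f y ^ 2 := by
  have e : ∀ j, ∑ i, (D j (D i f) y ^ 2 + D i f y * D j (D j (D i f)) y) =
      -(D j f y ^ 2 + f y * D j (D j f) y) := by
    intro j
    have e1 : (fun w => ∑ i, D i f w * D j (D i f) w) = fun w => -(f w * D j f w) :=
      funext fun w => s1 hf hN j w
    have h := congrArg (fun F => D j F y) e1
    beta_reduce at h
    rw [D_sum univ (fun i => (D_sm hf i).mul (D_sm (D_sm hf i) j)), D_neg,
      D_mul hf (D_sm hf j)] at h
    have h2 : ∀ i : Fin d, D j (fun w => D i f w * D j (D i f) w) y =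
        D j (D i f) y ^ 2 + D i f y * D j (D j (D i f)) y := by
      intro i
      rw [D_mul (D_sm hf i) (D_sm (D_sm hf i) j)]; ring
    simp only [h2] at h
    rw [h]; ring
  have h1 : ∑ j, ∑ i, (D j (D i f) y ^ 2 + D i f y * D j (D j (D i f)) y) =
      ∑ j, -(D j f y ^ 2 + f y * D j (D j f) y) := sum_congr rfl fun j _ => e j
  simp only [sum_add_distrib] at h1
  have h2 : ∑ j, ∑ i, D i f y * D j (D j (D i f)) y = -∑ i, D i f y ^ 2 := by
    rw [sum_comm, ← sum_neg_distrib]
    refine sum_congr rfl fun i _ => ?_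
    rw [← mul_sum]
    have h3 : ∑ j, D j (D j (D i f)) y = Lap (D i f) y := rfl
    rw [h3, Lap_D hf i y]
    have h4 : Lap f = fun w => -f w := funext hL
    rw [h4, D_neg]; ring
  have h3 : ∑ j, -(D j f y ^ 2 + f y * D j (D j f) y) = -∑ i, D i f y ^ 2 + f y ^ 2 := by
    rw [sum_neg_distrib, sum_add_distrib, ← mul_sum]
    have h5 : ∑ j, D j (D j f) y = Lap f y := rfl
    rw [h5, hL]; ring
  rw [h2, h3] at h1
  linarith

include hf hL hN in
theorem s3 (i j : Fin d) (y : E d) :
    (∑ k, D k f y ^ 2) * D j (D i f) y = -(f y * D i f y * D j f y) := by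
  obtain ⟨N, hNd⟩ : ∃ N : ℝ, N = ∑ k, D k f y ^ 2 := ⟨_, rfl⟩
  rw [← hNd]
  have h0 : ∑ j, ∑ i, (N * D j (D i f) y + f y * D i f y * D j f y) ^ 2 = 0 := by
    have e1 : ∀ j i, (N * D j (D i f) y + f y * D i f y * D j f y) ^ 2 =
        N ^ 2 * D j (D i f) y ^ 2 + 2 * N * f y * D j f y * (D i f y * D j (D i f) y) +
          f y ^ 2 * D j f y ^ 2 * D i f y ^ 2 := by
      intro j i; ring
    have e2 : ∀ j, ∑ i, (N * D j (D i f) y + f y * D i f y * D j f y) ^ 2 =
        N ^ 2 * ∑ i, D j (D i f) y ^ 2 + 2 * N * f y * D j f y * (-(f y * D j f y)) +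
          f y ^ 2 * D j f y ^ 2 * N := by
      intro j
      simp only [e1, sum_add_distrib, ← mul_sum]
      rw [s1 hf hN j y, ← hNd]
    simp only [e2, sum_add_distrib, ← mul_sum]
    rw [s2 hf hL hN y]
    have e3 : ∑ j, 2 * N * f y * D j f y * (-(f y * D j f y)) = -(2 * N * f y ^ 2) * N := by
      have h7 : ∑ j, 2 * N * f y * D j f y * (-(f y * D j f y)) =
          (-(2 * N * f y ^ 2)) * ∑ j, D j f y ^ 2 := by
        rw [Finset.mul_sum]
        exact Finset.sum_congr rfl (fun j _ => by ring)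
      rw [h7, ← hNd]
    have e4 : ∑ j, f y ^ 2 * D j f y ^ 2 * N = f y ^ 2 * N * N := by
      have h7 : ∑ j, f y ^ 2 * D j f y ^ 2 * N = (f y ^ 2 * N) * ∑ j, D j f y ^ 2 := by
        rw [Finset.mul_sum]
        exact Finset.sum_congr rfl (fun j _ => by ring)
      rw [h7, ← hNd]
    rw [e3, e4]; ring
  have h1 : ∑ i, (N * D j (D i f) y + f y * D i f y * D j f y) ^ 2 = 0 := by
    have hnn : ∀ j ∈ (univ : Finset (Fin d)),
        0 ≤ ∑ i, (N * D j (D i f) y + f y * D i f y * D j f y) ^ 2 :=
      fun j _ => sum_nonneg fun i _ => sq_nonneg _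
    exact (sum_eq_zero_iff_of_nonneg hnn).1 h0 j (mem_univ j)
  have h2 := (sum_eq_zero_iff_of_nonneg (fun i _ => sq_nonneg
      (N * D j (D i f) y + f y * D i f y * D j f y))).1 h1 i (mem_univ i)
  have h3 := pow_eq_zero_iff (two_ne_zero) |>.1 h2
  linarith

include hf hL ha hN in
/-- the set of the points with nonzero gradient is dense -/
theorem dens {q : E d → ℝ} (hq : Continuous q) (h : ∀ y, (∑ k, D k f y ^ 2) * q y = 0) (y : E d) :
    q y = 0 := by
  by_contra hqy
  have h1 : ∀ᶠ z in 𝓝 y, q z ≠ 0 := hq.continuousAt.eventually_ne hqy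
  have h2 : ∀ᶠ z in 𝓝 y, ∀ k, D k f z = 0 := by
    filter_upwards [h1] with z hz k
    have h3 : ∑ k, D k f z ^ 2 = 0 := by
      rcases mul_eq_zero.1 (h z) with h4 | h4
      · exact h4
      · exact absurd h4 hz
    have h4 := (sum_eq_zero_iff_of_nonneg (fun k _ => sq_nonneg (D k f z))).1 h3 k (mem_univ k)
    exact pow_eq_zero_iff (two_ne_zero) |>.1 h4
  have h3 : Lap f y = 0 := by
    unfold Lap
    refine sum_eq_zero fun i _ => ?_
    have h4 : D i f =ᶠ[𝓝 y] fun _ => (0 : ℝ) := h2.mono fun z hz => hz i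
    have h5 : D i (D i f) y = D i (fun _ => (0 : ℝ)) y := by
      unfold D
      have := h4.fderiv_eq (𝕜 := ℝ)
      exact congrArg (fun L => L (EuclideanSpace.single i 1)) this
    rw [h5, D_const]
  have h4 : f y = 0 := by
    have := hL y
    rw [h3] at this
    linarith
  have h5 := hN y
  have h6 : ∑ k, D k f y ^ 2 = 0 := by
    refine sum_eq_zero fun k _ => ?_
    rw [h2.self_of_nhds k]; ring
  rw [h6, h4] at h5
  have : 0 < a ^ 2 := by positivity
  linarith

end

end ModO

open ModO

theorem stmtO : StmtO := by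
  intro d f hf hL a ha hN
  -- the projection
  set Pi : Fin d → Fin d → E d → ℝ := fun i j y =>
    (D i f y * D j f y - f y * D j (D i f) y) * (a ^ 2)⁻¹ with hPi
  have ha2 : (a ^ 2 : ℝ) ≠ 0 := by positivity
  have hPs : ∀ i j, ContDiff ℝ ∞ (Pi i j) := fun i j =>
    (((D_sm hf i).mul (D_sm hf j)).sub (hf.mul (D_sm (D_sm hf i) j))).mul contDiff_const
  have hNP : ∀ i j y, (∑ k, D k f y ^ 2) * Pi i j y = D i f y * D j f y := by
    intro i j y
    simp only [hPi]
    have h1 := s3 hf hL hN i j y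
    have h2 : (∑ k, D k f y ^ 2) * ((D i f y * D j f y - f y * D j (D i f) y) * (a ^ 2)⁻¹) =
        ((∑ k, D k f y ^ 2) * (D i f y * D j f y) - f y * ((∑ k, D k f y ^ 2) * D j (D i f) y)) *
          (a ^ 2)⁻¹ := by ring
    rw [h2, h1]
    have h3 : (∑ k, D k f y ^ 2) * (D i f y * D j f y) - f y * (-(f y * D i f y * D j f y)) =
        (∑ k, D k f y ^ 2 + f y ^ 2) * (D i f y * D j f y) := by ring
    rw [h3, hN y]
    field_simp
  have hNs : ContDiff ℝ ∞ (fun y => ∑ k, D k f y ^ 2) :=
    ContDiff.sum fun k _ => (D_sm hf k).pow 2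
  have hDN : ∀ k y, D k (fun w => ∑ k, D k f w ^ 2) y = -(2 * f y * D k f y) := by
    intro k y
    have e : (fun w => ∑ k, D k f w ^ 2) = fun w => a ^ 2 + -(f w * f w) := by
      funext w
      have := hN w
      have h2 : f w ^ 2 = f w * f w := sq _
      linarith
    rw [e, D_add contDiff_const (hf.mul hf).neg, D_const, D_neg, D_mul hf hf]
    ring
  -- the projection is constant
  have hDP : ∀ i j k y, D k (Pi i j) y = 0 := by
    intro i j k y
    have hc : Continuous (D k (Pi i j)) := (D_sm (hPs i j) k).continuous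
    refine dens hf hL ha hN hc (fun z => ?_) y
    have hc2 : Continuous fun z => (∑ k, D k f z ^ 2) * D k (Pi i j) z :=
      hNs.continuous.mul hc
    refine dens hf hL ha hN hc2 (fun z => ?_) z
    have e : (fun w => (∑ k, D k f w ^ 2) * Pi i j w) = fun w => D i f w * D j f w :=
      funext fun w => hNP i j w
    have h := congrArg (fun F => D k F z) e
    beta_reduce at h
    rw [D_mul hNs (hPs i j), D_mul (D_sm hf i) (D_sm hf j), hDN] at h
    have h1 := s3 hf hL hN i k z
    have h2 := s3 hf hL hN j k z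
    have h3 := hNP i j z
    set N := ∑ k, D k f z ^ 2
    calc N * (N * D k (Pi i j) z) = N * ((-(2 * f z * D k f z)) * Pi i j z +
          N * D k (Pi i j) z) + 2 * f z * D k f z * (N * Pi i j z) := by ring
      _ = N * (D k (D i f) z * D j f z + D i f z * D k (D j f) z) +
          2 * f z * D k f z * (D i f z * D j f z) := by rw [h, h3]
      _ = (N * D k (D i f) z) * D j f z + D i f z * (N * D k (D j f) z) +
          2 * f z * D k f z * (D i f z * D j f z) := by ring
      _ = 0 := by rw [h1, h2]; ring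
  have hPc : ∀ i j y z, Pi i j y = Pi i j z := by
    intro i j
    have h0 : ∀ y, fderiv ℝ (Pi i j) y = 0 := by
      intro y
      ext v
      rw [fderiv_eq_sum]
      simp [hDP]
    intro y z
    exact is_const_of_fderiv_eq_zero ((hPs i j).differentiable (by simp)) h0 y z
  have hH : ∀ i j y, D j (D i f) y = -(f y * Pi i j y) := by
    intro i j y
    have hc : Continuous fun y => D j (D i f) y + f y * Pi i j y :=
      (D_sm (D_sm hf i) j).continuous.add (hf.continuous.mul (hPs i j).continuous)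
    have := dens hf hL ha hN hc (fun z => by
      have h1 := s3 hf hL hN i j z
      have h2 := hNP i j z
      calc (∑ k, D k f z ^ 2) * (D j (D i f) z + f z * Pi i j z) =
          (∑ k, D k f z ^ 2) * D j (D i f) z + f z * ((∑ k, D k f z ^ 2) * Pi i j z) := by ring
        _ = 0 := by rw [h1, h2]; ring) y
    beta_reduce at this
    linarith
  -- a point with nonzero gradient
  obtain ⟨y0, hy0⟩ : ∃ y0, ∑ k, D k f y0 ^ 2 ≠ 0 := by
    by_contra hcon
    push Not at hcon
    have := dens hf hL ha hN (q := fun _ => (1 : ℝ)) continuous_const (fun y => by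
      rw [hcon y, zero_mul]) 0
    simp at this
  set N0 := ∑ k, D k f y0 ^ 2 with hN0
  have hN0p : 0 < N0 := lt_of_le_of_ne (sum_nonneg fun k _ => sq_nonneg _) (Ne.symm hy0)
  set s : ℝ := √N0 with hs
  have hs0 : 0 < s := Real.sqrt_pos.2 hN0p
  have hs2 : s ^ 2 = N0 := Real.sq_sqrt hN0p.le
  set e : E d := WithLp.toLp 2 (fun i => D i f y0 / s) with he
  have hei : ∀ i, e i = D i f y0 / s := fun i => rfl
  have hP0 : ∀ i j y, Pi i j y = e i * e j := by
    intro i j y
    rw [hPc i j y y0, hei, hei]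
    have h1 := hNP i j y0
    rw [← hN0, ← hs2] at h1
    field_simp
    linarith
  have hen : ‖e‖ = 1 := by
    rw [EuclideanSpace.norm_eq]
    have : ∑ i, ‖e i‖ ^ 2 = 1 := by
      simp only [Real.norm_eq_abs, sq_abs, hei, div_pow]
      rw [← sum_div, ← hN0, hs2]
      exact div_self hN0p.ne'
    rw [this, Real.sqrt_one]
  -- along lines
  have key : ∀ y, f y = f y0 * Real.cos (inner ℝ e (y - y0)) +
      s * Real.sin (inner ℝ e (y - y0)) := by
    intro y
    set v : E d := y - y0 with hv
    set c : ℝ := inner ℝ e v with hc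
    have hcs : c = ∑ i, v i * e i := by
      rw [hc, PiLp.inner_apply]
      refine sum_congr rfl fun i _ => ?_
      simp
    have hline : ∀ t : ℝ, HasDerivAt (fun t : ℝ => y0 + t • v) v t := by
      intro t
      have := ((hasDerivAt_id t).smul_const v).const_add y0
      simpa using this
    have hder : ∀ {F : E d → ℝ}, ContDiff ℝ ∞ F → ∀ t : ℝ,
        HasDerivAt (fun t : ℝ => F (y0 + t • v)) (∑ i, v i * D i F (y0 + t • v)) t := by
      intro F hF t
      rw [← fderiv_eq_sum]
      exact (sdiff hF (y0 + t • v)).hasFDerivAt.comp_hasDerivAt t (hline t)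
    set h : ℝ → ℝ := fun t => f (y0 + t • v) with hh
    set h1 : ℝ → ℝ := fun t => ∑ i, v i * D i f (y0 + t • v) with hh1
    have d1 : ∀ t, HasDerivAt h (h1 t) t := fun t => hder hf t
    have d2 : ∀ t, HasDerivAt h1 (-(c ^ 2 * h t)) t := by
      intro t
      have := HasDerivAt.fun_sum (u := univ) (A := fun i t => v i * D i f (y0 + t • v))
        (A' := fun i => v i * ∑ j, v j * D j (D i f) (y0 + t • v)) (x := t)
        (fun i _ => (hder (D_sm hf i) t).const_mul (v i))
      refine this.congr_deriv ?_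
      simp only [hH, hP0]
      rw [hcs, sq, sum_mul_sum, sum_mul, ← sum_neg_distrib]
      refine sum_congr rfl fun i _ => ?_
      rw [sum_mul, ← sum_neg_distrib, mul_sum]
      refine sum_congr rfl fun j _ => ?_
      ring
    set k : ℝ → ℝ := fun t => h t - (f y0 * Real.cos (c * t) + s * Real.sin (c * t)) with hk
    set k1 : ℝ → ℝ := fun t => h1 t - (-(c * f y0 * Real.sin (c * t)) +
      c * s * Real.cos (c * t)) with hk1
    have dct : ∀ t : ℝ, HasDerivAt (fun t : ℝ => c * t) c t := fun t => by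
      simpa using (hasDerivAt_id t).const_mul c
    have dk : ∀ t, HasDerivAt k (k1 t) t := by
      intro t
      have e1 := ((dct t).cos.const_mul (f y0)).add ((dct t).sin.const_mul s)
      have e2 := (d1 t).sub e1
      refine e2.congr_deriv ?_
      simp only [hk1]; ring
    have dk1 : ∀ t, HasDerivAt k1 (-(c ^ 2 * k t)) t := by
      intro t
      have e1 := (((dct t).sin.const_mul (c * f y0)).neg).add ((dct t).cos.const_mul (c * s))
      have e2 := (d2 t).sub e1
      refine e2.congr_deriv ?_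
      simp only [hk]; ring
    have hE : ∀ t, HasDerivAt (fun t => k1 t ^ 2 + c ^ 2 * k t ^ 2) 0 t := by
      intro t
      have := ((dk1 t).pow 2).add (((dk t).pow 2).const_mul (c ^ 2))
      refine this.congr_deriv ?_
      simp only [Nat.cast_ofNat]
      ring
    have hE0 : ∀ t, k1 t ^ 2 + c ^ 2 * k t ^ 2 = k1 0 ^ 2 + c ^ 2 * k 0 ^ 2 := by
      intro t
      exact is_const_of_deriv_eq_zero (fun t => (hE t).differentiableAt)
        (fun t => (hE t).deriv) t 0
    have hk00 : k 0 = 0 := by simp [hk, hh]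
    have hk10 : k1 0 = 0 := by
      have h5 : ∑ i, v i * D i f y0 = c * s := by
        rw [hcs, sum_mul]
        refine sum_congr rfl fun i _ => ?_
        rw [hei]
        field_simp
      simp [hk1, hh1, h5]
    have hk1z : ∀ t, k1 t = 0 := by
      intro t
      have h5 := hE0 t
      rw [hk00, hk10] at h5
      have h6 : k1 t ^ 2 = 0 := by
        nlinarith [sq_nonneg (k1 t), mul_nonneg (sq_nonneg c) (sq_nonneg (k t))]
      exact pow_eq_zero_iff (two_ne_zero) |>.1 h6
    have hkz : k 1 = k 0 :=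
      is_const_of_deriv_eq_zero (fun t => (dk t).differentiableAt)
        (fun t => by rw [(dk t).deriv, hk1z t]) 1 0
    rw [hk00] at hkz
    have h7 : h 1 = f y := by simp [hh, hv]
    simp only [hk, h7, mul_one] at hkz
    linarith
  -- conclusion
  have hcs : f y0 ^ 2 + s ^ 2 = a ^ 2 := by
    rw [hs2, hN0, add_comm]; exact hN y0
  set θ : ℝ := Real.arccos (f y0 / a) with hθ
  have hb1 : -1 ≤ f y0 / a := by
    rw [le_div_iff₀ ha]; nlinarith
  have hb2 : f y0 / a ≤ 1 := by
    rw [div_le_iff₀ ha]; nlinarith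
  have hcos : a * Real.cos θ = f y0 := by
    rw [hθ, Real.cos_arccos hb1 hb2]; field_simp
  have hsin : a * Real.sin θ = s := by
    rw [hθ, Real.sin_arccos]
    have h8 : 1 - (f y0 / a) ^ 2 = (s / a) ^ 2 := by
      field_simp
      linarith
    rw [h8, Real.sqrt_sq (by positivity)]
    field_simp
  refine ⟨e, -(inner ℝ e y0) - θ, hen, fun y => ?_⟩
  rw [key y, inner_sub_right]
  have h9 : (inner ℝ e y : ℝ) + (-(inner ℝ e y0) - θ) = (inner ℝ e y - inner ℝ e y0) - θ := by ring
  rw [h9, Real.cos_sub _ θ, ← hcos, ← hsin]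
  ring

end Pool.Agent.T6.H5.PW
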