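import Pool.Agent.T6.H5.PW.Defs

/-!
Project PW (helper5), MP_4fa179_mp: module Q (helper62), the inequality for polynomials of a wave.
-/

set_option autoImplicit false
open MeasureTheory Filter Topology Finset
open scoped ContDiff ENNReal

namespace Pool.Agent.T6.H5.PW

open Pool.Agent.Y139.SW

universe u

noncomputable section

namespace ModQ

lemma natDegree_prim {Q I : Polynomial ℝ} {n : ℕ} (hn : 1 ≤ n) (hQ : Q.natDegree ≤ n)
    (h : Polynomial.derivative I = Polynomial.derivative Q ^ 2) : I.natDegree + 1 ≤ 2 * n := by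
  have h1 : (Polynomial.derivative I).natDegree ≤ 2 * (n - 1) := by
    rw [h]
    refine (Polynomial.natDegree_pow_le).trans ?_
    have := Polynomial.natDegree_derivative_le Q
    have : (Polynomial.derivative Q).natDegree ≤ n - 1 := this.trans (Nat.sub_le_sub_right hQ 1)
    exact Nat.mul_le_mul_left 2 this
  by_contra hc
  push Not at hc
  have hI : I.natDegree ≠ 0 := by omega
  have h2 : (Polynomial.derivative I).coeff (I.natDegree - 1) ≠ 0 := by
    rw [Polynomial.coeff_derivative]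
    have e : I.natDegree - 1 + 1 = I.natDegree := by omega
    rw [e]
    refine mul_ne_zero ?_ ?_
    · intro h0
      have : I = 0 := Polynomial.leadingCoeff_eq_zero.1 h0
      rw [this] at hI
      simp at hI
    · positivity
  have h3 := Polynomial.le_natDegree_of_ne_zero h2
  omega

variable {d : ℕ} {S : Type*} [MeasurableSpace S] {P : Measure S} {τ : E d → S → S}

lemma int_pow_mul [IsProbabilityMeasure P] {a b : S → ℝ} {n k : ℕ} (hn : 1 ≤ n) (hk : k + 1 ≤ 2 * n)
    (ma : Measurable a) (mb : Measurable b)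
    (ha : MemLp a ((2 * n : ℕ) : ℝ≥0∞) P) (hb : MemLp b ((2 * n : ℕ) : ℝ≥0∞) P) :
    Integrable (fun s => a s ^ k * b s) P := by
  have ne : (2 * n : ℕ) ≠ 0 := by omega
  have ia : Integrable (fun s => ‖a s‖ ^ (2 * n)) P := ha.integrable_norm_pow ne
  have ib : Integrable (fun s => ‖b s‖ ^ (2 * n)) P := hb.integrable_norm_pow ne
  refine Integrable.mono' ((integrable_const (1 : ℝ)).add (ia.add ib))
    ((ma.pow_const k).mul mb).aestronglyMeasurable (ae_of_all _ fun s => ?_)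
  show ‖a s ^ k * b s‖ ≤ 1 + (‖a s‖ ^ (2 * n) + ‖b s‖ ^ (2 * n))
  rw [norm_mul, norm_pow]
  obtain ⟨x, hx⟩ : ∃ x, x = ‖a s‖ := ⟨_, rfl⟩
  obtain ⟨y, hy⟩ : ∃ y, y = ‖b s‖ := ⟨_, rfl⟩
  rw [← hx, ← hy]
  have x0 : 0 ≤ x := hx ▸ norm_nonneg _
  have y0 : 0 ≤ y := hy ▸ norm_nonneg _
  set m := max 1 (max x y) with hm
  have m1 : 1 ≤ m := le_max_left _ _
  have mx : x ≤ m := (le_max_left _ _).trans (le_max_right _ _)
  have my : y ≤ m := (le_max_right _ _).trans (le_max_right _ _)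
  have h1 : x ^ k * y ≤ m ^ (2 * n) := by
    calc x ^ k * y ≤ m ^ k * m := mul_le_mul (pow_le_pow_left₀ x0 mx k) my y0 (by positivity)
      _ = m ^ (k + 1) := (pow_succ m k).symm
      _ ≤ m ^ (2 * n) := pow_le_pow_right₀ m1 hk
  refine h1.trans ?_
  have px : 0 ≤ x ^ (2 * n) := pow_nonneg x0 _
  have py : 0 ≤ y ^ (2 * n) := pow_nonneg y0 _
  rcases max_choice 1 (max x y) with h | h
  · rw [hm, h, one_pow]; linarith
  · rcases max_choice x y with h' | h'
    · rw [hm, h, h']; linarith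
    · rw [hm, h, h']; linarith

lemma int_eval_mul [IsProbabilityMeasure P] {a b : S → ℝ} {n : ℕ} (hn : 1 ≤ n) {p : Polynomial ℝ}
    (hp : p.natDegree + 1 ≤ 2 * n) (ma : Measurable a) (mb : Measurable b)
    (ha : MemLp a ((2 * n : ℕ) : ℝ≥0∞) P) (hb : MemLp b ((2 * n : ℕ) : ℝ≥0∞) P) :
    Integrable (fun s => p.eval (a s) * b s) P := by
  have e : (fun s => p.eval (a s) * b s) =
      fun s => ∑ k ∈ range (p.natDegree + 1), p.coeff k * (a s ^ k * b s) := by
    funext s
    rw [Polynomial.eval_eq_sum_range, Finset.sum_mul]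
    exact Finset.sum_congr rfl fun k _ => by ring
  rw [e]
  refine integrable_finsetSum _ fun k hk => ?_
  have hk' := Finset.mem_range.1 hk
  exact (int_pow_mul hn (by omega) ma mb ha hb).const_mul _

lemma eval_mem_Vn {G : S → E d → ℝ} {n : ℕ} (hG : LW P τ n G) {Q : Polynomial ℝ}
    (hQ : Q.natDegree ≤ n) : (fun s y => Q.eval (G s y)) ∈ Vn P τ n := by
  have e : (fun s y => Q.eval (G s y)) =
      ∑ k ∈ range (n + 1), Q.coeff k • (fun (s : S) (y : E d) => ∏ _i : Fin k, G s y) := by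
    funext s y
    rw [Polynomial.eval_eq_sum_range' (n := n + 1) (by omega)]
    simp [Finset.sum_apply]
  rw [e]
  refine Submodule.sum_mem _ fun k hk => Submodule.smul_mem _ _ (Submodule.subset_span ?_)
  exact ⟨k, fun _ => G, by have := Finset.mem_range.1 hk; omega, fun _ => hG, rfl⟩

lemma cdeval (Q : Polynomial ℝ) : ContDiff ℝ ∞ (fun x : ℝ => Q.eval x) := by
  simpa using Polynomial.contDiff_aeval (𝕜 := ℝ) Q ∞

lemma D_eval (Q : Polynomial ℝ) {f : E d → ℝ} (hf : ContDiff ℝ ∞ f) (i : Fin d) (y : E d) :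
    D i (fun w => Q.eval (f w)) y = (Polynomial.derivative Q).eval (f y) * D i f y := by
  have hk : ContDiff ℝ ∞ (fun x : ℝ => Q.eval x) := cdeval Q
  have h := D_comp hk hf i y
  rw [h]
  congr 1
  exact Q.deriv

end ModQ

open ModQ

/-- module Q -/
theorem stmtQ (hV : StmtV.{u}) (hG : StmtG.{u}) (hB : StmtB.{u}) : StmtQ.{u} := by
  intro d S _ P τ _ hτ G n hn hL Q I hQ hI hI0
  have W := hL.1
  have sG := W.sf
  obtain ⟨K, hK⟩ : ∃ K : S → E d → ℝ, K = fun s y => Q.eval (G s y) := ⟨_, rfl⟩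
  have KV : K ∈ Vn P τ n := by rw [hK]; exact eval_mem_Vn hL hQ
  have g := hG hτ n hn K KV
  have w1 : ∀ i : Fin d, ‖(EuclideanSpace.single i (1 : ℝ) : E d)‖ ≤ 1 := fun i => by simp
  have p1 : (1 : ℝ≥0∞) ≤ ((2 * n : ℕ) : ℝ≥0∞) := by
    have : 1 ≤ 2 * n := by omega
    exact_mod_cast this
  have W1 : ∀ i, Wave P τ (fun s => D i (G s)) := fun i => W.der hτ i
  have W2 : ∀ i, Wave P τ (fun s => D i (D i (G s))) := fun i => (W1 i).der hτ i
  have l0 : MemLp (fun s => G s 0) ((2 * n : ℕ) : ℝ≥0∞) P := hL.2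
  have l1 : ∀ i, MemLp (fun s => D i (G s) 0) ((2 * n : ℕ) : ℝ≥0∞) P := fun i =>
    ⟨(W1 i).m0.aestronglyMeasurable,
      (hB hτ W (EuclideanSpace.single i 1) (w1 i) _ p1).trans_lt l0.2⟩
  have l2 : ∀ i, MemLp (fun s => D i (D i (G s)) 0) ((2 * n : ℕ) : ℝ≥0∞) P := fun i =>
    ⟨(W2 i).m0.aestronglyMeasurable,
      (hB hτ (W1 i) (EuclideanSpace.single i 1) (w1 i) _ p1).trans_lt (l1 i).2⟩
  have dI := natDegree_prim hn hQ hI
  have i1 : ∀ i, Integrable (fun s => I.eval (G s 0) * D i (G s) 0) P := fun i =>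
    int_eval_mul hn dI W.m0 (W1 i).m0 l0 (l1 i)
  have i2 : ∀ i, Integrable (fun s => I.eval (G s 0) * D i (D i (G s)) 0) P := fun i =>
    int_eval_mul hn dI W.m0 (W2 i).m0 l0 (l2 i)
  have i3 : ∀ i, Integrable (fun s => D i (K s) 0 ^ 2) P := fun i => by
    have h1 := (hV hτ n hn K KV).2.2.1 (EuclideanSpace.single i 1)
    exact (hV hτ n hn _ h1).2.1
  have DK : ∀ i s, D i (K s) 0 = (Polynomial.derivative Q).eval (G s 0) * D i (G s) 0 := by
    intro i s
    rw [hK]
    exact D_eval Q (sG.smooth s) i 0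
  have cI : ContDiff ℝ ∞ (fun x : ℝ => I.eval x) := cdeval I
  have e1 : ∀ i s, D i (fun y => I.eval (G s y) * D i (G s) y) 0 =
      D i (K s) 0 ^ 2 + I.eval (G s 0) * D i (D i (G s)) 0 := by
    intro i s
    have h0 := D_mul (f := fun y => I.eval (G s y)) (cI.comp (sG.smooth s))
      ((W1 i).sf.smooth s) i 0
    have := D_eval I (sG.smooth s) i 0
    rw [h0, this, DK, hI, Polynomial.eval_pow]
    ring
  have k : ∀ i, ∫ s, D i (K s) 0 ^ 2 ∂P = -∫ s, I.eval (G s 0) * D i (D i (G s)) 0 ∂P := by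
    intro i
    have h := div0 hτ ((SF.comp cI sG).mul (W1 i).sf) i (i1 i) (by
      simp only [e1]
      exact (i3 i).add (i2 i))
    simp only [e1] at h
    rw [integral_add (i3 i) (i2 i)] at h
    linarith
  have e2 : ∑ i, ∫ s, D i (K s) 0 ^ 2 ∂P = ∫ s, G s 0 * I.eval (G s 0) ∂P := by
    simp only [k]
    rw [Finset.sum_neg_distrib, ← integral_finsetSum _ fun i _ => i2 i, ← integral_neg]
    congr 1; funext s
    have := W.eq s 0
    unfold Lap at this
    rw [← Finset.mul_sum, this]; ring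
  rw [e2] at g
  have e3 : ∀ s, K s 0 = Q.eval (G s 0) := fun s => by rw [hK]
  simp only [e3] at g
  exact g

end

end Pool.Agent.T6.H5.PW
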