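import Pool.Agent.T6.H5.PW.Defs

/-!
Project PW (helper5), module V (helper64): the space `Vn` of sums of products of waves.
-/

set_option autoImplicit false
open MeasureTheory Filter Topology Finset
open scoped ContDiff ENNReal

namespace Pool.Agent.T6.H5.PW

open Pool.Agent.Y139.SW

noncomputable section

namespace V

universe u

variable {d : ℕ}

lemma dd_sm {f : E d → ℝ} (hf : ContDiff ℝ ∞ f) (w : E d) : ContDiff ℝ ∞ (dd w f) :=
  (hf.fderiv_right (m := ∞) le_rfl).clm_apply contDiff_const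

lemma dd_it_sm {f : E d → ℝ} (hf : ContDiff ℝ ∞ f) (w : E d) (m : ℕ) :
    ContDiff ℝ ∞ ((dd w)^[m] f) := by
  induction m generalizing f with
  | zero => exact hf
  | succ m ih => exact ih (dd_sm hf w)

lemma dd_add {f g : E d → ℝ} (hf : ContDiff ℝ ∞ f) (hg : ContDiff ℝ ∞ g) (w : E d) :
    dd w (fun y => f y + g y) = fun y => dd w f y + dd w g y := by
  funext y
  unfold dd
  rw [fderiv_fun_add (sdiff hf y) (sdiff hg y)]
  rfl

lemma dd_smul {f : E d → ℝ} (c : ℝ) (w : E d) (hf : ContDiff ℝ ∞ f) :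
    dd w (fun y => c * f y) = fun y => c * dd w f y := by
  funext y
  unfold dd
  rw [fderiv_const_mul (sdiff hf y)]
  rfl

lemma dd_sum {ι : Type*} (t : Finset ι) {f : ι → E d → ℝ} (hf : ∀ j, ContDiff ℝ ∞ (f j))
    (w : E d) : dd w (fun y => ∑ j ∈ t, f j y) = fun y => ∑ j ∈ t, dd w (f j) y := by
  funext y
  unfold dd
  rw [fderiv_fun_sum fun j _ => sdiff (hf j) y]
  simp

lemma dd_it_add {f g : E d → ℝ} (hf : ContDiff ℝ ∞ f) (hg : ContDiff ℝ ∞ g) (w : E d) (m : ℕ) :
    (dd w)^[m] (fun y => f y + g y) = fun y => (dd w)^[m] f y + (dd w)^[m] g y := by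
  induction m generalizing f g with
  | zero => rfl
  | succ m ih =>
    rw [Function.iterate_succ_apply, Function.iterate_succ_apply, Function.iterate_succ_apply,
      dd_add hf hg w]
    exact ih (dd_sm hf w) (dd_sm hg w)

lemma dd_it_smul {f : E d → ℝ} (c : ℝ) (w : E d) (hf : ContDiff ℝ ∞ f) (m : ℕ) :
    (dd w)^[m] (fun y => c * f y) = fun y => c * (dd w)^[m] f y := by
  induction m generalizing f with
  | zero => rfl
  | succ m ih =>
    rw [Function.iterate_succ_apply, Function.iterate_succ_apply, dd_smul c w hf]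
    exact ih (dd_sm hf w)

lemma dd_it_sum {ι : Type*} (t : Finset ι) {f : ι → E d → ℝ} (hf : ∀ j, ContDiff ℝ ∞ (f j))
    (w : E d) (m : ℕ) :
    (dd w)^[m] (fun y => ∑ j ∈ t, f j y) = fun y => ∑ j ∈ t, (dd w)^[m] (f j) y := by
  induction m generalizing f with
  | zero => rfl
  | succ m ih =>
    rw [Function.iterate_succ_apply, dd_sum t hf w]
    exact ih (fun j => dd_sm (hf j) w)

/-- `dd w` is a combination of the partial derivatives -/
lemma dd_eq (w : E d) (f : E d → ℝ) (y : E d) : dd w f y = ∑ i, w i * D i f y := by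
  have hw : w = ∑ i, w i • (EuclideanSpace.single i (1 : ℝ) : E d) := by
    ext j
    simp [Finset.sum_apply, Pi.single_apply]
  unfold dd D
  conv_lhs => rw [hw]
  rw [map_sum]
  refine Finset.sum_congr rfl fun i _ => ?_
  rw [map_smul]
  rfl

variable {S : Type u} [MeasurableSpace S] {P : Measure S} {τ : E d → S → S}

lemma SF_dd {G : S → E d → ℝ} (h : SF τ G) (w : E d) : SF τ (fun s => dd w (G s)) := by
  refine ⟨fun y => ?_, fun s => dd_sm (h.smooth s) w, fun x s y => ?_⟩
  · simp only [dd_eq]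
    exact Finset.measurable_fun_sum _ fun i _ => measurable_const.mul ((h.der i).meas y)
  · have e : G (τ x s) = fun y => G s (y + x) := funext fun y => h.cov x s y
    show fderiv ℝ (G (τ x s)) y _ = fderiv ℝ (G s) (y + x) _
    rw [e, fderiv_comp_add_right]

lemma SF_add {G H : S → E d → ℝ} (h : SF τ G) (h' : SF τ H) : SF τ (fun s y => G s y + H s y) :=
  ⟨fun y => (h.meas y).add (h'.meas y), fun s => (h.smooth s).add (h'.smooth s),
    fun x s y => by rw [h.cov, h'.cov]⟩

lemma SF_smul (c : ℝ) {G : S → E d → ℝ} (h : SF τ G) : SF τ (fun s y => c * G s y) :=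
  ⟨fun y => measurable_const.mul (h.meas y), fun s => contDiff_const.mul (h.smooth s),
    fun x s y => by rw [h.cov]⟩

lemma SF_prod {ι : Type*} (t : Finset ι) {G : ι → S → E d → ℝ} (h : ∀ i, SF τ (G i)) :
    SF τ (fun s y => ∏ i ∈ t, G i s y) :=
  ⟨fun y => Finset.measurable_fun_prod _ fun i _ => (h i).meas y,
    fun s => contDiff_prod fun i _ => (h i).smooth s,
    fun x s y => Finset.prod_congr rfl fun i _ => (h i).cov x s y⟩

lemma Wave_dd [IsProbabilityMeasure P] (hτ : ∀ x, MeasurePreserving (τ x) P P)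
    {G : S → E d → ℝ} (W : Wave P τ G) (w : E d) : Wave P τ (fun s => dd w (G s)) := by
  have W1 := fun i => W.der hτ i
  refine ⟨SF_dd W.sf w, fun s y => ?_, ?_⟩
  · have e : dd w (G s) = fun y => ∑ i, w i * D i (G s) y := funext (dd_eq w (G s))
    have sm : ∀ i, ContDiff ℝ ∞ (D i (G s)) := fun i => (W1 i).sf.smooth s
    have h1 : ∀ j, D j (fun y => ∑ i, w i * D i (G s) y) =
        fun y => ∑ i, w i * D j (D i (G s)) y := by
      intro j
      have := dd_sum Finset.univ (f := fun i y => w i * D i (G s) y)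
        (fun i => contDiff_const.mul (sm i)) (EuclideanSpace.single j 1)
      refine this.trans ?_
      funext y
      refine Finset.sum_congr rfl fun i _ => ?_
      exact congrFun (dd_smul (w i) (EuclideanSpace.single j 1) (sm i)) y
    have h2 : ∀ j, D j (D j (fun y => ∑ i, w i * D i (G s) y)) =
        fun y => ∑ i, w i * D j (D j (D i (G s))) y := by
      intro j
      rw [h1 j]
      have := dd_sum Finset.univ (f := fun i y => w i * D j (D i (G s)) y)
        (fun i => contDiff_const.mul (D_sm (sm i) j)) (EuclideanSpace.single j 1)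
      refine this.trans ?_
      funext y
      refine Finset.sum_congr rfl fun i _ => ?_
      exact congrFun (dd_smul (w i) (EuclideanSpace.single j 1) (D_sm (sm i) j)) y
    show Lap (dd w (G s)) y = -dd w (G s) y
    rw [e]
    unfold Lap
    simp only [h2]
    rw [Finset.sum_comm, ← Finset.sum_neg_distrib]
    refine Finset.sum_congr rfl fun i _ => ?_
    rw [← Finset.mul_sum]
    have := (W1 i).eq s y
    unfold Lap at this
    rw [this]
    ring
  · have e : (fun s => dd w (G s) 0 ^ 2) =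
        fun s => ∑ i, ∑ j, (w i * w j) * (D i (G s) 0 * D j (G s) 0) := by
      funext s
      rw [dd_eq, sq, Finset.sum_mul_sum]
      refine Finset.sum_congr rfl fun i _ => Finset.sum_congr rfl fun j _ => ?_
      ring
    rw [e]
    exact integrable_finsetSum _ fun i _ => integrable_finsetSum _ fun j _ =>
      (mul_l2 (W1 i).m0 (W1 j).m0 (W1 i).l2 (W1 j).l2).const_mul _

lemma LW_dd (hB : StmtB.{u}) [IsProbabilityMeasure P] (hτ : ∀ x, MeasurePreserving (τ x) P P) {n : ℕ}
    {G : S → E d → ℝ} (hn : 1 ≤ n) (h : LW P τ n G) (w : E d) :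
    LW P τ n (fun s => dd w (G s)) := by
  refine ⟨Wave_dd hτ h.1 w, ?_⟩
  obtain ⟨r, hr⟩ : ∃ r : ℝ, r = max 1 ‖w‖ := ⟨_, rfl⟩
  have r0 : 0 < r := by rw [hr]; positivity
  have e : (fun s => dd w (G s) 0) = r • fun s => dd (r⁻¹ • w) (G s) 0 := by
    funext s
    show fderiv ℝ (G s) 0 w = r * fderiv ℝ (G s) 0 (r⁻¹ • w)
    rw [map_smul, smul_eq_mul, mul_inv_cancel_left₀ r0.ne']
  have hw : ‖r⁻¹ • w‖ ≤ 1 := by
    rw [norm_smul, norm_inv, Real.norm_of_nonneg r0.le, inv_mul_le_iff₀ r0, mul_one, hr]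
    exact le_max_right _ _
  have hp : (1 : ℝ≥0∞) ≤ ((2 * n : ℕ) : ℝ≥0∞) := by
    exact_mod_cast (by omega : 1 ≤ 2 * n)
  rw [e]
  refine MemLp.const_smul ⟨?_, ?_⟩ r
  · exact ((SF_dd h.1.sf _).meas 0).aestronglyMeasurable
  · exact (hB hτ h.1 (r⁻¹ • w) hw _ hp).trans_lt h.2.2

/-- Hölder's inequality for a product of at most `n` functions -/
lemma holder [IsProbabilityMeasure P] {n k : ℕ} (hn : 1 ≤ n) (hk : k ≤ n) (g : Fin k → S → ℝ)
    (mg : ∀ i, Measurable (g i)) :
    eLpNorm (fun s => ∏ i, g i s) 2 P ≤ ∏ i, eLpNorm (g i) ((2 * n : ℕ) : ℝ≥0∞) P := by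
  have n0 : (0 : ℝ) < n := by exact_mod_cast hn
  have e2 : ((2 : ℝ≥0∞)).toReal = 2 := by norm_num
  have en : (((2 * n : ℕ) : ℝ≥0∞)).toReal = 2 * n := by
    rw [ENNReal.toReal_natCast]; push_cast; ring
  rw [eLpNorm_eq_lintegral_rpow_enorm_toReal (by norm_num) (by norm_num), e2]
  have h1 : ∀ i, eLpNorm (g i) ((2 * n : ℕ) : ℝ≥0∞) P =
      ((∫⁻ s, ‖g i s‖ₑ ^ (2 * n : ℝ) ∂P) ^ (1 / n : ℝ)) ^ (1 / 2 : ℝ) := by
    intro i
    rw [eLpNorm_eq_lintegral_rpow_enorm_toReal (by
      exact_mod_cast (by omega : 2 * n ≠ 0)) (ENNReal.natCast_ne_top _), en,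
      ← ENNReal.rpow_mul]
    congr 1
    field_simp
  simp only [h1]
  rw [ENNReal.prod_rpow_of_nonneg (by norm_num : (0 : ℝ) ≤ 1 / 2)]
  refine ENNReal.rpow_le_rpow ?_ (by norm_num)
  have h2 := ENNReal.lintegral_mul_prod_norm_pow_le (μ := P) Finset.univ
    (g := fun _ => (1 : ℝ≥0∞)) (f := fun i s => ‖g i s‖ₑ ^ (2 * n : ℝ))
    aemeasurable_const (fun i _ => ((mg i).enorm.pow_const _).aemeasurable)
    (1 - k / n : ℝ) (p := fun _ => (1 / n : ℝ)) (by
      simp only [Finset.sum_const, Finset.card_univ, Fintype.card_fin, nsmul_eq_mul]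
      ring) (by
      rw [sub_nonneg, div_le_one n0]; exact_mod_cast hk) (fun i _ => by positivity)
  have e3 : (∫⁻ _ : S, (1 : ℝ≥0∞) ∂P) = 1 := by simp
  rw [e3, ENNReal.one_rpow, one_mul] at h2
  refine le_trans (le_of_eq ?_) h2
  refine lintegral_congr fun s => ?_
  rw [one_mul]
  have e4 : ‖∏ i, g i s‖ₑ = ∏ i, ‖g i s‖ₑ := by
    simp only [← ofReal_norm, norm_prod]
    rw [ENNReal.ofReal_prod_of_nonneg fun i _ => norm_nonneg _]
  rw [e4, ← ENNReal.prod_rpow_of_nonneg (by norm_num : (0 : ℝ) ≤ 2)]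
  refine Finset.prod_congr rfl fun i _ => ?_
  rw [← ENNReal.rpow_mul]
  congr 1
  field_simp

/-- the derivative of a product -/
lemma dd_prod {k : ℕ} (g : Fin k → E d → ℝ) (hg : ∀ i, ContDiff ℝ ∞ (g i)) (w : E d) :
    dd w (fun y => ∏ i, g i y) =
      fun y => ∑ i, ∏ j, Function.update g i (dd w (g i)) j y := by
  funext y
  unfold dd
  rw [fderiv_finsetProd fun i _ => sdiff (hg i) y]
  rw [_root_.sum_apply]
  refine Finset.sum_congr rfl fun i _ => ?_
  rw [_root_.smul_apply, smul_eq_mul, mul_comm]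
  have e1 : ∏ j ∈ Finset.univ.erase i, g j y =
      ∏ j ∈ Finset.univ.erase i, Function.update g i (dd w (g i)) j y := by
    refine Finset.prod_congr rfl fun j hj => ?_
    rw [Function.update_of_ne (Finset.ne_of_mem_erase hj)]
  have e2 : fderiv ℝ (g i) y w = Function.update g i (dd w (g i)) i y := by
    rw [Function.update_self]; rfl
  rw [e1, e2]
  exact Finset.mul_prod_erase Finset.univ (fun j => Function.update g i (dd w (g i)) j y)
    (Finset.mem_univ i)

/-- families of waves with one of them differentiated -/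
lemma LW_update (hB : StmtB.{u}) [IsProbabilityMeasure P] (hτ : ∀ x, MeasurePreserving (τ x) P P)
    {n k : ℕ} (hn : 1 ≤ n) {G : Fin k → S → E d → ℝ} (h : ∀ i, LW P τ n (G i)) (w : E d)
    (i : Fin k) : ∀ j, LW P τ n (Function.update G i (fun s => dd w (G i s)) j) := by
  intro j
  by_cases hj : j = i
  · subst hj
    rw [Function.update_self]
    exact LW_dd hB hτ hn (h j) w
  · rw [Function.update_of_ne hj]
    exact h j

lemma dd_prod' {k : ℕ} (G : Fin k → S → E d → ℝ) (hg : ∀ i, SF τ (G i)) (w : E d) (s : S) :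
    dd w (fun y => ∏ i, G i s y) =
      fun y => ∑ i, ∏ j, Function.update G i (fun s => dd w (G i s)) j s y := by
  rw [dd_prod (fun i => G i s) (fun i => (hg i).smooth s) w]
  funext y
  refine Finset.sum_congr rfl fun i _ => Finset.prod_congr rfl fun j _ => ?_
  by_cases hj : j = i
  · subst hj
    rw [Function.update_self, Function.update_self]
  · rw [Function.update_of_ne hj, Function.update_of_ne hj]

lemma growth (hB : StmtB.{u}) [IsProbabilityMeasure P] (hτ : ∀ x, MeasurePreserving (τ x) P P)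
    {n k : ℕ} (hn : 1 ≤ n) (hk : k ≤ n) (w : E d) (hw : ‖w‖ ≤ 1) (m : ℕ) :
    ∀ G : Fin k → S → E d → ℝ, (∀ i, LW P τ n (G i)) →
    eLpNorm (fun s => (dd w)^[m] (fun y => ∏ i, G i s y) 0) 2 P ≤
      (n : ℝ≥0∞) ^ m * ∏ i, eLpNorm (fun s => G i s 0) ((2 * n : ℕ) : ℝ≥0∞) P := by
  have hp : (1 : ℝ≥0∞) ≤ ((2 * n : ℕ) : ℝ≥0∞) := by
    exact_mod_cast (by omega : 1 ≤ 2 * n)
  induction m with
  | zero =>
    intro G h
    rw [pow_zero, one_mul]
    exact holder hn hk (fun i s => G i s 0) fun i => (h i).1.m0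
  | succ m ih =>
    intro G h
    have e : (fun s => (dd w)^[m + 1] (fun y => ∏ i, G i s y) 0) =
        ∑ i, fun s => (dd w)^[m] (fun y => ∏ j,
          Function.update G i (fun s => dd w (G i s)) j s y) 0 := by
      funext s
      rw [Finset.sum_apply, Function.iterate_succ_apply,
        dd_prod' G (fun i => (h i).1.sf) w s,
        dd_it_sum Finset.univ (fun i => (SF_prod Finset.univ fun j =>
          (LW_update hB hτ hn h w i j).1.sf).smooth s) w m]
    rw [e]
    refine (eLpNorm_sum_le (fun i _ => ?_) (by norm_num)).trans ?_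
    · have sf : SF τ (fun s y => ∏ j, Function.update G i (fun s => dd w (G i s)) j s y) :=
        SF_prod Finset.univ fun j => (LW_update hB hτ hn h w i j).1.sf
      have key : ∀ (m : ℕ) (K : S → E d → ℝ), SF τ K → SF τ (fun s => (dd w)^[m] (K s)) := by
        intro m
        induction m with
        | zero => exact fun K hK => hK
        | succ m ih => exact fun K hK => ih _ (SF_dd hK w)
      exact ((key m _ sf).meas 0).aestronglyMeasurable
    · have b : ∀ i, eLpNorm (fun s => (dd w)^[m] (fun y => ∏ j,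
          Function.update G i (fun s => dd w (G i s)) j s y) 0) 2 P ≤
          (n : ℝ≥0∞) ^ m * ∏ i, eLpNorm (fun s => G i s 0) ((2 * n : ℕ) : ℝ≥0∞) P := by
        intro i
        refine (ih _ (LW_update hB hτ hn h w i)).trans ?_
        gcongr with j _
        by_cases hj : j = i
        · subst hj
          rw [Function.update_self]
          exact hB hτ (h j).1 w hw _ hp
        · rw [Function.update_of_ne hj]
      refine (Finset.sum_le_sum fun i _ => b i).trans ?_
      rw [Finset.sum_const, Finset.card_univ, Fintype.card_fin, nsmul_eq_mul, ← mul_assoc,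
        pow_succ']
      gcongr

lemma SF_it {K : S → E d → ℝ} (h : SF τ K) (w : E d) (m : ℕ) :
    SF τ (fun s => (dd w)^[m] (K s)) := by
  induction m generalizing K with
  | zero => exact h
  | succ m ih => exact ih (SF_dd h w)

/-- the predicate which is propagated through the span -/
def Good (P : Measure S) (τ : E d → S → S) (n : ℕ) (K : S → E d → ℝ) : Prop :=
  SF τ K ∧ (∀ w : E d, (fun s => dd w (K s)) ∈ Vn P τ n) ∧
    ∃ C : ℝ≥0∞, C ≠ ⊤ ∧ ∀ w : E d, ‖w‖ ≤ 1 → ∀ m : ℕ,
      eLpNorm (fun s => (dd w)^[m] (K s) 0) 2 P ≤ C * (n : ℝ≥0∞) ^ m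

lemma good (hB : StmtB.{u}) [IsProbabilityMeasure P] (hτ : ∀ x, MeasurePreserving (τ x) P P)
    {n : ℕ} (hn : 1 ≤ n) (K : S → E d → ℝ) (hK : K ∈ Vn P τ n) : Good P τ n K := by
  unfold Vn at hK
  induction hK using Submodule.span_induction with
  | mem K hK =>
    obtain ⟨k, G, hk, h, rfl⟩ := hK
    refine ⟨SF_prod Finset.univ fun i => (h i).1.sf, fun w => ?_, ?_⟩
    · have e : (fun s => dd w (fun y => ∏ i, G i s y)) =
          ∑ i, fun s y => ∏ j, Function.update G i (fun s => dd w (G i s)) j s y := by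
        funext s y
        rw [Finset.sum_apply, Finset.sum_apply, dd_prod' G (fun i => (h i).1.sf) w s]
      show (fun s => dd w (fun y => ∏ i, G i s y)) ∈ Vn P τ n
      rw [e]
      exact Submodule.sum_mem _ fun i _ => Submodule.subset_span
        ⟨k, _, hk, LW_update hB hτ hn h w i, rfl⟩
    · refine ⟨∏ i, eLpNorm (fun s => G i s 0) ((2 * n : ℕ) : ℝ≥0∞) P,
        ENNReal.prod_ne_top fun i _ => (h i).2.2.ne, fun w hw m => ?_⟩
      rw [mul_comm]
      exact growth hB hτ hn hk w hw m G h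
  | zero =>
    have z : ∀ (w : E d), dd w (fun _ : E d => (0 : ℝ)) = fun _ => 0 := by
      intro w; funext y; unfold dd; simp
    refine ⟨⟨fun y => measurable_const, fun s => contDiff_const, fun x s y => rfl⟩,
      fun w => ?_, 0, ENNReal.zero_ne_top, fun w _ m => ?_⟩
    · have : (fun s : S => dd w ((0 : S → E d → ℝ) s)) = 0 := by
        funext s; exact z w
      rw [this]
      exact Submodule.zero_mem _
    · have : (fun s : S => (dd w)^[m] ((0 : S → E d → ℝ) s) 0) = fun _ => 0 := by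
        have h : ∀ m, (dd w)^[m] (fun _ : E d => (0 : ℝ)) = fun _ => 0 := by
          intro m
          induction m with
          | zero => rfl
          | succ m ih => rw [Function.iterate_succ_apply, z w, ih]
        funext s
        exact congrFun (h m) 0
      rw [this]
      simp
  | add K L _ _ hK hL =>
    obtain ⟨sK, dK, CK, cK, bK⟩ := hK
    obtain ⟨sL, dL, CL, cL, bL⟩ := hL
    refine ⟨SF_add sK sL, fun w => ?_, CK + CL, ENNReal.add_ne_top.2 ⟨cK, cL⟩, fun w hw m => ?_⟩
    · have : (fun s => dd w ((K + L) s)) = (fun s => dd w (K s)) + fun s => dd w (L s) := by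
        funext s
        exact dd_add (sK.smooth s) (sL.smooth s) w
      rw [this]
      exact Submodule.add_mem _ (dK w) (dL w)
    · have : (fun s => (dd w)^[m] ((K + L) s) 0) =
          (fun s => (dd w)^[m] (K s) 0) + fun s => (dd w)^[m] (L s) 0 := by
        funext s
        exact congrFun (dd_it_add (sK.smooth s) (sL.smooth s) w m) 0
      rw [this, add_mul]
      refine (eLpNorm_add_le ((SF_it sK w m).meas 0).aestronglyMeasurable
        ((SF_it sL w m).meas 0).aestronglyMeasurable (by norm_num)).trans ?_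
      exact add_le_add (bK w hw m) (bL w hw m)
  | smul c K _ hK =>
    obtain ⟨sK, dK, CK, cK, bK⟩ := hK
    refine ⟨SF_smul c sK, fun w => ?_, ‖c‖ₑ * CK, ENNReal.mul_ne_top (by simp) cK,
      fun w hw m => ?_⟩
    · have : (fun s => dd w ((c • K) s)) = c • fun s => dd w (K s) := by
        funext s
        exact dd_smul c w (sK.smooth s)
      rw [this]
      exact Submodule.smul_mem _ c (dK w)
    · have : (fun s => (dd w)^[m] ((c • K) s) 0) = c • fun s => (dd w)^[m] (K s) 0 := by
        funext s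
        exact congrFun (dd_it_smul c w (sK.smooth s) m) 0
      rw [this, eLpNorm_const_smul, mul_assoc]
      gcongr
      exact bK w hw m

lemma int_sq_le {f : S → ℝ} (mf : Measurable f) {C : ℝ≥0∞} (hC : C ≠ ⊤)
    (h : eLpNorm f 2 P ≤ C) : Integrable (fun s => f s ^ 2) P ∧ ∫ s, f s ^ 2 ∂P ≤ C.toReal ^ 2 := by
  have ml : MemLp f 2 P := ⟨mf.aestronglyMeasurable, h.trans_lt hC.lt_top⟩
  refine ⟨ml.integrable_sq, ?_⟩
  have e : ∫ s, f s ^ 2 ∂P = (eLpNorm f 2 P).toReal ^ 2 := by
    rw [eLpNorm_eq_lintegral_rpow_enorm_toReal (by norm_num) (by norm_num)]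
    have e2 : ((2 : ℝ≥0∞)).toReal = 2 := by norm_num
    rw [e2, ← ENNReal.toReal_rpow, ← Real.rpow_natCast, ← Real.rpow_mul ENNReal.toReal_nonneg]
    norm_num
    rw [integral_eq_lintegral_of_nonneg_ae (ae_of_all _ fun s => sq_nonneg _)
      (mf.pow_const 2).aestronglyMeasurable]
    congr 1
    refine lintegral_congr fun s => ?_
    rw [← sq_abs, ← Real.norm_eq_abs, ENNReal.ofReal_pow (norm_nonneg _), ofReal_norm]
  rw [e]
  gcongr

end V

universe u in
theorem stmtV (hB : StmtB.{u}) : StmtV.{u} := by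
  intro d S _ P τ _ hτ n hn K hK
  obtain ⟨sK, dK, C, hC, b⟩ := V.good hB hτ hn K hK
  refine ⟨sK, ?_, dK, C.toReal ^ 2, fun w hw m => ?_⟩
  · have h := b 0 (by simp) 0
    rw [pow_zero, mul_one] at h
    exact (V.int_sq_le (sK.meas 0) hC h).1
  · have hm : C * (n : ℝ≥0∞) ^ m ≠ ⊤ :=
      ENNReal.mul_ne_top hC (ENNReal.pow_ne_top (ENNReal.natCast_ne_top n))
    have h := (V.int_sq_le ((V.SF_it sK w m).meas 0) hm (b w hw m)).2
    refine h.trans (le_of_eq ?_)
    rw [ENNReal.toReal_mul, ENNReal.toReal_pow, ENNReal.toReal_natCast]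
    ring

end

end Pool.Agent.T6.H5.PW
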