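import Pool.Agent.T6.H5.PW.Defs

/-!
Project PW (helper5): the canonical space; reduction from stationarity of the law to a measure
preserving flow (after Pool.Agent.Y139.SW.J).
-/

set_option autoImplicit false
open MeasureTheory Filter Topology Finset
open scoped ContDiff ENNReal

namespace Pool.Agent.T6.H5.PW

open Pool.Agent.Y139.SW

noncomputable section

variable (d : ℕ)

/-- the space of smooth solutions -/
abbrev Sp : Type := {f : E d → ℝ // ContDiff ℝ ∞ f ∧ ∀ y, Lap f y = -f y}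

variable {d}

lemma D_tr (f : E d → ℝ) (x : E d) (i : Fin d) :
    D i (fun y => f (y + x)) = fun y => D i f (y + x) := by
  funext y
  show fderiv ℝ (fun y => f (y + x)) y _ = fderiv ℝ f (y + x) _
  rw [fderiv_comp_add_right]

lemma Lap_tr (f : E d → ℝ) (x y : E d) : Lap (fun y => f (y + x)) y = Lap f (y + x) := by
  unfold Lap
  refine Finset.sum_congr rfl fun i _ => ?_
  rw [D_tr, D_tr]

/-- the shift -/
def sh (x : E d) (f : Sp d) : Sp d :=
  ⟨fun y => f.1 (y + x), f.2.1.comp (contDiff_id.add contDiff_const), fun y => by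
    rw [Lap_tr]; exact f.2.2 _⟩

lemma sh_me (x : E d) : Measurable (sh x) := by
  refine Measurable.subtype_mk (measurable_pi_iff.2 fun y => ?_)
  exact (measurable_pi_apply (y + x)).comp measurable_subtype_coe

variable {S : Type*} [MeasurableSpace S] {P : Measure S}

theorem fin [IsProbabilityMeasure P] {F : S → E d → ℝ} (hF : StmtF.{0})
    (mF : ∀ y, Measurable fun s => F s y)
    (sF : ∀ s, ContDiff ℝ ∞ (F s)) (eF : ∀ s y, Lap (F s) y + F s y = 0)
    (st : ∀ x : E d, P.map (fun s y => F s (y + x)) = P.map (fun s y => F s y))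
    (l2 : Integrable (fun s => F s 0 ^ 2) P) (n : ℕ) (hn : 1 ≤ n)
    (ln : Integrable (fun s => F s 0 ^ (2 * n)) P) (pos : 0 < ∫ s, F s 0 ^ 2 ∂P) :
    0 ≤ ∫ s, (Polynomial.Chebyshev.T ℝ (2 * n)).eval (F s 0 / √(2 * ∫ s, F s 0 ^ 2 ∂P)) ∂P ∧
    (n.centralBinom : ℝ) / 2 ^ n * (∫ s, F s 0 ^ 2 ∂P) ^ n ≤ ∫ s, F s 0 ^ (2 * n) ∂P ∧
    (2 ≤ n → (n.centralBinom : ℝ) / 2 ^ n * (∫ s, F s 0 ^ 2 ∂P) ^ n = ∫ s, F s 0 ^ (2 * n) ∂P →
      ∀ᵐ s ∂P, ∃ (e : E d) (θ : ℝ), ‖e‖ = 1 ∧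
        ∀ y, F s y = √(2 * ∫ s, F s 0 ^ 2 ∂P) * Real.cos (inner ℝ e y + θ)) := by
  obtain ⟨Φ, hΦ⟩ : ∃ Φ : S → Sp d, Φ = fun s => ⟨F s, sF s, fun y => by
    have := eF s y; linarith⟩ := ⟨_, rfl⟩
  have v1 : ∀ s, (Φ s).1 = F s := fun s => by rw [hΦ]
  have mΦ : Measurable Φ := by
    rw [hΦ]
    exact Measurable.subtype_mk (measurable_pi_iff.2 mF)
  have hQ : IsProbabilityMeasure (P.map Φ) := Measure.isProbabilityMeasure_map mΦ.aemeasurable
  have hτ : ∀ x : E d, MeasurePreserving (sh x) (P.map Φ) (P.map Φ) := by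
    intro x
    refine ⟨sh_me x, ?_⟩
    rw [Measure.map_map (sh_me x) mΦ]
    ext A mA
    obtain ⟨B, mB, rfl⟩ := mA
    have e1 : ((sh x ∘ Φ) ⁻¹' (Subtype.val ⁻¹' B)) = (fun s y => F s (y + x)) ⁻¹' B := by
      ext s
      show (fun y => (Φ s).1 (y + x)) ∈ B ↔ (fun y => F s (y + x)) ∈ B
      rw [v1]
    have e2 : (Φ ⁻¹' (Subtype.val ⁻¹' B)) = (fun s y => F s y) ⁻¹' B := by
      ext s
      show (Φ s).1 ∈ B ↔ (fun y => F s y) ∈ B
      rw [v1]
    have mV : MeasurableSet (Subtype.val ⁻¹' B : Set (Sp d)) := ⟨B, mB, rfl⟩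
    rw [Measure.map_apply ((sh_me x).comp mΦ) mV, Measure.map_apply mΦ mV, e1, e2,
      ← Measure.map_apply (measurable_pi_iff.2 fun y => mF (y + x)) mB,
      ← Measure.map_apply (measurable_pi_iff.2 fun y => mF y) mB, st x]
  have m0 : Measurable fun f : Sp d => f.1 0 :=
    (measurable_pi_apply 0).comp measurable_subtype_coe
  have tr : ∀ k : ℕ, Integrable (fun s => F s 0 ^ k) P →
      Integrable (fun f : Sp d => f.1 0 ^ k) (P.map Φ) := by
    intro k hk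
    refine (integrable_map_measure (m0.pow_const k).aestronglyMeasurable mΦ.aemeasurable).2 ?_
    refine hk.congr (ae_of_all _ fun s => ?_)
    show F s 0 ^ k = (Φ s).1 0 ^ k
    rw [v1]
  have W : Wave (P.map Φ) sh (fun f : Sp d => f.1) := by
    refine ⟨⟨fun y => (measurable_pi_apply y).comp measurable_subtype_coe, fun f => f.2.1,
      fun x f y => rfl⟩, fun f y => f.2.2 y, tr 2 l2⟩
  have L : LW (P.map Φ) sh n (fun f : Sp d => f.1) := by
    refine ⟨W, ?_⟩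
    have h2n : ((2 * n : ℕ) : ℝ≥0∞) ≠ 0 := by
      simp; omega
    rw [← integrable_norm_rpow_iff m0.aestronglyMeasurable h2n (ENNReal.natCast_ne_top _)]
    have := tr (2 * n) ln
    refine this.congr (ae_of_all _ fun f => ?_)
    show f.1 0 ^ (2 * n) = ‖f.1 0‖ ^ (((2 * n : ℕ) : ℝ≥0∞).toReal)
    rw [ENNReal.toReal_natCast, Real.rpow_natCast, pow_mul, pow_mul, Real.norm_eq_abs, sq_abs]
  have ei : ∀ (g : ℝ → ℝ), Measurable g →
      ∫ f, g (f.1 0) ∂(P.map Φ) = ∫ s, g (F s 0) ∂P := by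
    intro g hg
    have h := integral_map (μ := P) mΦ.aemeasurable (f := fun f : Sp d => g (f.1 0))
      (hg.comp m0).aestronglyMeasurable
    rw [h]
    simp only [v1]
  have e2 : ∫ f, (f.1 0) ^ 2 ∂(P.map Φ) = ∫ s, F s 0 ^ 2 ∂P :=
    ei (fun x => x ^ 2) (measurable_id.pow_const 2)
  have e3 : ∫ f, (f.1 0) ^ (2 * n) ∂(P.map Φ) = ∫ s, F s 0 ^ (2 * n) ∂P :=
    ei (fun x => x ^ (2 * n)) (measurable_id.pow_const _)
  have key := hF hτ n hn L (by rw [e2]; exact pos)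
  rw [e2, e3] at key
  have e4 := ei (fun x => (Polynomial.Chebyshev.T ℝ (2 * n)).eval
    (x / √(2 * ∫ s, F s 0 ^ 2 ∂P))) ((Polynomial.continuous _).measurable.comp
      (measurable_id.div_const _))
  rw [e4] at key
  obtain ⟨h1, h2, h3⟩ := key
  refine ⟨h1, h2, fun h2n heq => ?_⟩
  have h4 := ae_of_ae_map mΦ.aemeasurable (h3 h2n heq)
  filter_upwards [h4] with s hs
  obtain ⟨e, θ, he, hy⟩ := hs
  refine ⟨e, θ, he, fun y => ?_⟩
  rw [← v1 s]
  exact hy y

end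

end Pool.Agent.T6.H5.PW
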