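import Pool.Agent.T6.H5.PW.Defs

/-!
Project PW (helper5): the M. Riesz formula in a Hilbert space.
-/

set_option autoImplicit false
open MeasureTheory Filter Topology Finset
open scoped ContDiff ENNReal

namespace Pool.Agent.T6.H5.PW

noncomputable section

/-- partial sums of the exponential series -/
def EJ (J : ℕ) (z : ℂ) : ℂ := ∑ j ∈ range J, z ^ j / (j.factorial : ℂ)

/-- tails of the exponential series -/
def rJ (J : ℕ) (r : ℝ) : ℝ := Real.exp r - ∑ j ∈ range J, r ^ j / (j.factorial : ℝ)

lemma EJ_bound (J : ℕ) (z : ℂ) (r : ℝ) (hz : ‖z‖ ≤ r) : ‖Complex.exp z - EJ J z‖ ≤ rJ J r := by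
  have h1 : HasSum (fun j : ℕ => z ^ j / (j.factorial : ℂ)) (Complex.exp z) := by
    rw [Complex.exp_eq_exp_ℂ]
    exact NormedSpace.expSeries_div_hasSum_exp z
  have h2 : HasSum (fun j : ℕ => r ^ j / (j.factorial : ℝ)) (Real.exp r) := by
    rw [Real.exp_eq_exp_ℝ]
    exact NormedSpace.expSeries_div_hasSum_exp r
  have t1 := (hasSum_nat_add_iff' J).2 h1
  have t2 := (hasSum_nat_add_iff' J).2 h2
  have : ‖∑' j : ℕ, z ^ (j + J) / ((j + J).factorial : ℂ)‖ ≤
      ∑' j : ℕ, r ^ (j + J) / ((j + J).factorial : ℝ) := by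
    refine tsum_of_norm_bounded t2.summable.hasSum fun j => ?_
    rw [norm_div, norm_pow, Complex.norm_natCast]
    gcongr
  rw [t1.tsum_eq, t2.tsum_eq] at this
  exact this

lemma rJ_lim (r : ℝ) : Tendsto (fun J => rJ J r) atTop (𝓝 0) := by
  have h2 : HasSum (fun j : ℕ => r ^ j / (j.factorial : ℝ)) (Real.exp r) := by
    rw [Real.exp_eq_exp_ℝ]
    exact NormedSpace.expSeries_div_hasSum_exp r
  have := (tendsto_const_nhds (x := Real.exp r) (f := atTop (α := ℕ))).sub h2.tendsto_sum_nat
  rw [sub_self] at this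
  exact this

/-- the coefficients -/
def aJ (K j : ℕ) : ℝ := (if j = 1 then 1 else 0) -
  ∑ k ∈ range K, cR k * ((xR k ^ j - (-xR k) ^ j) / (j.factorial : ℝ))

theorem stmtZ.{u} (hT : StmtT) (hP : StmtP.{u}) : StmtZ.{u} := by
  intro H _ _ v hsk hco t ht
  obtain ⟨ε, hε⟩ : ∃ ε : ℕ → ℝ, ε = fun K => 1 - ∑ k ∈ range K, 2 * |cR k| := ⟨_, rfl⟩
  have hε0 : Tendsto ε atTop (𝓝 0) := by
    have := (tendsto_const_nhds (x := (1 : ℝ)) (f := atTop (α := ℕ))).sub hT.2.tendsto_sum_nat
    rw [sub_self] at this
    rw [hε]; exact this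
  have main : ∀ K, ‖v 1 - ∑ k ∈ range K, cR k • (t (xR k) - t (-xR k))‖ ≤ ε K * ‖v 0‖ := by
    intro K
    obtain ⟨ρ, hρ⟩ : ∃ ρ : ℕ → ℝ, ρ = fun J => ∑ k ∈ range K, 2 * |cR k| * rJ J |xR k| := ⟨_, rfl⟩
    have hρ0 : Tendsto ρ atTop (𝓝 0) := by
      have : Tendsto ρ atTop (𝓝 (∑ k ∈ range K, 2 * |cR k| * 0)) := by
        rw [hρ]
        exact tendsto_finsetSum _ fun k _ => (rJ_lim _).const_mul _
      simpa using this
    have hJ : ∀ J, 2 ≤ J → ‖v 1 - ∑ k ∈ range K, cR k •
        ((∑ j ∈ range J, (xR k ^ j / (j.factorial : ℝ)) • v j) -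
          ∑ j ∈ range J, ((-xR k) ^ j / (j.factorial : ℝ)) • v j)‖ ≤ (ε K + ρ J) * ‖v 0‖ := by
      intro J hJ
      have key := hP H v hsk hco J (aJ K) (ε K + ρ J) (fun x hx => ?_)
      · have e : ∑ j ∈ range J, aJ K j • v j = v 1 - ∑ k ∈ range K, cR k •
            ((∑ j ∈ range J, (xR k ^ j / (j.factorial : ℝ)) • v j) -
              ∑ j ∈ range J, ((-xR k) ^ j / (j.factorial : ℝ)) • v j) := by
          unfold aJ
          simp only [sub_smul, Finset.sum_sub_distrib, ite_smul, one_smul, zero_smul]
          congr 1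
          · rw [Finset.sum_ite_eq' (range J) 1 v]
            rw [if_pos (Finset.mem_range.2 hJ)]
          · simp only [Finset.sum_smul]
            rw [Finset.sum_comm]
            refine Finset.sum_congr rfl fun k _ => ?_
            rw [← Finset.sum_sub_distrib, Finset.smul_sum]
            refine Finset.sum_congr rfl fun j _ => ?_
            rw [← sub_smul, smul_smul]
            congr 1
            ring
        rw [e] at key
        exact key
      · -- the bound on the interval
        have e1 : ∑ j ∈ range J, (aJ K j : ℂ) * ((x : ℂ) * Complex.I) ^ j =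
            (x : ℂ) * Complex.I - ∑ k ∈ range K, (cR k : ℂ) *
              (EJ J ((xR k * x : ℝ) * Complex.I) - EJ J (-((xR k * x : ℝ) * Complex.I))) := by
          have ea : ∀ j, (aJ K j : ℂ) * ((x : ℂ) * Complex.I) ^ j =
              (if j = 1 then ((x : ℂ) * Complex.I) ^ j else 0) -
              ∑ k ∈ range K, ((cR k : ℂ) * (((xR k : ℂ) ^ j - (-(xR k : ℂ)) ^ j) /
                (j.factorial : ℂ))) * ((x : ℂ) * Complex.I) ^ j := by
            intro j
            unfold aJ
            rw [← Finset.sum_mul]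
            split_ifs <;> push_cast <;> ring
          simp only [ea]
          rw [Finset.sum_sub_distrib]
          unfold EJ
          push_cast
          congr 1
          · rw [Finset.sum_ite_eq' (range J) 1 (fun j => ((x : ℂ) * Complex.I) ^ j)]
            rw [if_pos (Finset.mem_range.2 hJ), pow_one]
          · rw [Finset.sum_comm]
            refine Finset.sum_congr rfl fun k _ => ?_
            rw [← Finset.sum_sub_distrib, Finset.mul_sum]
            refine Finset.sum_congr rfl fun j _ => ?_
            have q1 : ((xR k : ℂ) * x * Complex.I) ^ j = (xR k : ℂ) ^ j * ((x : ℂ) * Complex.I) ^ j := by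
              rw [← mul_pow]; ring
            have q2 : (-((xR k : ℂ) * x * Complex.I)) ^ j =
                (-(xR k : ℂ)) ^ j * ((x : ℂ) * Complex.I) ^ j := by
              rw [← mul_pow]; ring
            rw [q1, q2]
            ring
        have e2 : (x : ℂ) * Complex.I - ∑ k ∈ range K, (cR k : ℂ) *
              (EJ J ((xR k * x : ℝ) * Complex.I) - EJ J (-((xR k * x : ℝ) * Complex.I))) =
            ((x - ∑ k ∈ range K, 2 * cR k * Real.sin (xR k * x) : ℝ) : ℂ) * Complex.I +
            ∑ k ∈ range K, (cR k : ℂ) *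
              ((Complex.exp ((xR k * x : ℝ) * Complex.I) - EJ J ((xR k * x : ℝ) * Complex.I)) -
               (Complex.exp (-((xR k * x : ℝ) * Complex.I)) -
                 EJ J (-((xR k * x : ℝ) * Complex.I)))) := by
          have e3 : ∀ y : ℝ, Complex.exp ((y : ℂ) * Complex.I) - Complex.exp (-((y : ℂ) * Complex.I)) =
              2 * (Real.sin y : ℂ) * Complex.I := by
            intro y
            rw [← neg_mul, Complex.exp_mul_I, Complex.exp_mul_I, Complex.cos_neg, Complex.sin_neg]
            push_cast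
            ring
          have e4 : ∀ k, (cR k : ℂ) *
              ((Complex.exp ((xR k * x : ℝ) * Complex.I) - EJ J ((xR k * x : ℝ) * Complex.I)) -
               (Complex.exp (-((xR k * x : ℝ) * Complex.I)) -
                 EJ J (-((xR k * x : ℝ) * Complex.I)))) =
              2 * (cR k : ℂ) * (Real.sin (xR k * x) : ℂ) * Complex.I - (cR k : ℂ) *
              (EJ J ((xR k * x : ℝ) * Complex.I) - EJ J (-((xR k * x : ℝ) * Complex.I))) := by
            intro k
            have := e3 (xR k * x)
            linear_combination (cR k : ℂ) * this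
          simp only [e4]
          rw [Finset.sum_sub_distrib, ← Finset.sum_mul]
          push_cast
          ring
        rw [e1, e2]
        refine (norm_add_le _ _).trans (add_le_add ?_ ?_)
        · rw [norm_mul, Complex.norm_I, mul_one, Complex.norm_real, Real.norm_eq_abs]
          have hs := hT.1 x hx
          have t1 := (hasSum_nat_add_iff' K).2 hs
          have t2 := (hasSum_nat_add_iff' K).2 hT.2
          have : ‖∑' k : ℕ, 2 * cR (k + K) * Real.sin (xR (k + K) * x)‖ ≤
              ∑' k : ℕ, 2 * |cR (k + K)| := by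
            refine tsum_of_norm_bounded t2.summable.hasSum fun k => ?_
            rw [norm_mul, norm_mul, Real.norm_eq_abs, Real.norm_eq_abs, Real.norm_eq_abs]
            have := Real.abs_sin_le_one (xR (k + K) * x)
            have h2 : |(2 : ℝ)| = 2 := abs_of_pos two_pos
            rw [h2]
            have h3 : 0 ≤ 2 * |cR (k + K)| := by positivity
            nlinarith
          rw [t1.tsum_eq, t2.tsum_eq, Real.norm_eq_abs] at this
          rw [hε]
          exact this
        · rw [hρ]
          refine (norm_sum_le _ _).trans (Finset.sum_le_sum fun k _ => ?_)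
          rw [norm_mul, Complex.norm_real, Real.norm_eq_abs]
          have hz : ‖((xR k * x : ℝ) : ℂ) * Complex.I‖ ≤ |xR k| := by
            rw [norm_mul, Complex.norm_I, mul_one, Complex.norm_real, Real.norm_eq_abs, abs_mul]
            have : |x| ≤ 1 := abs_le.2 ⟨hx.1, hx.2⟩
            nlinarith [abs_nonneg (xR k)]
          have hz' : ‖-(((xR k * x : ℝ) : ℂ) * Complex.I)‖ ≤ |xR k| := by rw [norm_neg]; exact hz
          have b1 := EJ_bound J _ _ hz
          have b2 := EJ_bound J _ _ hz'
          have b3 := norm_sub_le (Complex.exp ((xR k * x : ℝ) * Complex.I) -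
            EJ J ((xR k * x : ℝ) * Complex.I)) (Complex.exp (-((xR k * x : ℝ) * Complex.I)) -
                 EJ J (-((xR k * x : ℝ) * Complex.I)))
          nlinarith [abs_nonneg (cR k)]
    have hl : Tendsto (fun J => ‖v 1 - ∑ k ∈ range K, cR k •
        ((∑ j ∈ range J, (xR k ^ j / (j.factorial : ℝ)) • v j) -
          ∑ j ∈ range J, ((-xR k) ^ j / (j.factorial : ℝ)) • v j)‖) atTop
        (𝓝 ‖v 1 - ∑ k ∈ range K, cR k • (t (xR k) - t (-xR k))‖) := by
      refine (tendsto_const_nhds.sub (tendsto_finsetSum _ fun k _ => ?_)).norm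
      exact ((ht (xR k)).sub (ht (-xR k))).const_smul (cR k)
    have hr : Tendsto (fun J => (ε K + ρ J) * ‖v 0‖) atTop (𝓝 ((ε K + 0) * ‖v 0‖)) :=
      (tendsto_const_nhds.add hρ0).mul_const _
    rw [add_zero] at hr
    exact le_of_tendsto_of_tendsto hl hr (by
      filter_upwards [eventually_ge_atTop 2] with J hJ2 using hJ J hJ2)
  have h0 : Tendsto (fun K => ‖v 1 - ∑ k ∈ range K, cR k • (t (xR k) - t (-xR k))‖) atTop
      (𝓝 0) := by
    refine squeeze_zero (fun K => norm_nonneg _) main ?_
    have := hε0.mul_const ‖v 0‖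
    rwa [zero_mul] at this
  have h1 := tendsto_zero_iff_norm_tendsto_zero.2 h0
  have h2 := (tendsto_const_nhds (x := v 1) (f := atTop (α := ℕ))).sub h1
  simpa using h2

end

end Pool.Agent.T6.H5.PW
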