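import Pool.Agent.T6.H5.PW.R
import Pool.Agent.T6.H5.PW.B
import Pool.Agent.T6.H5.PW.Z
import Pool.Agent.T6.H5.PW.A
import Pool.Agent.T6.H5.PW.C
import Pool.Agent.T6.H5.PW.F
import Pool.Agent.T6.H5.PW.K
import Pool.Agent.T6.H5.PW.O
import Pool.Agent.T6.H5.PW.Q
import Pool.Agent.T6.H5.PW.W
import Pool.Agent.T6.H48.PW.P
import Pool.Agent.T6.H48.PW.T
import Pool.Agent.T6.H48.PW.G
import Pool.Agent.T6.H5.PW.V

set_option autoImplicit false

namespace Pool.Agent.T6.H5.PW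

theorem stmtB_all.{u} : StmtB.{u} := stmtB stmtT (stmtR (stmtZ stmtT stmtP))

theorem stmtV_all.{u} : StmtV.{u} := stmtV stmtB_all

theorem stmtG_all.{u} : StmtG.{u} := stmtG stmtV_all stmtA

theorem stmtF_all.{u} : StmtF.{u} :=
  stmtF stmtV_all (stmtQ stmtV_all stmtG_all stmtB_all) stmtC
    (stmtK stmtV_all stmtG_all stmtB_all) stmtO

end Pool.Agent.T6.H5.PW
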