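import Pool.Agent.Y139.SW.B

/-!
Project PW (helper5), MP_4fa179_mp: plane waves minimise the even moments of stationary waves.
Definitions and the statements of the modules.
-/

set_option autoImplicit false
open MeasureTheory Filter Topology Finset
open scoped ContDiff ENNReal

namespace Pool.Agent.T6.H5.PW

open Pool.Agent.Y139.SW

noncomputable section

/-! ### The M. Riesz formula -/

/-- the nodes `(2k+1)π/2` -/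
def xR (k : ℕ) : ℝ := (2 * k + 1) * Real.pi / 2

/-- the coefficients `4 (-1)^k / (π² (2k+1)²)`; `∑ 2 |cR k| = 1` -/
def cR (k : ℕ) : ℝ := 4 / Real.pi ^ 2 * (-1) ^ k / (2 * k + 1) ^ 2

/-- module T: triangle wave -/
def StmtT : Prop :=
  (∀ x ∈ Set.Icc (-1 : ℝ) 1, HasSum (fun k => 2 * cR k * Real.sin (xR k * x)) x) ∧
    HasSum (fun k => 2 * |cR k|) 1

/-- module P: norm bound for polynomials of a skew contraction -/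
def StmtP.{u} : Prop := ∀ (H : Type u) [NormedAddCommGroup H] [InnerProductSpace ℝ H] (v : ℕ → H),
  (∀ j k, inner ℝ (v (j + 1)) (v k) = -inner ℝ (v j) (v (k + 1))) →
  (∀ (N : ℕ) (a : ℕ → ℝ), ‖∑ j ∈ range N, a j • v (j + 1)‖ ≤ ‖∑ j ∈ range N, a j • v j‖) →
  ∀ (N : ℕ) (a : ℕ → ℝ) (M : ℝ),
    (∀ x ∈ Set.Icc (-1 : ℝ) 1, ‖∑ j ∈ range N, (a j : ℂ) * ((x : ℂ) * Complex.I) ^ j‖ ≤ M) →
    ‖∑ j ∈ range N, a j • v j‖ ≤ M * ‖v 0‖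

/-- module Z: the M. Riesz formula in a Hilbert space -/
def StmtZ.{u} : Prop := ∀ (H : Type u) [NormedAddCommGroup H] [InnerProductSpace ℝ H] (v : ℕ → H),
  (∀ j k, inner ℝ (v (j + 1)) (v k) = -inner ℝ (v j) (v (k + 1))) →
  (∀ (N : ℕ) (a : ℕ → ℝ), ‖∑ j ∈ range N, a j • v (j + 1)‖ ≤ ‖∑ j ∈ range N, a j • v j‖) →
  ∀ t : ℝ → H,
  (∀ x : ℝ, Tendsto (fun J => ∑ j ∈ range J, (x ^ j / (j.factorial : ℝ)) • v j) atTop (𝓝 (t x))) →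
  Tendsto (fun K => ∑ k ∈ range K, cR k • (t (xR k) - t (-xR k))) atTop (𝓝 (v 1))

/-! ### Waves -/

/-- the derivative in the direction `w` -/
def dd {d : ℕ} (w : E d) (f : E d → ℝ) (y : E d) : ℝ := fderiv ℝ f y w

/-- module R: the M. Riesz formula for waves, in `L²` -/
def StmtR.{u} : Prop := ∀ {d : ℕ} {S : Type u} [MeasurableSpace S] {P : Measure S}
  {τ : E d → S → S} [IsProbabilityMeasure P], (∀ x, MeasurePreserving (τ x) P P) →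
  ∀ {G : S → E d → ℝ}, Wave P τ G → ∀ w : E d, ‖w‖ = 1 →
  Tendsto (fun K => ∫ s, (dd w (G s) 0 -
    ∑ k ∈ range K, cR k * (G s (xR k • w) - G s (-xR k • w))) ^ 2 ∂P) atTop (𝓝 0)

/-- module B: Bernstein's inequality for waves in `L^p` -/
def StmtB.{u} : Prop := ∀ {d : ℕ} {S : Type u} [MeasurableSpace S] {P : Measure S}
  {τ : E d → S → S} [IsProbabilityMeasure P], (∀ x, MeasurePreserving (τ x) P P) →
  ∀ {G : S → E d → ℝ}, Wave P τ G → ∀ w : E d, ‖w‖ ≤ 1 → ∀ p : ℝ≥0∞, 1 ≤ p →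
  eLpNorm (fun s => dd w (G s) 0) p P ≤ eLpNorm (fun s => G s 0) p P

/-- waves with finite `L^(2n)` norm -/
def LW {d : ℕ} {S : Type*} [MeasurableSpace S] (P : Measure S) (τ : E d → S → S) (n : ℕ)
    (G : S → E d → ℝ) : Prop :=
  Wave P τ G ∧ MemLp (fun s => G s 0) ((2 * n : ℕ) : ℝ≥0∞) P

/-- the span of the products of at most `n` waves in `L^(2n)` -/
def Vn {d : ℕ} {S : Type*} [MeasurableSpace S] (P : Measure S) (τ : E d → S → S) (n : ℕ) :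
    Submodule ℝ (S → E d → ℝ) :=
  Submodule.span ℝ {K | ∃ (k : ℕ) (G : Fin k → S → E d → ℝ), k ≤ n ∧ (∀ i, LW P τ n (G i)) ∧
    K = fun s y => ∏ i, G i s y}

/-- module V: the space `Vn` -/
def StmtV.{u} : Prop := ∀ {d : ℕ} {S : Type u} [MeasurableSpace S] {P : Measure S}
  {τ : E d → S → S} [IsProbabilityMeasure P], (∀ x, MeasurePreserving (τ x) P P) →
  ∀ n : ℕ, 1 ≤ n → ∀ K ∈ Vn P τ n,
    SF τ K ∧ Integrable (fun s => K s 0 ^ 2) P ∧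
    (∀ w : E d, (fun s => dd w (K s)) ∈ Vn P τ n) ∧
    ∃ C : ℝ, ∀ w : E d, ‖w‖ ≤ 1 → ∀ m : ℕ,
      ∫ s, ((dd w)^[m] (K s) 0) ^ 2 ∂P ≤ C * (n : ℝ) ^ (2 * m)

/-- module A: the abstract Bernstein inequality for the gradient -/
def StmtA.{u} : Prop := ∀ (V : Type u) [AddCommGroup V] [Module ℝ V] (B : V →ₗ[ℝ] V →ₗ[ℝ] ℝ),
  (∀ u v, B u v = B v u) → (∀ u, 0 ≤ B u u) →
  ∀ (d : ℕ) (D : Fin d → Module.End ℝ V), (∀ i j, D i * D j = D j * D i) →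
  (∀ i u v, B (D i u) v = -B u (D i v)) →
  ∀ (n : ℝ), 0 ≤ n → ∀ (v : V) (C : ℝ),
  (∀ w : Fin d → ℝ, ∑ i, w i ^ 2 ≤ 1 → ∀ m : ℕ,
    B (((∑ i, w i • D i) ^ m) v) (((∑ i, w i • D i) ^ m) v) ≤ C * n ^ (2 * m)) →
  ∑ i, B (D i v) (D i v) ≤ n ^ 2 * B v v

/-- module G: the gradient bound on `Vn` -/
def StmtG.{u} : Prop := ∀ {d : ℕ} {S : Type u} [MeasurableSpace S] {P : Measure S}
  {τ : E d → S → S} [IsProbabilityMeasure P], (∀ x, MeasurePreserving (τ x) P P) →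
  ∀ n : ℕ, 1 ≤ n → ∀ K ∈ Vn P τ n,
    ∑ i, ∫ s, D i (K s) 0 ^ 2 ∂P ≤ (n : ℝ) ^ 2 * ∫ s, K s 0 ^ 2 ∂P

/-- module Q: the inequality for polynomials of a wave; `I` is the primitive of `(Q')²` -/
def StmtQ.{u} : Prop := ∀ {d : ℕ} {S : Type u} [MeasurableSpace S] {P : Measure S}
  {τ : E d → S → S} [IsProbabilityMeasure P], (∀ x, MeasurePreserving (τ x) P P) →
  ∀ {G : S → E d → ℝ} (n : ℕ), 1 ≤ n → LW P τ n G → ∀ Q I : Polynomial ℝ, Q.natDegree ≤ n →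
    Polynomial.derivative I = Polynomial.derivative Q ^ 2 → I.eval 0 = 0 →
    ∫ s, G s 0 * I.eval (G s 0) ∂P ≤ (n : ℝ) ^ 2 * ∫ s, (Q.eval (G s 0)) ^ 2 ∂P

/-- module C: Chebyshev algebra. `L` is a linear functional on polynomials -/
def StmtC : Prop := ∀ (L : Polynomial ℝ →ₗ[ℝ] ℝ) (n : ℕ), L 1 = 1 → L (Polynomial.X ^ 2) = 1 / 2 →
  (∀ m : ℕ, 1 ≤ m → m ≤ n → ∀ Q I : Polynomial ℝ, Q.natDegree ≤ m →
    Polynomial.derivative I = Polynomial.derivative Q ^ 2 → I.eval 0 = 0 →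
    L (Polynomial.X * I) ≤ (m : ℝ) ^ 2 * L (Q ^ 2)) →
  (∀ m : ℕ, 1 ≤ m → m ≤ n → 0 ≤ L (Polynomial.Chebyshev.T ℝ (2 * m))) ∧
  (∀ m : ℕ, 1 ≤ m → m ≤ n → (m.centralBinom : ℝ) / 4 ^ m ≤ L (Polynomial.X ^ (2 * m))) ∧
  (∀ m : ℕ, 2 ≤ m → m ≤ n → (m.centralBinom : ℝ) / 4 ^ m = L (Polynomial.X ^ (2 * m)) →
    L (Polynomial.X ^ 4) = 3 / 8)

/-- module K: equality for fourth moments gives the pointwise identity `|∇G|² + G² = 2 E G²` -/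
def StmtK.{u} : Prop := ∀ {d : ℕ} {S : Type u} [MeasurableSpace S] {P : Measure S}
  {τ : E d → S → S} [IsProbabilityMeasure P], (∀ x, MeasurePreserving (τ x) P P) →
  ∀ {G : S → E d → ℝ}, LW P τ 2 G →
    ∫ s, G s 0 ^ 4 ∂P = 3 / 2 * (∫ s, G s 0 ^ 2 ∂P) ^ 2 →
    ∀ᵐ s ∂P, ∀ y, ∑ i, D i (G s) y ^ 2 + G s y ^ 2 = 2 * ∫ s, G s 0 ^ 2 ∂P

/-- module O: solutions of `Δf + f = 0` with `|∇f|² + f²` constant are plane waves -/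
def StmtO : Prop := ∀ {d : ℕ} (f : E d → ℝ), ContDiff ℝ ∞ f → (∀ y, Lap f y = -f y) →
  ∀ a : ℝ, 0 < a → (∀ y, ∑ i, D i f y ^ 2 + f y ^ 2 = a ^ 2) →
  ∃ (e : E d) (θ : ℝ), ‖e‖ = 1 ∧ ∀ y, f y = a * Real.cos (inner ℝ e y + θ)

/-- module F: everything, for measure preserving flows -/
def StmtF.{u} : Prop := ∀ {d : ℕ} {S : Type u} [MeasurableSpace S] {P : Measure S}
  {τ : E d → S → S} [IsProbabilityMeasure P], (∀ x, MeasurePreserving (τ x) P P) →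
  ∀ {G : S → E d → ℝ} (n : ℕ), 1 ≤ n → LW P τ n G → 0 < ∫ s, G s 0 ^ 2 ∂P →
    0 ≤ ∫ s, (Polynomial.Chebyshev.T ℝ (2 * n)).eval (G s 0 / √(2 * ∫ s, G s 0 ^ 2 ∂P)) ∂P ∧
    (n.centralBinom : ℝ) / 2 ^ n * (∫ s, G s 0 ^ 2 ∂P) ^ n ≤ ∫ s, G s 0 ^ (2 * n) ∂P ∧
    (2 ≤ n → (n.centralBinom : ℝ) / 2 ^ n * (∫ s, G s 0 ^ 2 ∂P) ^ n = ∫ s, G s 0 ^ (2 * n) ∂P →
      ∀ᵐ s ∂P, ∃ (e : E d) (θ : ℝ), ‖e‖ = 1 ∧
        ∀ y, G s y = √(2 * ∫ s, G s 0 ^ 2 ∂P) * Real.cos (inner ℝ e y + θ))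

end

end Pool.Agent.T6.H5.PW
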