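import Pool.Agent.T6.H5.PW.R0

/-!
Project PW (helper5): the M. Riesz formula for waves.
-/

set_option autoImplicit false
open MeasureTheory Filter Topology Finset
open scoped ContDiff ENNReal

namespace Pool.Agent.T6.H5.PW

open Pool.Agent.Y139.SW

noncomputable section

variable {d : ℕ} {S : Type*} [MeasurableSpace S] {P : Measure S} {τ : E d → S → S}

lemma Wave.mem {K : S → E d → ℝ} (h : Wave P τ K) : MemLp (fun s => K s 0) 2 P :=
  (memLp_two_iff_integrable_sq h.m0.aestronglyMeasurable).2 h.l2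

lemma Wave.memx {K : S → E d → ℝ} (hτ : ∀ x, MeasurePreserving (τ x) P P) (h : Wave P τ K)
    (y : E d) : MemLp (fun s => K s y) 2 P := by
  refine (memLp_two_iff_integrable_sq (h.sf.meas y).aestronglyMeasurable).2 ?_
  have h2 : SF τ (fun s y => K s y * K s y) := h.sf.mul h.sf
  have := st_integrable hτ h2 y (h.l2.congr (ae_of_all _ fun s => sq _))
  exact this.congr (ae_of_all _ fun s => (sq _).symm)

/-- the class in `L²` -/
def cl {a : S → ℝ} (h : MemLp a 2 P) : Lp ℝ 2 P := h.toLp a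

lemma inner_cl {a b : S → ℝ} (ha : MemLp a 2 P) (hb : MemLp b 2 P) :
    inner ℝ (cl ha) (cl hb) = ∫ s, a s * b s ∂P := by
  rw [L2.inner_def]
  refine integral_congr_ae ?_
  filter_upwards [ha.coeFn_toLp, hb.coeFn_toLp] with s h1 h2
  unfold cl
  rw [h1, h2]
  simp [mul_comm]

lemma norm_cl {a : S → ℝ} (ha : MemLp a 2 P) : ‖cl ha‖ ^ 2 = ∫ s, a s ^ 2 ∂P := by
  rw [← real_inner_self_eq_norm_sq, inner_cl]
  congr 1; funext s; ring

lemma cl_congr {a b : S → ℝ} (ha : MemLp a 2 P) (hb : MemLp b 2 P) (h : ∀ s, a s = b s) :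
    cl ha = cl hb := by
  have : a = b := funext h
  subst this
  rfl

lemma cl_sum {ι : Type*} (t : Finset ι) {a : ι → S → ℝ} (c : ι → ℝ) (ha : ∀ j, MemLp (a j) 2 P)
    (hs : MemLp (fun s => ∑ j ∈ t, c j * a j s) 2 P) :
    ∑ j ∈ t, c j • cl (ha j) = cl hs := by
  classical
  induction t using Finset.induction_on with
  | empty =>
    rw [Finset.sum_empty]
    have h0 : MemLp (0 : S → ℝ) 2 P := MemLp.zero
    have : cl hs = cl h0 := cl_congr _ _ fun s => by simp
    rw [this]
    exact (MemLp.toLp_zero h0).symm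
  | insert i t hi ih =>
    have h1 : MemLp (fun s => ∑ j ∈ t, c j * a j s) 2 P := by
      have : (fun s => ∑ j ∈ t, c j * a j s) = fun s => ∑ j ∈ t, (c j • a j) s := by
        funext s; simp
      rw [this]
      have := memLp_finsetSum' (p := 2) (μ := P) t (f := fun j => c j • a j)
        fun j _ => (ha j).const_smul (c j)
      refine this.ae_eq (ae_of_all _ fun s => ?_)
      simp
    have h2 : MemLp (c i • a i) 2 P := (ha i).const_smul (c i)
    rw [Finset.sum_insert hi, ih h1]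
    have h3 : MemLp (c i • a i + fun s => ∑ j ∈ t, c j * a j s) 2 P := h2.add h1
    have : cl hs = cl h3 := cl_congr _ _ fun s => by
      rw [Finset.sum_insert hi]; rfl
    rw [this]
    unfold cl
    rw [MemLp.toLp_add h2 h1, MemLp.toLp_const_smul]

lemma cl_sub {a b : S → ℝ} (ha : MemLp a 2 P) (hb : MemLp b 2 P)
    (hab : MemLp (fun s => a s - b s) 2 P) : cl ha - cl hb = cl hab := by
  have h1 : MemLp (a - b) 2 P := ha.sub hb
  have : cl hab = cl h1 := cl_congr _ _ fun s => rfl
  rw [this]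
  exact (MemLp.toLp_sub ha hb).symm

theorem stmtR.{u} (hZ : StmtZ.{u}) : StmtR.{u} := by
  intro d S _ P τ _ hτ G hG w hw
  have Wj := fun j => Wave.ddi hτ hG w j
  have mv : ∀ j, MemLp (fun s => (dd w)^[j] (G s) 0) 2 P := fun j => Wave.mem (Wj j)
  have mt : ∀ x : ℝ, MemLp (fun s => G s (x • w)) 2 P := fun x => Wave.memx hτ hG (x • w)
  have key := hZ (Lp ℝ 2 P) (fun j => cl (mv j)) (fun j k => ?_) (fun N a => ?_)
    (fun x => cl (mt x)) (fun x => ?_)
  · -- conclusion
    have m1 : ∀ K, MemLp (fun s => ∑ k ∈ range K, cR k * (G s (xR k • w) - G s (-xR k • w))) 2 P :=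
      fun K => by
        have := memLp_finsetSum' (p := 2) (μ := P) (range K)
          (f := fun k s => cR k * (G s (xR k • w) - G s (-xR k • w)))
          fun k _ => ((mt (xR k)).sub (mt (-xR k))).const_mul (cR k)
        refine this.ae_eq (ae_of_all _ fun s => ?_)
        simp
    have m2 : ∀ k, MemLp (fun s => G s (xR k • w) - G s (-xR k • w)) 2 P := fun k =>
      (mt (xR k)).sub (mt (-xR k))
    have m3 : ∀ K, MemLp (fun s => dd w (G s) 0 -
        ∑ k ∈ range K, cR k * (G s (xR k • w) - G s (-xR k • w))) 2 P := fun K =>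
      (mv 1).sub (m1 K)
    have e : ∀ K, ∫ s, (dd w (G s) 0 -
        ∑ k ∈ range K, cR k * (G s (xR k • w) - G s (-xR k • w))) ^ 2 ∂P =
        ‖cl (mv 1) - ∑ k ∈ range K, cR k • (cl (mt (xR k)) - cl (mt (-xR k)))‖ ^ 2 := by
      intro K
      have e1 : ∀ k, cl (mt (xR k)) - cl (mt (-xR k)) = cl (m2 k) := fun k =>
        cl_sub _ _ (m2 k)
      simp only [e1]
      rw [cl_sum (range K) cR m2 (m1 K), cl_sub (mv 1) (m1 K) (m3 K), norm_cl]
      rfl
    simp only [e]
    have h1 : Tendsto (fun K => cl (mv 1) - ∑ k ∈ range K, cR k • (cl (mt (xR k)) -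
        cl (mt (-xR k)))) atTop (𝓝 (cl (mv 1) - cl (mv 1))) := tendsto_const_nhds.sub key
    rw [sub_self] at h1
    have h2 := (h1.norm).pow 2
    simpa using h2
  · -- skew
    rw [inner_cl, inner_cl]
    have := skew hτ (Wj j) (Wj k) w
    simp only [Function.iterate_succ_apply'] at this ⊢
    exact this
  · -- contraction
    have W1 : Wave P τ (fun s y => ∑ j ∈ range N, a j * (dd w)^[j] (G s) y) :=
      Wave.sum _ fun j => Wave.cmul (Wj j) (a j)
    have W2 := Wave.dd hτ W1 w
    have e2 : ∀ s, dd w (fun y => ∑ j ∈ range N, a j * (dd w)^[j] (G s) y) 0 =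
        ∑ j ∈ range N, a j * (dd w)^[j + 1] (G s) 0 := by
      intro s
      rw [dd_sum (range N) (f := fun j y => a j * (dd w)^[j] (G s) y)
        (fun j => contDiff_const.mul (ddi_sm (hG.sf.smooth s) w j))]
      refine Finset.sum_congr rfl fun j _ => ?_
      rw [dd_cmul (ddi_sm (hG.sf.smooth s) w j), Function.iterate_succ_apply']
    have q1 : MemLp (fun s => ∑ j ∈ range N, a j * (dd w)^[j] (G s) 0) 2 P := Wave.mem W1
    have q2 : MemLp (fun s => ∑ j ∈ range N, a j * (dd w)^[j + 1] (G s) 0) 2 P := by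
      have := Wave.mem W2
      simp only [e2] at this
      exact this
    show ‖∑ j ∈ range N, a j • cl (mv (j + 1))‖ ≤ ‖∑ j ∈ range N, a j • cl (mv j)‖
    rw [cl_sum (range N) a mv q1, cl_sum (range N) a (fun j => mv (j + 1)) q2]
    refine (sq_le_sq₀ (norm_nonneg _) (norm_nonneg _)).1 ?_
    rw [norm_cl, norm_cl]
    have := contr hτ W1 w hw
    simp only [e2] at this
    exact this
  · -- Taylor
    have m1 : ∀ J, MemLp (fun s => ∑ j ∈ range J, x ^ j / (j.factorial : ℝ) *
        (dd w)^[j] (G s) 0) 2 P := fun J =>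
      Wave.mem (K := fun s y => ∑ j ∈ range J, x ^ j / (j.factorial : ℝ) * (dd w)^[j] (G s) y)
        (Wave.sum _ fun j => Wave.cmul (Wj j) (x ^ j / (j.factorial : ℝ)))
    have m2 : ∀ J, MemLp (fun s => rem w J (G s) x) 2 P := fun J => (mt x).sub (m1 J)
    have e : ∀ J, ∑ j ∈ range J, (x ^ j / (j.factorial : ℝ)) • cl (mv j) =
        cl (mt x) - cl (m2 J) := by
      intro J
      rw [cl_sum (range J) (fun j => x ^ j / (j.factorial : ℝ)) mv (m1 J)]
      have : MemLp (fun s => G s (x • w) - rem w J (G s) x) 2 P := (mt x).sub (m2 J)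
      rw [cl_sub (mt x) (m2 J) this]
      refine cl_congr _ _ fun s => ?_
      unfold rem
      ring
    show Tendsto (fun J => ∑ j ∈ range J, (x ^ j / (j.factorial : ℝ)) • cl (mv j)) atTop _
    simp only [e]
    have h0 : Tendsto (fun J => ‖cl (m2 J)‖ ^ 2) atTop (𝓝 0) := by
      have hb : ∀ J, ‖cl (m2 J)‖ ^ 2 ≤ (x ^ 2) ^ J / (J.factorial : ℝ) * ∫ s, G s 0 ^ 2 ∂P := by
        intro J
        rw [norm_cl]
        have h1 := taylor hτ w hw J hG x
        have i1 : Integrable (fun s => rem w J (G s) x ^ 2) P := (m2 J).integrable_sq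
        rw [← ofReal_integral_eq_lintegral_ofReal i1 (ae_of_all _ fun s => sq_nonneg _),
          ← ofReal_integral_eq_lintegral_ofReal hG.l2 (ae_of_all _ fun s => sq_nonneg _),
          ← ENNReal.ofReal_mul (by positivity)] at h1
        refine (ENNReal.ofReal_le_ofReal_iff ?_).1 h1
        have : 0 ≤ ∫ s, G s 0 ^ 2 ∂P := integral_nonneg fun s => sq_nonneg _
        positivity
      have hl : Tendsto (fun J : ℕ => (x ^ 2) ^ J / (J.factorial : ℝ) * ∫ s, G s 0 ^ 2 ∂P) atTop
          (𝓝 (0 * ∫ s, G s 0 ^ 2 ∂P)) :=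
        (FloorSemiring.tendsto_pow_div_factorial_atTop (x ^ 2)).mul_const _
      rw [zero_mul] at hl
      exact squeeze_zero (fun J => sq_nonneg _) hb hl
    have h1 : Tendsto (fun J => ‖cl (m2 J)‖) atTop (𝓝 0) := by
      have := h0.sqrt
      simpa [Real.sqrt_sq (norm_nonneg _)] using this
    have h2 : Tendsto (fun J => cl (m2 J)) atTop (𝓝 0) := tendsto_zero_iff_norm_tendsto_zero.2 h1
    have h3 := (tendsto_const_nhds (x := cl (mt x)) (f := atTop (α := ℕ))).sub h2
    simpa using h3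

end

end Pool.Agent.T6.H5.PW
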