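import Pool.Agent.T6.H5.PW.Defs

/-!
Project PW (helper5): waves, directional derivatives and Taylor expansion in `L²`.
-/

set_option autoImplicit false
open MeasureTheory Filter Topology Finset
open scoped ContDiff ENNReal

namespace Pool.Agent.T6.H5.PW

open Pool.Agent.Y139.SW

noncomputable section

variable {d : ℕ}

lemma dd_eq (w : E d) (f : E d → ℝ) (y : E d) : dd w f y = ∑ i, w i * D i f y := by
  have h : w = ∑ i, w i • (EuclideanSpace.single i (1 : ℝ) : E d) := by
    ext j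
    simp [Pi.single_apply]
  unfold dd D
  conv_lhs => rw [h]
  rw [map_sum]
  simp

lemma dd_sm {f : E d → ℝ} (hf : ContDiff ℝ ∞ f) (w : E d) : ContDiff ℝ ∞ (dd w f) :=
  (hf.fderiv_right (m := ∞) le_rfl).clm_apply contDiff_const

lemma ddi_sm {f : E d → ℝ} (hf : ContDiff ℝ ∞ f) (w : E d) (j : ℕ) :
    ContDiff ℝ ∞ ((dd w)^[j] f) := by
  induction j with
  | zero => exact hf
  | succ j ih => rw [Function.iterate_succ_apply']; exact dd_sm ih w

lemma dd_mul {f g : E d → ℝ} (hf : ContDiff ℝ ∞ f) (hg : ContDiff ℝ ∞ g) (w y : E d) :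
    dd w (fun z => f z * g z) y = dd w f y * g y + f y * dd w g y := by
  unfold dd
  rw [fderiv_fun_mul (sdiff hf y) (sdiff hg y)]
  simp only [add_apply, smul_apply, smul_eq_mul]
  ring

lemma dd_add {f g : E d → ℝ} (hf : ContDiff ℝ ∞ f) (hg : ContDiff ℝ ∞ g) (w y : E d) :
    dd w (fun z => f z + g z) y = dd w f y + dd w g y := by
  unfold dd
  rw [fderiv_fun_add (sdiff hf y) (sdiff hg y)]
  simp

lemma dd_cmul {f : E d → ℝ} (hf : ContDiff ℝ ∞ f) (a : ℝ) (w y : E d) :
    dd w (fun z => a * f z) y = a * dd w f y := by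
  unfold dd
  rw [fderiv_const_mul (sdiff hf y)]
  simp

lemma dd_sum {ι : Type*} (t : Finset ι) {f : ι → E d → ℝ} (hf : ∀ j, ContDiff ℝ ∞ (f j))
    (w y : E d) : dd w (fun z => ∑ j ∈ t, f j z) y = ∑ j ∈ t, dd w (f j) y := by
  unfold dd
  rw [fderiv_fun_sum fun j _ => sdiff (hf j) y]
  simp

lemma D_add {f g : E d → ℝ} (hf : ContDiff ℝ ∞ f) (hg : ContDiff ℝ ∞ g) (i : Fin d) (y : E d) :
    D i (fun z => f z + g z) y = D i f y + D i g y := dd_add hf hg _ y

lemma D_cmul {f : E d → ℝ} (hf : ContDiff ℝ ∞ f) (a : ℝ) (i : Fin d) (y : E d) :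
    D i (fun z => a * f z) y = a * D i f y := dd_cmul hf a _ y

variable {S : Type*} [MeasurableSpace S] {P : Measure S} {τ : E d → S → S}

lemma SF.add {G H : S → E d → ℝ} (h : SF τ G) (h' : SF τ H) : SF τ (fun s y => G s y + H s y) :=
  ⟨fun y => (h.meas y).add (h'.meas y), fun s => (h.smooth s).add (h'.smooth s),
    fun x s y => by rw [h.cov, h'.cov]⟩

lemma SF.cmul {G : S → E d → ℝ} (h : SF τ G) (a : ℝ) : SF τ (fun s y => a * G s y) :=
  ⟨fun y => (h.meas y).const_mul a, fun s => contDiff_const.mul (h.smooth s),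
    fun x s y => by rw [h.cov]⟩

lemma SF.const (a : ℝ) : SF τ (fun (_ : S) (_ : E d) => a) :=
  ⟨fun _ => measurable_const, fun _ => contDiff_const, fun _ _ _ => rfl⟩

lemma SF.sum {ι : Type*} (t : Finset ι) {G : ι → S → E d → ℝ} (h : ∀ i, SF τ (G i)) :
    SF τ (fun s y => ∑ i ∈ t, G i s y) :=
  ⟨fun y => Finset.measurable_fun_sum t fun i _ => (h i).meas y,
    fun s => ContDiff.sum fun i _ => (h i).smooth s,
    fun x s y => Finset.sum_congr rfl fun i _ => (h i).cov x s y⟩

lemma SF.dd {G : S → E d → ℝ} (h : SF τ G) (w : E d) : SF τ (fun s => dd w (G s)) := by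
  have e : (fun s => PW.dd w (G s)) = fun s y => ∑ i, w i * D i (G s) y := by
    funext s y; exact dd_eq w (G s) y
  rw [e]
  exact SF.sum _ fun i => SF.cmul (h.der i) (w i)

lemma l2_add {a b : S → ℝ} (ma : Measurable a) (mb : Measurable b)
    (ia : Integrable (fun s => a s ^ 2) P) (ib : Integrable (fun s => b s ^ 2) P) :
    Integrable (fun s => (a s + b s) ^ 2) P := by
  have := (ia.add ib).add ((mul_l2 ma mb ia ib).const_mul 2)
  refine this.congr (ae_of_all _ fun s => ?_)
  show a s ^ 2 + b s ^ 2 + 2 * (a s * b s) = _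
  ring

lemma l2_cmul {a : S → ℝ} (ia : Integrable (fun s => a s ^ 2) P) (c : ℝ) :
    Integrable (fun s => (c * a s) ^ 2) P := by
  refine (ia.const_mul (c ^ 2)).congr (ae_of_all _ fun s => ?_)
  show c ^ 2 * a s ^ 2 = _
  ring

lemma Wave.add {G H : S → E d → ℝ} (h : Wave P τ G) (h' : Wave P τ H) :
    Wave P τ (fun s y => G s y + H s y) := by
  refine ⟨SF.add h.sf h'.sf, fun s y => ?_, l2_add h.m0 h'.m0 h.l2 h'.l2⟩
  have e : Lap (fun y => G s y + H s y) y = Lap (G s) y + Lap (H s) y := by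
    unfold Lap
    rw [← Finset.sum_add_distrib]
    refine Finset.sum_congr rfl fun i _ => ?_
    have : D i (fun y => G s y + H s y) = fun y => D i (G s) y + D i (H s) y :=
      funext fun y => D_add (h.sf.smooth s) (h'.sf.smooth s) i y
    rw [this, D_add (D_sm (h.sf.smooth s) i) (D_sm (h'.sf.smooth s) i)]
  rw [e, h.eq, h'.eq]; ring

lemma Wave.cmul {G : S → E d → ℝ} (h : Wave P τ G) (a : ℝ) :
    Wave P τ (fun s y => a * G s y) := by
  refine ⟨SF.cmul h.sf a, fun s y => ?_, l2_cmul h.l2 a⟩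
  have e : Lap (fun y => a * G s y) y = a * Lap (G s) y := by
    unfold Lap
    rw [Finset.mul_sum]
    refine Finset.sum_congr rfl fun i _ => ?_
    have : D i (fun y => a * G s y) = fun y => a * D i (G s) y :=
      funext fun y => D_cmul (h.sf.smooth s) a i y
    rw [this, D_cmul (D_sm (h.sf.smooth s) i)]
  rw [e, h.eq]; ring

lemma Wave.zero : Wave P τ (fun (_ : S) (_ : E d) => (0 : ℝ)) := by
  refine ⟨SF.const 0, fun s y => ?_, ?_⟩
  · unfold Lap
    have : ∀ i : Fin d, D i (fun _ : E d => (0 : ℝ)) = fun _ => 0 := fun i => by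
      funext y
      show fderiv ℝ (fun _ : E d => (0 : ℝ)) y _ = 0
      simp
    simp [this]
  · simp

lemma Wave.sum {ι : Type*} (t : Finset ι) {G : ι → S → E d → ℝ} (h : ∀ i, Wave P τ (G i)) :
    Wave P τ (fun s y => ∑ i ∈ t, G i s y) := by
  classical
  induction t using Finset.induction_on with
  | empty => simpa using Wave.zero
  | insert a t ha ih =>
    have := Wave.add (h a) ih
    simpa [Finset.sum_insert ha] using this

lemma Wave.dd [IsProbabilityMeasure P] (hτ : ∀ x, MeasurePreserving (τ x) P P)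
    {G : S → E d → ℝ} (h : Wave P τ G) (w : E d) : Wave P τ (fun s => dd w (G s)) := by
  have e : (fun s => PW.dd w (G s)) = fun s y => ∑ i, w i * D i (G s) y := by
    funext s y; exact dd_eq w (G s) y
  rw [e]
  exact Wave.sum _ fun i => Wave.cmul (h.der hτ i) (w i)

lemma Wave.ddi [IsProbabilityMeasure P] (hτ : ∀ x, MeasurePreserving (τ x) P P)
    {G : S → E d → ℝ} (h : Wave P τ G) (w : E d) (j : ℕ) :
    Wave P τ (fun s => (PW.dd w)^[j] (G s)) := by
  induction j with
  | zero => exact h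
  | succ j ih =>
    have e : (fun s => (PW.dd w)^[j + 1] (G s)) = fun s => PW.dd w ((PW.dd w)^[j] (G s)) := by
      funext s; rw [Function.iterate_succ_apply']
    rw [e]
    exact Wave.dd hτ ih w

/-- integration by parts -/
lemma ddiv [IsProbabilityMeasure P] (hτ : ∀ x, MeasurePreserving (τ x) P P)
    {G : S → E d → ℝ} (h : SF τ G) (w : E d) (i0 : Integrable (fun s => G s 0) P)
    (i1 : ∀ i, Integrable (fun s => D i (G s) 0) P) : ∫ s, PW.dd w (G s) 0 ∂P = 0 := by
  simp only [dd_eq]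
  rw [integral_finsetSum _ fun i _ => (i1 i).const_mul _]
  refine Finset.sum_eq_zero fun i _ => ?_
  rw [integral_const_mul, div0 hτ h i i0 (i1 i), mul_zero]

lemma skew [IsProbabilityMeasure P] (hτ : ∀ x, MeasurePreserving (τ x) P P)
    {K L : S → E d → ℝ} (hK : Wave P τ K) (hL : Wave P τ L) (w : E d) :
    ∫ s, PW.dd w (K s) 0 * L s 0 ∂P = -∫ s, K s 0 * PW.dd w (L s) 0 ∂P := by
  have k1 := Wave.dd hτ hK w
  have l1 := Wave.dd hτ hL w
  have a1 : Integrable (fun s => PW.dd w (K s) 0 * L s 0) P := mul_l2 k1.m0 hL.m0 k1.l2 hL.l2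
  have a2 : Integrable (fun s => K s 0 * PW.dd w (L s) 0) P := mul_l2 hK.m0 l1.m0 hK.l2 l1.l2
  have h := ddiv hτ (hK.sf.mul hL.sf) w (mul_l2 hK.m0 hL.m0 hK.l2 hL.l2) (fun i => by
    have k2 := hK.der hτ i
    have l2 := hL.der hτ i
    have e : ∀ s, D i (fun y => K s y * L s y) 0 = D i (K s) 0 * L s 0 + K s 0 * D i (L s) 0 :=
      fun s => D_mul (hK.sf.smooth s) (hL.sf.smooth s) i 0
    simp only [e]
    exact (mul_l2 k2.m0 hL.m0 k2.l2 hL.l2).add (mul_l2 hK.m0 l2.m0 hK.l2 l2.l2))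
  have e : ∀ s, PW.dd w (fun y => K s y * L s y) 0 =
      PW.dd w (K s) 0 * L s 0 + K s 0 * PW.dd w (L s) 0 :=
    fun s => dd_mul (hK.sf.smooth s) (hL.sf.smooth s) w 0
  simp only [e] at h
  rw [integral_add a1 a2] at h
  linarith

/-- contraction -/
lemma contr [IsProbabilityMeasure P] (hτ : ∀ x, MeasurePreserving (τ x) P P)
    {K : S → E d → ℝ} (hK : Wave P τ K) (w : E d) (hw : ‖w‖ = 1) :
    ∫ s, PW.dd w (K s) 0 ^ 2 ∂P ≤ ∫ s, K s 0 ^ 2 ∂P := by
  rw [← hK.energy hτ, ← integral_finsetSum _ fun i _ => (hK.der hτ i).l2]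
  refine integral_mono (Wave.dd hτ hK w).l2 (integrable_finsetSum _ fun i _ =>
    (hK.der hτ i).l2) fun s => ?_
  show PW.dd w (K s) 0 ^ 2 ≤ ∑ i, D i (K s) 0 ^ 2
  rw [dd_eq]
  have h1 := Finset.sum_mul_sq_le_sq_mul_sq Finset.univ (fun i => w i) (fun i => D i (K s) 0)
  have h2 : ∑ i, w i ^ 2 = 1 := by
    rw [← EuclideanSpace.real_norm_sq_eq, hw]; norm_num
  rw [h2, one_mul] at h1
  exact h1

/-- Taylor remainder -/
def rem (w : E d) (J : ℕ) (f : E d → ℝ) (x : ℝ) : ℝ :=
  f (x • w) - ∑ j ∈ range J, x ^ j / (j.factorial : ℝ) * (PW.dd w)^[j] f 0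

lemma rem_der {w : E d} (J : ℕ) {f : E d → ℝ} (hf : ContDiff ℝ ∞ f) (x : ℝ) :
    HasDerivAt (rem w (J + 1) f) (rem w J (PW.dd w f) x) x := by
  unfold rem
  have h1 : HasDerivAt (fun t : ℝ => f (t • w)) (PW.dd w f (x • w)) x := by
    have h1 : HasDerivAt (fun t : ℝ => t • w) ((1 : ℝ) • w) x := (hasDerivAt_id x).smul_const w
    have h2 := (sdiff hf (x • w)).hasFDerivAt.comp_hasDerivAt x h1
    rw [one_smul] at h2
    exact h2
  have h2 : HasDerivAt (fun t : ℝ => ∑ j ∈ range (J + 1), t ^ j / (j.factorial : ℝ) *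
      (PW.dd w)^[j] f 0) (∑ j ∈ range J, x ^ j / (j.factorial : ℝ) *
      (PW.dd w)^[j] (PW.dd w f) 0) x := by
    have e : (fun t : ℝ => ∑ j ∈ range (J + 1), t ^ j / (j.factorial : ℝ) *
        (PW.dd w)^[j] f 0) = fun t : ℝ => (∑ j ∈ range J, t ^ (j + 1) / ((j + 1).factorial : ℝ) *
        (PW.dd w)^[j + 1] f 0) + f 0 := by
      funext t
      rw [Finset.sum_range_succ']
      simp
    rw [e]
    refine HasDerivAt.add_const _ ?_
    refine HasDerivAt.fun_sum fun j _ => ?_
    rw [Function.iterate_succ_apply]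
    refine HasDerivAt.mul_const ?_ _
    have h3 := (hasDerivAt_pow (j + 1) x).div_const ((j + 1).factorial : ℝ)
    have e3 : ((j + 1 : ℕ) : ℝ) * x ^ (j + 1 - 1) / ((j + 1).factorial : ℝ) =
        x ^ j / (j.factorial : ℝ) := by
      rw [Nat.factorial_succ]
      push_cast
      have : (j : ℝ) + 1 ≠ 0 := by positivity
      have h' : (j.factorial : ℝ) ≠ 0 := by positivity
      field_simp
    rw [e3] at h3
    exact h3
  exact h1.sub h2

lemma rem_zero (w : E d) (J : ℕ) (f : E d → ℝ) : rem w (J + 1) f 0 = 0 := by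
  unfold rem
  rw [Finset.sum_range_succ']
  simp

lemma rem_cont {w : E d} (J : ℕ) {f : E d → ℝ} (hf : ContDiff ℝ ∞ f) :
    Continuous (rem w J f) := by
  unfold rem
  refine (hf.continuous.comp (continuous_id.smul continuous_const)).sub ?_
  refine continuous_finsetSum _ fun j _ => ?_
  exact ((continuous_id.pow j).div_const _).mul continuous_const

lemma rem_int {w : E d} (J : ℕ) {f : E d → ℝ} (hf : ContDiff ℝ ∞ f) (x : ℝ) :
    rem w (J + 1) f x = x * ∫ t in (0 : ℝ)..1, rem w J (PW.dd w f) (t * x) := by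
  have h : ∀ t ∈ Set.uIcc (0 : ℝ) 1, HasDerivAt (fun t => rem w (J + 1) f (t * x))
      (rem w J (PW.dd w f) (t * x) * x) t := by
    intro t _
    have h1 : HasDerivAt (fun t : ℝ => t * x) (1 * x) t := (hasDerivAt_id t).mul_const x
    rw [one_mul] at h1
    exact (rem_der J hf (t * x)).comp t h1
  have hc : Continuous fun t : ℝ => rem w J (PW.dd w f) (t * x) * x :=
    ((rem_cont J (dd_sm hf w)).comp (continuous_id.mul continuous_const)).mul continuous_const
  have := intervalIntegral.integral_eq_sub_of_hasDerivAt h (hc.intervalIntegrable 0 1)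
  rw [one_mul, zero_mul, rem_zero, sub_zero, intervalIntegral.integral_mul_const] at this
  linarith

lemma csq {f : ℝ → ℝ} (hf : Continuous f) :
    (∫ t in (0 : ℝ)..1, f t) ^ 2 ≤ ∫ t in (0 : ℝ)..1, f t ^ 2 := by
  obtain ⟨c, hc⟩ : ∃ c, c = ∫ t in (0 : ℝ)..1, f t := ⟨_, rfl⟩
  have h0 : 0 ≤ ∫ t in (0 : ℝ)..1, (f t - c) ^ 2 :=
    intervalIntegral.integral_nonneg zero_le_one fun t _ => sq_nonneg _
  have e : ∫ t in (0 : ℝ)..1, (f t - c) ^ 2 = (∫ t in (0 : ℝ)..1, f t ^ 2) - c ^ 2 := by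
    have e1 : (fun t => (f t - c) ^ 2) = fun t => f t ^ 2 - (2 * c * f t - c ^ 2) := by
      funext t; ring
    rw [e1, intervalIntegral.integral_sub, intervalIntegral.integral_sub,
      intervalIntegral.integral_const_mul, ← hc]
    · simp; ring
    · exact (continuous_const.mul hf).intervalIntegrable 0 1
    · exact continuous_const.intervalIntegrable 0 1
    · exact (hf.pow 2).intervalIntegrable 0 1
    · exact ((continuous_const.mul hf).sub continuous_const).intervalIntegrable 0 1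
  rw [e] at h0
  rw [← hc]; linarith

lemma rem_sq {w : E d} (J : ℕ) {f : E d → ℝ} (hf : ContDiff ℝ ∞ f) (x : ℝ) :
    ENNReal.ofReal (rem w (J + 1) f x ^ 2) ≤ ENNReal.ofReal (x ^ 2) *
      ∫⁻ t in Set.Ioc (0 : ℝ) 1, ENNReal.ofReal (rem w J (PW.dd w f) (t * x) ^ 2) := by
  have hc : Continuous fun t : ℝ => rem w J (PW.dd w f) (t * x) :=
    (rem_cont J (dd_sm hf w)).comp (continuous_id.mul continuous_const)
  have i1 : IntegrableOn (fun t : ℝ => rem w J (PW.dd w f) (t * x) ^ 2) (Set.Ioc (0 : ℝ) 1) :=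
    ((hc.pow 2).intervalIntegrable 0 1).1
  rw [← ofReal_integral_eq_lintegral_ofReal i1 (ae_of_all _ fun t => sq_nonneg _),
    ← ENNReal.ofReal_mul (sq_nonneg x)]
  refine ENNReal.ofReal_le_ofReal ?_
  rw [rem_int J hf x, mul_pow, ← intervalIntegral.integral_of_le zero_le_one]
  exact mul_le_mul_of_nonneg_left (csq hc) (sq_nonneg x)

lemma rem_meas {w : E d} (J : ℕ) [IsProbabilityMeasure P]
    (hτ : ∀ x, MeasurePreserving (τ x) P P) {G : S → E d → ℝ} (h : Wave P τ G) :
    Measurable fun p : S × ℝ => rem w J (G p.1) p.2 := by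
  refine Measurable.comp (g := fun p : ℝ × S => rem w J (G p.2) p.1) ?_ measurable_swap
  refine measurable_uncurry_of_continuous_of_measurable (u := fun (x : ℝ) s => rem w J (G s) x)
    (fun s => rem_cont J (h.sf.smooth s)) fun x => ?_
  unfold rem
  refine (h.sf.meas _).sub ?_
  refine Finset.measurable_fun_sum _ fun j _ => ?_
  exact ((Wave.ddi hτ h w j).sf.meas 0).const_mul _

/-- Taylor expansion of waves in `L²` -/
theorem taylor [IsProbabilityMeasure P] (hτ : ∀ x, MeasurePreserving (τ x) P P) (w : E d)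
    (hw : ‖w‖ = 1) (J : ℕ) : ∀ {G : S → E d → ℝ}, Wave P τ G → ∀ x : ℝ,
    ∫⁻ s, ENNReal.ofReal (rem w J (G s) x ^ 2) ∂P ≤
      ENNReal.ofReal ((x ^ 2) ^ J / (J.factorial : ℝ)) * ∫⁻ s, ENNReal.ofReal (G s 0 ^ 2) ∂P := by
  induction J with
  | zero =>
    intro G h x
    simp only [rem, Finset.range_zero, Finset.sum_empty, sub_zero, pow_zero, Nat.factorial_zero,
      Nat.cast_one, div_one, ENNReal.ofReal_one, one_mul]
    rw [st_lint hτ h.sf (x • w) (k := fun x => ENNReal.ofReal (x ^ 2))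
      (measurable_id.pow_const 2).ennreal_ofReal]
  | succ J ih =>
    intro G h x
    have h1 := Wave.dd hτ h w
    calc ∫⁻ s, ENNReal.ofReal (rem w (J + 1) (G s) x ^ 2) ∂P
        ≤ ∫⁻ s, (ENNReal.ofReal (x ^ 2) * (∫⁻ t in Set.Ioc (0 : ℝ) 1,
            ENNReal.ofReal (rem w J (PW.dd w (G s)) (t * x) ^ 2))) ∂P :=
          lintegral_mono fun s => rem_sq J (h.sf.smooth s) x
      _ = ENNReal.ofReal (x ^ 2) * ∫⁻ s, (∫⁻ t in Set.Ioc (0 : ℝ) 1,
            ENNReal.ofReal (rem w J (PW.dd w (G s)) (t * x) ^ 2)) ∂P :=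
          lintegral_const_mul' _ _ ENNReal.ofReal_ne_top
      _ = ENNReal.ofReal (x ^ 2) * ∫⁻ t in Set.Ioc (0 : ℝ) 1, (∫⁻ s,
            ENNReal.ofReal (rem w J (PW.dd w (G s)) (t * x) ^ 2) ∂P) := by
          rw [lintegral_lintegral_swap]
          have m := rem_meas (w := w) J hτ h1
          exact (((m.comp (measurable_fst.prodMk (measurable_snd.mul_const x))).pow_const
            2).ennreal_ofReal).aemeasurable
      _ ≤ ENNReal.ofReal (x ^ 2) * ∫⁻ t in Set.Ioc (0 : ℝ) 1,
            (ENNReal.ofReal (((t * x) ^ 2) ^ J / (J.factorial : ℝ)) *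
              ∫⁻ s, ENNReal.ofReal (G s 0 ^ 2) ∂P) := by
          refine mul_le_mul_right (lintegral_mono fun t => ?_) _
          refine (ih h1 (t * x)).trans ?_
          refine mul_le_mul_right ?_ _
          rw [← ofReal_integral_eq_lintegral_ofReal h1.l2 (ae_of_all _ fun s => sq_nonneg _),
            ← ofReal_integral_eq_lintegral_ofReal h.l2 (ae_of_all _ fun s => sq_nonneg _)]
          exact ENNReal.ofReal_le_ofReal (contr hτ h w hw)
      _ = ENNReal.ofReal (x ^ 2) * ((∫⁻ t in Set.Ioc (0 : ℝ) 1,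
            ENNReal.ofReal (((t * x) ^ 2) ^ J / (J.factorial : ℝ))) *
              ∫⁻ s, ENNReal.ofReal (G s 0 ^ 2) ∂P) := by
          congr 1
          refine lintegral_mul_const _ ?_
          fun_prop
      _ ≤ ENNReal.ofReal ((x ^ 2) ^ (J + 1) / ((J + 1).factorial : ℝ)) *
            ∫⁻ s, ENNReal.ofReal (G s 0 ^ 2) ∂P := by
          rw [← mul_assoc]
          gcongr
          have hc : Continuous fun t : ℝ => ((t * x) ^ 2) ^ J / (J.factorial : ℝ) := by fun_prop
          have i1 : IntegrableOn (fun t : ℝ => ((t * x) ^ 2) ^ J / (J.factorial : ℝ))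
              (Set.Ioc (0 : ℝ) 1) := (hc.intervalIntegrable 0 1).1
          rw [← ofReal_integral_eq_lintegral_ofReal i1 (ae_of_all _ fun t => by positivity),
            ← ENNReal.ofReal_mul (sq_nonneg x)]
          refine ENNReal.ofReal_le_ofReal ?_
          rw [← intervalIntegral.integral_of_le zero_le_one]
          have e : (fun t : ℝ => ((t * x) ^ 2) ^ J / (J.factorial : ℝ)) =
              fun t : ℝ => ((x ^ 2) ^ J / (J.factorial : ℝ)) * t ^ (2 * J) := by
            funext t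
            rw [mul_pow, mul_pow, ← pow_mul, ← pow_mul]
            ring
          rw [e, intervalIntegral.integral_const_mul, integral_pow]
          rw [Nat.factorial_succ]
          push_cast
          have hJ : (0 : ℝ) < (J.factorial : ℝ) := by positivity
          have h3 : x ^ 2 * ((x ^ 2) ^ J / (J.factorial : ℝ) *
              ((1 ^ (2 * J + 1) - 0 ^ (2 * J + 1)) / (2 * (J : ℝ) + 1))) =
              (x ^ 2) ^ (J + 1) / (J.factorial : ℝ) * (1 / (2 * (J : ℝ) + 1)) := by
            simp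
            ring
          rw [h3]
          have h4 : (x ^ 2) ^ (J + 1) / (((J : ℝ) + 1) * (J.factorial : ℝ)) =
              (x ^ 2) ^ (J + 1) / (J.factorial : ℝ) * (1 / ((J : ℝ) + 1)) := by
            field_simp
          rw [h4]
          gcongr
          linarith [(Nat.cast_nonneg J : (0 : ℝ) ≤ J)]

end

end Pool.Agent.T6.H5.PW
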